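import Pool.Agent.SRC.Defs

set_option autoImplicit false

namespace SRC

variable {g : ℕ} {s : ℤ} {N1 N2 i j P1 P2 : ℕ}

theorem n2_not_two_dvd {P : ℕ} (h : Odd P) {p : ℕ} (hd : p ∣ P) : p ≠ 2 := by
  rintro rfl
  exact (Nat.not_even_iff_odd.2 h) (even_iff_two_dvd.2 hd)

theorem Dat.coprime (d : Dat g s N1 N2 i j P1 P2) : Nat.Coprime P1 P2 := by
  rw [Nat.coprime_iff_gcd_eq_one]
  by_contra hne
  obtain ⟨p, hp, hpd⟩ := Nat.exists_prime_and_dvd hne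
  have h1 : p ∣ P1 := hpd.trans (Nat.gcd_dvd_left _ _)
  have h2 : p ∣ P2 := hpd.trans (Nat.gcd_dvd_right _ _)
  have hp2 : p ≠ 2 := n2_not_two_dvd d.odd1 h1
  have hN1 : (p : ℤ) ∣ s ^ 2 - s + 2 := by
    rw [← d.e1, d.h1]; exact_mod_cast Dvd.dvd.mul_left h1 _
  have hN2 : (p : ℤ) ∣ s ^ 2 + s + 2 := by
    rw [← d.e2, d.h2]; exact_mod_cast Dvd.dvd.mul_left h2 _
  have hpp : Prime (p : ℤ) := Nat.prime_iff_prime_int.1 hp
  have h2' : ¬ (p : ℤ) ∣ 2 := by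
    intro hcon
    have h3 : p ∣ 2 := by exact_mod_cast hcon
    exact hp2 ((Nat.prime_dvd_prime_iff_eq hp Nat.prime_two).1 h3)
  have h3 : (p : ℤ) ∣ 2 * s := by
    have := dvd_sub hN2 hN1
    have e : s ^ 2 + s + 2 - (s ^ 2 - s + 2) = 2 * s := by ring
    rwa [e] at this
  have h4 : (p : ℤ) ∣ s := (hpp.dvd_or_dvd h3).resolve_left h2'
  apply h2'
  have h5 : (p : ℤ) ∣ s ^ 2 + s := dvd_add (dvd_pow h4 (by norm_num)) h4
  have := dvd_sub hN2 h5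
  have e : s ^ 2 + s + 2 - (s ^ 2 + s) = 2 := by ring
  rwa [e] at this

theorem n2_two_mul_gt (d : Dat g s N1 N2 i j P1 P2) : N2 < 2 * N1 := by
  have h1 : (N2 : ℤ) < 2 * N1 := by
    rw [d.e1, d.e2]
    rcases le_abs.1 d.hs with h | h <;> nlinarith
  exact_mod_cast h1

theorem Dat.lt (d : Dat g s N1 N2 i j P1 P2) : P2 < P1 := by
  have h1 := n2_two_mul_gt d
  have h2 : 2 ^ (i + 1) * P2 ≤ N2 := by
    rw [d.h2]
    exact Nat.mul_le_mul_right _ (Nat.pow_le_pow_right (by norm_num) d.hij)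
  have h3 : 2 ^ (i + 1) * P2 < 2 ^ (i + 1) * P1 := by
    calc 2 ^ (i + 1) * P2 ≤ N2 := h2
      _ < 2 * N1 := h1
      _ = 2 ^ (i + 1) * P1 := by rw [d.h1]; ring
  exact lt_of_mul_lt_mul_left h3 (Nat.zero_le _)

/-- `|G| = 2^(i+j-1) P1 P2`. -/
theorem Dat.card_eq (d : Dat g s N1 N2 i j P1 P2) : g = 2 ^ (i + j - 1) * (P1 * P2) := by
  have h1 := d.hg
  rw [d.h1, d.h2] at h1
  have h2 : i + j = (i + j - 1) + 1 := by
    have := d.hij
    omega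
  have h3 : 2 * g = 2 * (2 ^ (i + j - 1) * (P1 * P2)) := by
    calc 2 * g = 2 ^ (i + j) * (P1 * P2) := by rw [h1, pow_add]; ring
      _ = 2 ^ ((i + j - 1) + 1) * (P1 * P2) := by rw [← h2]
      _ = _ := by rw [pow_succ]; ring
  omega

theorem Dat.dvd_or (d : Dat g s N1 N2 i j P1 P2) {p : ℕ} (hp : p.Prime) (hp2 : p ≠ 2)
    (hpg : p ∣ g) : p ∣ P1 ∨ p ∣ P2 := by
  rw [d.card_eq] at hpg
  rcases (Nat.Prime.dvd_mul hp).1 hpg with h | h
  · exact absurd ((Nat.prime_dvd_prime_iff_eq hp Nat.prime_two).1 (hp.dvd_of_dvd_pow h)) hp2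
  · exact (Nat.Prime.dvd_mul hp).1 h

theorem Dat.seven_le (d : Dat g s N1 N2 i j P1 P2) {p : ℕ} (hp : p.Prime) (hp2 : p ≠ 2)
    (hpg : p ∣ P1 ∨ p ∣ P2) : 7 ≤ p := by
  have h1 : (p : ℤ) ∣ s ^ 2 - s + 2 ∨ (p : ℤ) ∣ s ^ 2 + s + 2 := by
    rcases hpg with h | h
    · left
      rw [← d.e1, d.h1]; exact_mod_cast Dvd.dvd.mul_left h _
    · right
      rw [← d.e2, d.h2]; exact_mod_cast Dvd.dvd.mul_left h _
  have h3 : p ≠ 3 := by
    rintro rfl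
    have hs : s % 3 = 0 ∨ s % 3 = 1 ∨ s % 3 = 2 := by omega
    rcases h1 with h | h <;> rcases hs with h4 | h4 | h4 <;>
      · have := Int.emod_emod_of_dvd
        have h5 := Int.emod_eq_zero_of_dvd h
        simp [pow_two, Int.add_emod, Int.sub_emod, Int.mul_emod, h4] at h5
  have h5 : p ≠ 5 := by
    rintro rfl
    have hs : s % 5 = 0 ∨ s % 5 = 1 ∨ s % 5 = 2 ∨ s % 5 = 3 ∨ s % 5 = 4 := by omega
    rcases h1 with h | h <;> rcases hs with h4 | h4 | h4 | h4 | h4 <;>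
      · have h5 := Int.emod_eq_zero_of_dvd h
        simp [pow_two, Int.add_emod, Int.sub_emod, Int.mul_emod, h4] at h5
  by_contra hlt
  push Not at hlt
  have := hp.two_le
  interval_cases p
  · exact hp2 rfl
  · exact h3 rfl
  · exact absurd hp (by norm_num)
  · exact h5 rfl
  · exact absurd hp (by norm_num)

theorem Dat.one_lt (d : Dat g s N1 N2 i j P1 P2) : 1 < P1 := by
  have h1 : (20 : ℤ) < N1 := by
    rw [d.e1]
    rcases le_abs.1 d.hs with h | h <;> nlinarith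
  have h2 : 20 < N1 := by exact_mod_cast h1
  rw [d.h1] at h2
  have h3 : 2 ^ i ≤ 4 := by
    rcases d.hi with h | h <;> rw [h] <;> norm_num
  by_contra hcon
  push Not at hcon
  have : 2 ^ i * P1 ≤ 4 * 1 := Nat.mul_le_mul h3 hcon
  omega

theorem Dat.arith6 (d : Dat g s N1 N2 i j P1 P2) {p : ℕ} (hp : p.Prime) (hp2 : p ≠ 2)
    (h2 : p ∣ P2) (h1 : (p : ℤ) ∣ (P1 : ℤ) - 1) : False := by
  have hpp : Prime (p : ℤ) := Nat.prime_iff_prime_int.1 hp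
  have h2' : ¬ (p : ℤ) ∣ 2 := by
    intro hcon
    have h3 : p ∣ 2 := by exact_mod_cast hcon
    exact hp2 ((Nat.prime_dvd_prime_iff_eq hp Nat.prime_two).1 h3)
  have hN2 : (p : ℤ) ∣ s ^ 2 + s + 2 := by
    rw [← d.e2, d.h2]; exact_mod_cast Dvd.dvd.mul_left h2 _
  have hN1 : (p : ℤ) ∣ s ^ 2 - s + 2 - 2 ^ i := by
    have h3 : s ^ 2 - s + 2 - 2 ^ i = 2 ^ i * ((P1 : ℤ) - 1) := by
      rw [← d.e1, d.h1]; push_cast; ring
    rw [h3]
    exact Dvd.dvd.mul_left h1 _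
  rcases d.hi with hi | hi
  · rw [hi] at hN1
    have h3 : (p : ℤ) ∣ 2 * (s + 1) := by
      have := dvd_sub hN2 hN1
      have e : s ^ 2 + s + 2 - (s ^ 2 - s + 2 - 2 ^ 1) = 2 * (s + 1) := by ring
      rwa [e] at this
    have h4 := (hpp.dvd_or_dvd h3).resolve_left h2'
    have h5 : (p : ℤ) ∣ (s + 1) * s := Dvd.dvd.mul_right h4 _
    have h6 := dvd_sub hN2 h5
    have e : s ^ 2 + s + 2 - (s + 1) * s = 2 := by ring
    rw [e] at h6
    exact h2' h6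
  · rw [hi] at hN1
    have h3 : (p : ℤ) ∣ 2 * (s + 2) := by
      have := dvd_sub hN2 hN1
      have e : s ^ 2 + s + 2 - (s ^ 2 - s + 2 - 2 ^ 2) = 2 * (s + 2) := by ring
      rwa [e] at this
    have h4 := (hpp.dvd_or_dvd h3).resolve_left h2'
    have h5 : (p : ℤ) ∣ (s + 2) * (s - 1) := Dvd.dvd.mul_right h4 _
    have h6 := dvd_sub hN2 h5
    have e : s ^ 2 + s + 2 - (s + 2) * (s - 1) = 2 * 2 := by ring
    rw [e] at h6
    rcases hpp.dvd_or_dvd h6 with h | h <;> exact h2' h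

end SRC
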