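import Pool.Agent.SRC.Defs
import Pool.Agent.SRC.N2

set_option autoImplicit false

namespace SRC

theorem class_count {G : Type*} [Group G] [Finite G] (S : Set G)
    (hS : ∀ s ∈ S, ∀ g : G, g * s * g⁻¹ ∈ S) (m : ℕ)
    (h : ∀ s ∈ S, m ∣ (Subgroup.centralizer ({s} : Set G)).index) : m ∣ Nat.card S := by
  classical
  letI : MulAction G S :=
    { smul := fun g s => ⟨g * s.1 * g⁻¹, hS s.1 s.2 g⟩
      one_smul := by
        intro s
        apply Subtype.ext
        change (1 : G) * s.1 * (1 : G)⁻¹ = s.1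
        simp
      mul_smul := by
        intro a b s
        apply Subtype.ext
        change (a * b) * s.1 * (a * b)⁻¹ = a * (b * s.1 * b⁻¹) * a⁻¹
        group }
  have hst : ∀ s : S, MulAction.stabilizer G s = Subgroup.centralizer ({s.1} : Set G) := by
    intro s
    ext g
    rw [MulAction.mem_stabilizer_iff, Subgroup.mem_centralizer_singleton_iff]
    constructor
    · intro hg
      have h1 : g * s.1 * g⁻¹ = s.1 := congrArg Subtype.val hg
      calc g * s.1 = g * s.1 * g⁻¹ * g := by group
        _ = s.1 * g := by rw [h1]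
    · intro hg
      apply Subtype.ext
      change g * s.1 * g⁻¹ = s.1
      rw [hg]; group
  have := Fintype.ofFinite S
  have := Fintype.ofFinite (Quotient (MulAction.orbitRel G S))
  rw [Nat.card_congr (MulAction.selfEquivSigmaOrbits G S), Nat.card_sigma]
  apply Finset.dvd_sum
  intro ω _
  have h1 := MulAction.index_stabilizer G ω.out
  rw [hst] at h1
  have h2 := h ω.out.1 ω.out.2
  rw [h1] at h2
  rw [Nat.card_coe_set_eq]
  exact h2

theorem dvd_index_of_dvd_N2 {G : Type*} [Group G] [Finite G] {s : ℤ} {N1 N2 i j P1 P2 : ℕ}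
    (d : Dat (Nat.card G) s N1 N2 i j P1 P2) (H : Subgroup G) (hH : Nat.card H ∣ N2) :
    P1 ∣ H.index := by
  have h1 : Nat.card H * H.index = Nat.card G := Subgroup.card_mul_index H
  have h2 : P1 ∣ Nat.card H * H.index := by
    rw [h1, d.card_eq]
    exact Dvd.dvd.mul_left (dvd_mul_right _ _) _
  have h3 : Nat.Coprime P1 (Nat.card H) := by
    apply Nat.Coprime.coprime_dvd_right hH
    rw [d.h2]
    apply Nat.Coprime.mul_right
    · apply Nat.Coprime.pow_right
      exact Nat.coprime_two_right.2 d.odd1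
    · exact d.coprime
  exact h3.dvd_of_dvd_mul_left h2

theorem dvd_index_centralizer {G : Type*} [Group G] [Finite G] {s : ℤ} {N1 N2 i j P1 P2 : ℕ}
    (d : Dat (Nat.card G) s N1 N2 i j P1 P2) (hyp : Hyp G N1 N2 P1 P2) (r : ℕ) (hr : r.Prime)
    (hr2 : r ≠ 2) (hrP : r ∣ P2) (w : G) (hw : r ∣ orderOf w) :
    P1 ∣ (Subgroup.centralizer ({w} : Set G)).index := by
  apply dvd_index_of_dvd_N2 d
  have ho : orderOf (w ^ (orderOf w / r)) = r :=
    orderOf_pow_orderOf_div (orderOf_pos w).ne' hw
  refine (Subgroup.card_dvd_of_le ?_).trans (hyp.c2 r hr hr2 hrP _ ho)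
  intro g hg
  rw [Subgroup.mem_centralizer_singleton_iff] at hg ⊢
  have h1 : Commute g w := hg
  exact h1.pow_right _

end SRC
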