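import Pool.Agent.SRC.Defs

set_option autoImplicit false

namespace SRC

/-- fixed points of conjugation by `z` on a subgroup. -/
theorem card_inf_centralizer_modEq {G : Type*} [Group G] [Finite G] (H : Subgroup G) (z : G)
    (r : ℕ) (hr : r.Prime) (hz : z ^ r = 1) (hn : ∀ h ∈ H, z * h * z⁻¹ ∈ H) :
    Nat.card ↥(H ⊓ Subgroup.centralizer ({z} : Set G)) ≡ Nat.card H [MOD r] := by
  classical
  have hfr : Fact r.Prime := ⟨hr⟩
  have := Fintype.ofFinite H
  have hn' := inv_conj_mem H z hn r hr.pos hz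
  set σ : MulAut H := conjOn H z hn hn' with hσ
  let f : Function.End H := fun h => σ h
  have hf : ∀ k : ℕ, ∀ h : H, (f ^ k) h = (σ ^ k) h := by
    intro k
    induction k with
    | zero => intro h; rw [pow_zero, pow_zero]; rfl
    | succ k ih =>
      intro h
      rw [pow_succ, pow_succ]
      change (f ^ k) (f h) = (σ ^ k) (σ h)
      rw [ih]
  have hf1 : f ^ r ^ 1 = 1 := by
    funext h
    rw [pow_one, hf r h, hσ, conjOn_pow_eq_one H z hn hn' r hz]
    rfl
  have h1 := Equiv.Perm.card_fixedPoints_modEq hf1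
  rw [← Nat.card_eq_fintype_card, ← Nat.card_eq_fintype_card] at h1
  have h2 : Nat.card ↥(H ⊓ Subgroup.centralizer ({z} : Set G)) =
      Nat.card (Function.fixedPoints f) := by
    apply Nat.card_congr
    refine
      { toFun := fun u => ⟨⟨u.1, u.2.1⟩, ?_⟩
        invFun := fun u => ⟨u.1.1, u.1.2, ?_⟩
        left_inv := fun u => rfl
        right_inv := fun u => rfl }
    · have hu : u.1 ∈ Subgroup.centralizer ({z} : Set G) := u.2.2
      rw [Subgroup.mem_centralizer_singleton_iff] at hu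
      change f _ = _
      apply Subtype.ext
      change z * u.1 * z⁻¹ = u.1
      rw [← hu]; group
    · have hu : f u.1 = u.1 := u.2
      have hu2 : z * (u.1 : G) * z⁻¹ = u.1 := congrArg Subtype.val hu
      change (u.1 : G) ∈ Subgroup.centralizer ({z} : Set G)
      rw [Subgroup.mem_centralizer_singleton_iff]
      calc (u.1 : G) * z = z * (u.1 : G) * z⁻¹ * z := by rw [hu2]
        _ = z * u.1 := by group
  rw [h2]
  exact h1.symm

/-- an invariant coset contains a fixed element. -/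
theorem coset_fixed {G : Type*} [Group G] [Finite G] (Q : Subgroup G) (z g : G)
    (r : ℕ) (hr : r.Prime) (hz : z ^ r = 1) (hn : ∀ h ∈ Q, z * h * z⁻¹ ∈ Q)
    (hrQ : ¬ r ∣ Nat.card Q) (hc : g⁻¹ * (z * g * z⁻¹) ∈ Q) :
    ∃ q ∈ Q, z * (g * q) = (g * q) * z := by
  classical
  have hfr : Fact r.Prime := ⟨hr⟩
  have := Fintype.ofFinite Q
  let f : Function.End Q := fun q => ⟨g⁻¹ * (z * g * z⁻¹) * (z * q * z⁻¹), mul_mem hc (hn q q.2)⟩
  have hf : ∀ k : ℕ, ∀ q : Q, (((f ^ k) q : Q) : G) = g⁻¹ * (z ^ k * (g * q) * (z ^ k)⁻¹) := by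
    intro k
    induction k with
    | zero =>
      intro q
      rw [pow_zero, pow_zero]
      change ((q : Q) : G) = _
      group
    | succ k ih =>
      intro q
      rw [pow_succ']
      change ((f ((f ^ k) q) : Q) : G) = _
      change g⁻¹ * (z * g * z⁻¹) * (z * (((f ^ k) q : Q) : G) * z⁻¹) = _
      rw [ih q, pow_succ']
      group
  have hf1 : f ^ r ^ 1 = 1 := by
    funext q
    apply Subtype.ext
    rw [pow_one, hf r q, hz]
    change g⁻¹ * (1 * (g * (q : G)) * (1 : G)⁻¹) = (q : G)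
    group
  have h1 := Equiv.Perm.card_fixedPoints_modEq hf1
  rw [← Nat.card_eq_fintype_card] at h1
  have h2 : Nonempty (Function.fixedPoints f) := by
    by_contra hcon
    rw [not_nonempty_iff] at hcon
    have h3 : Fintype.card (Function.fixedPoints f) = 0 := Fintype.card_eq_zero
    rw [h3] at h1
    exact hrQ ((Nat.modEq_zero_iff_dvd).1 h1)
  obtain ⟨q, hq⟩ := h2
  refine ⟨q, q.2, ?_⟩
  have hq1 : f q = q := hq
  have hq2 : g⁻¹ * (z * g * z⁻¹) * (z * (q : G) * z⁻¹) = q := congrArg Subtype.val hq1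
  calc z * (g * q) = g * (g⁻¹ * (z * g * z⁻¹) * (z * (q : G) * z⁻¹)) * z := by group
    _ = g * q * z := by rw [hq2]

theorem mem_of_pow_mem_coprime {G : Type*} [Group G] (H : Subgroup G) (w : G) (a b : ℕ)
    (hab : Nat.Coprime a b) (ha : w ^ a ∈ H) (hb : w ^ b ∈ H) : w ∈ H := by
  have h1 : (1 : ℤ) = a * Nat.gcdA a b + b * Nat.gcdB a b := by
    have := Nat.gcd_eq_gcd_ab a b
    rw [hab] at this
    exact_mod_cast this
  have h2 : w = (w ^ a) ^ (Nat.gcdA a b) * (w ^ b) ^ (Nat.gcdB a b) := by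
    rw [← zpow_natCast, ← zpow_natCast, ← zpow_mul, ← zpow_mul, ← zpow_add, ← h1, zpow_one]
  rw [h2]
  exact mul_mem (zpow_mem ha _) (zpow_mem hb _)

/-- an odd prime does not divide the order of a finite `2`-group -/
theorem not_dvd_card_two_group {G : Type*} [Group G] [Finite G] (Q : Subgroup G)
    (hQ : IsPGroup 2 Q) (p : ℕ) (hp : p.Prime) (hp2 : p ≠ 2) : ¬ p ∣ Nat.card Q := by
  intro hcon
  obtain ⟨a, ha⟩ := (IsPGroup.iff_card (p := 2)).1 hQ
  rw [ha] at hcon
  exact hp2 ((Nat.prime_dvd_prime_iff_eq hp Nat.prime_two).1 (hp.dvd_of_dvd_pow hcon))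

theorem lift_order {G : Type*} [Group G] [Finite G] (Q : Subgroup G) (hQ : IsPGroup 2 Q) (p : ℕ)
    (hp : p.Prime) (hp2 : p ≠ 2) (w : G) (hw : w ∉ Q) (hwp : w ^ p ∈ Q) :
    orderOf (w ^ Nat.card Q) = p ∧ w ^ Nat.card Q ∉ Q := by
  have hcop : Nat.Coprime (Nat.card Q) p :=
    ((hp.coprime_iff_not_dvd).2 (not_dvd_card_two_group Q hQ p hp hp2)).symm
  have h1 : w ^ Nat.card Q ∉ Q := by
    intro hcon
    exact hw (mem_of_pow_mem_coprime Q w (Nat.card Q) p hcop hcon hwp)
  refine ⟨?_, h1⟩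
  have hfp : Fact p.Prime := ⟨hp⟩
  apply orderOf_eq_prime
  · rw [← pow_mul, mul_comm, pow_mul]
    have h2 : (⟨w ^ p, hwp⟩ : Q) ^ Nat.card Q = 1 := pow_card_eq_one'
    exact congrArg Subtype.val h2
  · intro hcon
    rw [hcon] at h1
    exact h1 (one_mem _)

end SRC
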