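import Pool.Agent.SRC.Defs

set_option autoImplicit false

namespace SRC

/-- PROOF. Take `M` minimal (for `≤`) among the nontrivial normal subgroups of `H` contained in `N`
(finitely many subgroups, `Set.Finite.exists_minimal`, as in Pool/Agent/MP_e446a9_co/BlockE1.lean).
`⁅M, M⁆` is normal in `H` (`Subgroup.commutator_normal`), contained in `M`, and `≠ M` because `M` is
solvable and nontrivial (`IsSolvable.commutator_lt_of_ne_bot` or similar); by minimality it is `⊥`,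
so `M` is commutative.  Let `p` be a prime divisor of `|M|` and `E = {x ∈ M : x ^ p = 1}`
(a subgroup since `M` is commutative): normal, nontrivial (Cauchy). -/
theorem exists_elementary_normal {H : Type*} [Group H] [Finite H] [Group.IsSolvable H] (N : Subgroup H)
    (hN : N.Normal) (hN0 : N ≠ ⊥) :
    ∃ p : ℕ, p.Prime ∧ ∃ E : Subgroup H, E.Normal ∧ E ≠ ⊥ ∧ E ≤ N ∧
      (∀ x ∈ E, ∀ y ∈ E, x * y = y * x) ∧ ∀ x ∈ E, x ^ p = 1 := by
  classical
  obtain ⟨M, hM⟩ := Set.Finite.exists_minimal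
    (Set.toFinite {K : Subgroup H | K.Normal ∧ K ≤ N ∧ K ≠ ⊥}) ⟨N, hN, le_rfl, hN0⟩
  obtain ⟨hMn, hMN, hM0⟩ := hM.prop
  have hmin : ∀ K : Subgroup H, K.Normal → K ≤ M → K ≠ ⊥ → K = M := by
    intro K hK hKM hK0
    exact le_antisymm hKM (hM.le_of_le ⟨hK, hKM.trans hMN, hK0⟩ hKM)
  have hcomm : ⁅M, M⁆ = ⊥ := by
    by_contra hne
    have hlt := Group.IsSolvable.commutator_lt_of_ne_bot hM0
    exact hlt.ne (hmin _ inferInstance hlt.le hne)
  have hMab : ∀ x ∈ M, ∀ y ∈ M, x * y = y * x := by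
    intro x hx y hy
    have h1 : M ≤ Subgroup.centralizer (M : Set H) := by
      rw [← Subgroup.commutator_eq_bot_iff_le_centralizer]
      exact hcomm
    have h2 := h1 hx
    rw [Subgroup.mem_centralizer_iff] at h2
    exact (h2 y hy).symm
  have hMcard : 1 < Nat.card M := by
    rw [Subgroup.one_lt_card_iff_ne_bot]; exact hM0
  obtain ⟨p, hp, hpdvd⟩ := Nat.exists_prime_and_dvd (ne_of_gt hMcard)
  have : Fact p.Prime := ⟨hp⟩
  let E : Subgroup H :=
    { carrier := {x | x ∈ M ∧ x ^ p = 1}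
      one_mem' := ⟨M.one_mem, one_pow p⟩
      mul_mem' := by
        rintro x y ⟨hx, hx1⟩ ⟨hy, hy1⟩
        refine ⟨M.mul_mem hx hy, ?_⟩
        rw [(show Commute x y from hMab x hx y hy).mul_pow, hx1, hy1, one_mul]
      inv_mem' := by
        rintro x ⟨hx, hx1⟩
        exact ⟨M.inv_mem hx, by rw [inv_pow, hx1, inv_one]⟩ }
  have hE : ∀ x, x ∈ E ↔ x ∈ M ∧ x ^ p = 1 := fun x => Iff.rfl
  refine ⟨p, hp, E, ⟨?_⟩, ?_, ?_, ?_, ?_⟩
  · intro x hx g
    rw [hE] at hx ⊢
    exact ⟨hMn.conj_mem x hx.1 g, by rw [conj_pow, hx.2, mul_one, mul_inv_cancel]⟩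
  · obtain ⟨x, hx⟩ := exists_prime_orderOf_dvd_card' (G := M) p hpdvd
    intro h0
    have h1 : (x : H) ∈ E := by
      rw [hE]
      refine ⟨x.2, ?_⟩
      have h2 := pow_orderOf_eq_one x
      rw [hx] at h2
      exact_mod_cast congrArg Subtype.val h2
    rw [h0, Subgroup.mem_bot] at h1
    have h3 : x = 1 := Subtype.ext h1
    rw [h3, orderOf_one] at hx
    exact hp.one_lt.ne hx
  · intro x hx
    exact hMN ((hE x).1 hx).1
  · intro x hx y hy
    exact hMab x ((hE x).1 hx).1 y ((hE y).1 hy).1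
  · intro x hx
    exact ((hE x).1 hx).2

/-- PROOF. `Set.Finite.exists_maximal` (or `exists_le_maximal`) for the set of normal
`2`-subgroups, which contains `⊥`. -/
theorem exists_core {G : Type*} [Group G] [Finite G] : ∃ Q : Subgroup G, Core Q := by
  obtain ⟨Q, hQ⟩ := Set.Finite.exists_maximal
    (Set.toFinite {K : Subgroup G | K.Normal ∧ IsPGroup 2 K})
    ⟨⊥, inferInstance, IsPGroup.of_bot⟩
  refine ⟨Q, hQ.prop.1, hQ.prop.2, fun R hR hR2 hQR => ?_⟩
  exact le_antisymm (hQ.le_of_ge ⟨hR, hR2⟩ hQR) hQR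

/-- PROOF. `E'` = preimage of the subgroup `E` of `G ⧸ Q` given by `exists_elementary_normal` for
`N = ⊤` (`G ⧸ Q` is solvable and nontrivial as `Q ≠ ⊤`).  `R = E.comap (QuotientGroup.mk' Q)`.
`x ^ p ∈ Q` and `x y x⁻¹ y⁻¹ ∈ Q` translate to the quotient (`QuotientGroup.eq_one_iff`).
If `p = 2`, then `R` is a normal `2`-group (`(x^2)^(2^k) = 1`), so `R = Q` by maximality,
contradiction to `E ≠ ⊥`. -/
theorem exists_elem {G : Type*} [Group G] [Finite G] (hs : Group.IsSolvable G) (Q : Subgroup G)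
    (hQ : Core Q) (hne : Q ≠ ⊤) : ∃ (p : ℕ) (R : Subgroup G), p.Prime ∧ p ≠ 2 ∧ Elem Q R p := by
  classical
  have := hQ.normal
  have : Group.IsSolvable G := hs
  have hnt : Nontrivial (G ⧸ Q) := by
    rw [← not_subsingleton_iff_nontrivial]
    intro hsub
    exact hne (QuotientGroup.subsingleton_iff.1 hsub)
  have htop : (⊤ : Subgroup (G ⧸ Q)) ≠ ⊥ := top_ne_bot
  obtain ⟨p, hp, E, hEn, hE0, -, hEc, hEp⟩ := exists_elementary_normal (H := G ⧸ Q) ⊤ inferInstance htop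
  let R : Subgroup G := E.comap (QuotientGroup.mk' Q)
  have hR : ∀ x, x ∈ R ↔ (x : G ⧸ Q) ∈ E := fun x => Iff.rfl
  have hRn : R.Normal := Subgroup.Normal.comap hEn _
  have hQR : Q ≤ R := by
    intro x hx
    rw [hR, (QuotientGroup.eq_one_iff x).2 hx]
    exact E.one_mem
  have hnle : ¬ R ≤ Q := by
    intro hle
    apply hE0
    rw [eq_bot_iff]
    intro y hy
    obtain ⟨x, rfl⟩ := QuotientGroup.mk_surjective y
    rw [Subgroup.mem_bot]
    exact (QuotientGroup.eq_one_iff x).2 (hle ((hR x).2 hy))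
  have hpow : ∀ x ∈ R, x ^ p ∈ Q := by
    intro x hx
    rw [← QuotientGroup.eq_one_iff, QuotientGroup.mk_pow]
    exact hEp _ hx
  refine ⟨p, R, hp, ?_, hRn, hQR, hnle, hpow, ?_⟩
  · rintro rfl
    apply hnle
    have h2 : IsPGroup 2 R := by
      intro x
      obtain ⟨k, hk⟩ := hQ.two ⟨(x : G) ^ 2, hpow x x.2⟩
      refine ⟨k + 1, ?_⟩
      have h4 : ((x : G) ^ 2) ^ 2 ^ k = 1 := congrArg Subtype.val hk
      rw [← pow_mul, ← pow_succ'] at h4
      exact Subtype.ext h4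
    rw [hQ.max R hRn h2 hQR]
  · intro x hx y hy
    rw [← QuotientGroup.eq_one_iff]
    simp only [QuotientGroup.mk_mul, QuotientGroup.mk_inv]
    have h5 : (x : G ⧸ Q) * (y : G ⧸ Q) = (y : G ⧸ Q) * (x : G ⧸ Q) := hEc _ hx _ hy
    rw [h5]
    group

end SRC
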