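import Pool.Agent.SRC.A2
import Pool.Agent.SRC.A3

set_option autoImplicit false

namespace SRC

/-- `C_G(Q) ≤ Q`.
PROOF. Let `C = centralizer Q` (normal in `G`, `Q` being normal), suppose `¬ C ≤ Q`.  Let
`N = C.map (QuotientGroup.mk' Q)`, a nontrivial normal subgroup of `G ⧸ Q`;
`exists_elementary_normal` gives a prime `p` and `E ≤ N`.  Let `R = E.comap (mk' Q)` (normal) and
`R' = R ⊓ C` (normal).  There is `c₀ ∈ R' \ Q` (a nontrivial element of `E ≤ N` is the class of some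
`c₀ ∈ C`).
If `p = 2`: `R` is a normal `2`-subgroup containing `Q`, so `R = Q`, contradiction.
If `p ≠ 2`: `R'` is commutative: for `a, b ∈ R'`, `c = a b a⁻¹ b⁻¹ ∈ Q` (`E` commutative), `c`
commutes with `a` and `b` (which centralize `Q`), so `a^m b (a^m)⁻¹ = c^m b`; `a^p ∈ Q` commutes
with `b`, so `c^p = 1`, and `c ∈ Q` (a `2`-group), so `c = 1`.
So `F = {x ∈ R' : x^p = 1}` is a subgroup, normal in `G`; `F = ⊥` by hypothesis; but
`c₀ ^ |Q| ∈ F` and it is `≠ 1` by `lift_order` (it is not in `Q`), contradiction. -/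
theorem centralizer_le {G : Type*} [Group G] [Finite G] (hs : Group.IsSolvable G)
    (hel : ∀ p : ℕ, p.Prime → p ≠ 2 → ∀ E : Subgroup G, E.Normal → (∀ x ∈ E, x ^ p = 1) → E = ⊥)
    (Q : Subgroup G) (hQ : Core Q) : Subgroup.centralizer (Q : Set G) ≤ Q := by
  classical
  have := hQ.normal
  have : Group.IsSolvable G := hs
  by_contra hCQ
  set C : Subgroup G := Subgroup.centralizer (Q : Set G) with hC
  have hCn : C.Normal := inferInstance
  have hCm : ∀ x, x ∈ C ↔ ∀ q ∈ Q, q * x = x * q := by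
    intro x
    rw [hC, Subgroup.mem_centralizer_iff]
    rfl
  obtain ⟨c, hc, hcQ⟩ := SetLike.not_le_iff_exists.1 hCQ
  let N : Subgroup (G ⧸ Q) := C.map (QuotientGroup.mk' Q)
  have hNn : N.Normal := Subgroup.Normal.map hCn _ (QuotientGroup.mk'_surjective Q)
  have hN0 : N ≠ ⊥ := by
    intro h0
    apply hcQ
    have h1 : (c : G ⧸ Q) ∈ N := ⟨c, hc, rfl⟩
    rw [h0, Subgroup.mem_bot] at h1
    exact (QuotientGroup.eq_one_iff c).1 h1
  obtain ⟨p, hp, E, hEn, hE0, hEN, hEc, hEp⟩ := exists_elementary_normal (H := G ⧸ Q) N hNn hN0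
  let R : Subgroup G := E.comap (QuotientGroup.mk' Q)
  have hR : ∀ x, x ∈ R ↔ (x : G ⧸ Q) ∈ E := fun x => Iff.rfl
  have hRn : R.Normal := Subgroup.Normal.comap hEn _
  have hQR : Q ≤ R := by
    intro x hx
    rw [hR, (QuotientGroup.eq_one_iff x).2 hx]
    exact E.one_mem
  have hpow : ∀ x ∈ R, x ^ p ∈ Q := by
    intro x hx
    rw [← QuotientGroup.eq_one_iff, QuotientGroup.mk_pow]
    exact hEp _ hx
  -- an element of `R ⊓ C` outside `Q`
  obtain ⟨y, hyE, hy1⟩ := (E.bot_or_exists_ne_one).resolve_left hE0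
  obtain ⟨c₀, hc₀, hc₀y⟩ := hEN hyE
  have hc₀R : c₀ ∈ R := by
    rw [hR]
    have h1 : (c₀ : G ⧸ Q) = y := hc₀y
    rw [h1]
    exact hyE
  have hc₀Q : c₀ ∉ Q := by
    intro h1
    apply hy1
    rw [← hc₀y]
    exact (QuotientGroup.eq_one_iff c₀).2 h1
  by_cases hp2 : p = 2
  · subst hp2
    have h2 : IsPGroup 2 R := by
      intro x
      obtain ⟨k, hk⟩ := hQ.two ⟨(x : G) ^ 2, hpow x x.2⟩
      refine ⟨k + 1, ?_⟩
      have h4 : ((x : G) ^ 2) ^ 2 ^ k = 1 := congrArg Subtype.val hk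
      rw [← pow_mul, ← pow_succ'] at h4
      exact Subtype.ext h4
    rw [hQ.max R hRn h2 hQR] at hc₀R
    exact hc₀Q hc₀R
  · -- `R ⊓ C` is commutative
    have hab : ∀ a, a ∈ R → a ∈ C → ∀ b, b ∈ R → b ∈ C → a * b = b * a := by
      intro a haR haC b hbR hbC
      have hcQ' : a * b * a⁻¹ * b⁻¹ ∈ Q := by
        rw [← QuotientGroup.eq_one_iff]
        have h5 : (a : G ⧸ Q) * (b : G ⧸ Q) = (b : G ⧸ Q) * (a : G ⧸ Q) := hEc _ haR _ hbR
        simp only [QuotientGroup.mk_mul, QuotientGroup.mk_inv]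
        rw [h5]
        group
      set d := a * b * a⁻¹ * b⁻¹ with hd
      have hda : d * a = a * d := (hCm a).1 haC d hcQ'
      have hdb : d * b = b * d := (hCm b).1 hbC d hcQ'
      have hab' : a * b = d * b * a := by rw [hd]; group
      have key : ∀ m : ℕ, a ^ m * b = d ^ m * b * a ^ m := by
        intro m
        induction m with
        | zero => simp
        | succ m ih =>
          have hcda : Commute (d ^ m) a := (show Commute d a from hda).pow_left m
          calc a ^ (m + 1) * b = a * (a ^ m * b) := by rw [pow_succ', mul_assoc]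
            _ = a * d ^ m * b * a ^ m := by rw [ih]; simp only [mul_assoc]
            _ = d ^ m * a * b * a ^ m := by rw [hcda.eq]
            _ = d ^ m * (a * b) * a ^ m := by simp only [mul_assoc]
            _ = d ^ m * (d * b * a) * a ^ m := by rw [hab']
            _ = d ^ (m + 1) * b * a ^ (m + 1) := by
              rw [pow_succ d, pow_succ' a]; simp only [mul_assoc]
      have hdp : d ^ p = 1 := by
        have h6 := key p
        have h7 : a ^ p * b = b * a ^ p := (hCm b).1 hbC _ (hpow a haR)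
        rw [h7] at h6
        have h8 : d ^ p * (b * a ^ p) = 1 * (b * a ^ p) := by
          rw [one_mul, ← mul_assoc]; exact h6.symm
        exact mul_right_cancel h8
      have hd1 : d = 1 := by
        obtain ⟨k, hk⟩ := hQ.two ⟨d, hcQ'⟩
        have h9 : d ^ 2 ^ k = 1 := congrArg Subtype.val hk
        have h10 : orderOf d ∣ p := orderOf_dvd_of_pow_eq_one hdp
        have h11 : orderOf d ∣ 2 ^ k := orderOf_dvd_of_pow_eq_one h9
        have h12 : Nat.Coprime p (2 ^ k) :=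
          Nat.Coprime.pow_right k ((Nat.coprime_primes hp Nat.prime_two).2 hp2)
        have h13 := Nat.dvd_gcd h10 h11
        rw [h12.gcd_eq_one, Nat.dvd_one, orderOf_eq_one_iff] at h13
        exact h13
      rw [hab', hd1, one_mul]
    let F : Subgroup G :=
      { carrier := {x | (x ∈ R ∧ x ∈ C) ∧ x ^ p = 1}
        one_mem' := ⟨⟨R.one_mem, C.one_mem⟩, one_pow p⟩
        mul_mem' := by
          rintro x y ⟨⟨hx, hx'⟩, hx1⟩ ⟨⟨hy, hy'⟩, hy1⟩
          refine ⟨⟨R.mul_mem hx hy, C.mul_mem hx' hy'⟩, ?_⟩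
          rw [(show Commute x y from hab x hx hx' y hy hy').mul_pow, hx1, hy1, one_mul]
        inv_mem' := by
          rintro x ⟨⟨hx, hx'⟩, hx1⟩
          exact ⟨⟨R.inv_mem hx, C.inv_mem hx'⟩, by rw [inv_pow, hx1, inv_one]⟩ }
    have hF : ∀ x, x ∈ F ↔ (x ∈ R ∧ x ∈ C) ∧ x ^ p = 1 := fun x => Iff.rfl
    have hFn : F.Normal := by
      refine ⟨fun x hx g => ?_⟩
      rw [hF] at hx ⊢
      exact ⟨⟨hRn.conj_mem x hx.1.1 g, hCn.conj_mem x hx.1.2 g⟩, by
        rw [conj_pow, hx.2, mul_one, mul_inv_cancel]⟩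
    have hF0 : F = ⊥ := hel p hp hp2 F hFn fun x hx => ((hF x).1 hx).2
    obtain ⟨hord, hnot⟩ := lift_order Q hQ.two p hp hp2 c₀ hc₀Q (hpow c₀ hc₀R)
    have hmem : c₀ ^ Nat.card Q ∈ F := by
      rw [hF]
      refine ⟨⟨R.pow_mem hc₀R _, C.pow_mem hc₀ _⟩, ?_⟩
      have h14 := pow_orderOf_eq_one (c₀ ^ Nat.card Q)
      rwa [hord] at h14
    rw [hF0, Subgroup.mem_bot] at hmem
    apply hnot
    rw [hmem]
    exact Q.one_mem

end SRC
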