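import Pool.Agent.SRC.A1
import Pool.Agent.SRC.A2

set_option autoImplicit false

namespace SRC

/-- an element of `R \ Q` has order divisible by `p`.
PROOF. `p ∤ |Q|`... : if `p ∤ orderOf w`, then `w ^ orderOf w = 1 ∈ Q` and `w ^ p ∈ Q`, so `w ∈ Q`
by `mem_of_pow_mem_coprime`. -/
theorem dvd_orderOf_of_notMem {G : Type*} [Group G] (Q : Subgroup G) (p : ℕ) (hp : p.Prime) (w : G)
    (hw : w ∉ Q) (hwp : w ^ p ∈ Q) : p ∣ orderOf w := by
  by_contra hcon
  apply hw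
  refine mem_of_pow_mem_coprime Q w (orderOf w) p ?_ ?_ hwp
  · exact ((Nat.Prime.coprime_iff_not_dvd hp).2 hcon).symm
  · rw [pow_orderOf_eq_one]
    exact Q.one_mem

/-- PROOF. Elements of `R` have `p`-power order modulo `Q`, so `(R : Q) = Q.relIndex R` is a power
of `p`: e.g. a prime `ℓ ≠ p` dividing `Q.relIndex R = Nat.card (R ⧸ Q.subgroupOf R)` gives
(Cauchy, `exists_prime_orderOf_dvd_card'`) an element of order `ℓ` in a quotient group all of whose
elements have `p`-th power `1`; contradiction.  (`Q.subgroupOf R` is normal.  `IsPGroup`,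
`IsPGroup.iff_card`.) -/
theorem relIndex_eq_pow {G : Type*} [Group G] [Finite G] (Q R : Subgroup G) (p : ℕ) (hp : p.Prime)
    (hQ : Q.Normal) (hR : Elem Q R p) : ∃ k : ℕ, 1 ≤ k ∧ Nat.card R = p ^ k * Nat.card Q := by
  have hfact : Fact p.Prime := ⟨hp⟩
  have hn : (Q.subgroupOf R).Normal := hQ.subgroupOf R
  have hpg : IsPGroup p (R ⧸ Q.subgroupOf R) := by
    intro g
    obtain ⟨r, rfl⟩ := QuotientGroup.mk_surjective g
    refine ⟨1, ?_⟩
    rw [pow_one, ← QuotientGroup.mk_pow, QuotientGroup.eq_one_iff, Subgroup.mem_subgroupOf]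
    exact hR.pow_mem r r.2
  obtain ⟨k, hk⟩ := IsPGroup.iff_card.1 hpg
  have hrel : Q.relIndex R = p ^ k := hk
  have hcard : Q.relIndex R * Nat.card Q = Nat.card R := by
    have h1 := Subgroup.card_mul_index (Q.subgroupOf R)
    have h2 : Nat.card (Q.subgroupOf R) = Nat.card Q :=
      Nat.card_congr (Subgroup.subgroupOfEquivOfLe hR.le).toEquiv
    rw [h2] at h1
    rw [mul_comm]
    exact h1
  refine ⟨k, ?_, ?_⟩
  · rcases Nat.eq_zero_or_pos k with h | h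
    · exfalso
      rw [h, pow_zero] at hrel
      exact hR.ne (Subgroup.relIndex_eq_one.1 hrel)
    · exact h
  · rw [← hcard, hrel]

/-- PROOF. Suppose `p ∣ P2`.  By `class_count` for `S = R \ Q` (conjugation invariant as `R`, `Q`
are normal) and `dvd_orderOf_of_notMem`, `dvd_index_centralizer`: `P1 ∣ |R| - |Q| =
(p^k - 1) |Q|` (`relIndex_eq_pow`), and `P1` is odd and `|Q|` a power of `2` (`IsPGroup.iff_card`),
so `P1 ∣ p^k - 1`.  `p^k` divides `|R|`, so it divides `|G| = 2^(i+j-1) P1 P2`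
(`Dat.card_eq`) and it is coprime to `2` and to `P1` (`p ∣ P2`, `Dat.coprime`), so
`p^k ∣ P2`, `p^k ≤ P2`.  `0 < p^k - 1 < P2 < P1`: contradiction (`Dat.lt`). -/
theorem not_dvd_P2 {G : Type*} [Group G] [Finite G] {s : ℤ} {N1 N2 i j P1 P2 : ℕ}
    (d : Dat (Nat.card G) s N1 N2 i j P1 P2) (hyp : Hyp G N1 N2 P1 P2) (Q R : Subgroup G)
    (hQ : Core Q) (p : ℕ) (hp : p.Prime) (hp2 : p ≠ 2) (hR : Elem Q R p) : ¬ p ∣ P2 := by
  intro hpP
  have hfact2 : Fact (Nat.Prime 2) := ⟨Nat.prime_two⟩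
  obtain ⟨k, hk1, hk⟩ := relIndex_eq_pow Q R p hp hQ.normal hR
  obtain ⟨a, ha⟩ := IsPGroup.iff_card.1 hQ.two
  have h1 : P1 ∣ Nat.card ((R : Set G) \ (Q : Set G) : Set G) := by
    refine class_count _ ?_ P1 ?_
    · rintro s ⟨hsR, hsQ⟩ g
      refine ⟨hR.normal.conj_mem s hsR g, fun h => hsQ ?_⟩
      have h2 := hQ.normal.conj_mem _ h g⁻¹
      have h3 : g⁻¹ * (g * s * g⁻¹) * g⁻¹⁻¹ = s := by group
      rwa [h3] at h2
    · rintro s ⟨hsR, hsQ⟩
      exact dvd_index_centralizer d hyp p hp hp2 hpP s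
        (dvd_orderOf_of_notMem Q p hp s hsQ (hR.pow_mem s hsR))
  have h2 : Nat.card ((R : Set G) \ (Q : Set G) : Set G) = (p ^ k - 1) * Nat.card Q := by
    have h3 : ((Q : Set G)) ⊆ (R : Set G) := hR.le
    have h4 : ((R : Set G) \ (Q : Set G)).ncard + (Q : Set G).ncard = (R : Set G).ncard :=
      Set.ncard_sdiff_add_ncard_of_subset h3 (Set.toFinite _)
    have h5 : (R : Set G).ncard = Nat.card R := rfl
    have h6 : (Q : Set G).ncard = Nat.card Q := rfl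
    rw [h5, h6, hk] at h4
    show ((R : Set G) \ (Q : Set G)).ncard = _
    rw [Nat.sub_mul, one_mul]
    omega
  rw [h2, ha] at h1
  have hodd : Nat.Coprime P1 (2 ^ a) := (Nat.Coprime.pow_left a
    ((Nat.coprime_two_left).2 d.odd1)).symm
  have h3 : P1 ∣ p ^ k - 1 := hodd.dvd_of_dvd_mul_right h1
  have hP2pos : 0 < P2 := d.odd2.pos
  have hpk : p ^ k ∣ P2 := by
    have h4 : p ^ k ∣ Nat.card G := (Dvd.intro _ hk.symm).trans (Subgroup.card_subgroup_dvd_card R)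
    rw [d.card_eq] at h4
    have hc2 : Nat.Coprime (p ^ k) (2 ^ (i + j - 1)) :=
      Nat.Coprime.pow _ _ ((Nat.coprime_primes hp Nat.prime_two).2 hp2)
    have hcP : Nat.Coprime (p ^ k) P1 := by
      refine Nat.Coprime.pow_left k ?_
      exact Nat.Coprime.coprime_dvd_left hpP d.coprime.symm
    exact hcP.dvd_of_dvd_mul_left (hc2.dvd_of_dvd_mul_left h4)
  have h5 : p ^ k ≤ P2 := Nat.le_of_dvd hP2pos hpk
  have h6 : 2 ≤ p ^ k := hp.two_le.trans (Nat.le_self_pow (by omega) p)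
  have h7 : P1 ≤ p ^ k - 1 := Nat.le_of_dvd (by omega) h3
  have h8 := d.lt
  omega

/-- PROOF. `R` has an element of order `p` (`lift_order`), so `p ∣ |G|`; `Dat.dvd_or`,
`not_dvd_P2`. -/
theorem dvd_P1 {G : Type*} [Group G] [Finite G] {s : ℤ} {N1 N2 i j P1 P2 : ℕ}
    (d : Dat (Nat.card G) s N1 N2 i j P1 P2) (hyp : Hyp G N1 N2 P1 P2) (Q R : Subgroup G)
    (hQ : Core Q) (p : ℕ) (hp : p.Prime) (hp2 : p ≠ 2) (hR : Elem Q R p) : p ∣ P1 := by
  obtain ⟨x₀, hx₀R, hx₀Q⟩ := SetLike.not_le_iff_exists.1 hR.ne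
  obtain ⟨hx, -⟩ := lift_order Q hQ.two p hp hp2 x₀ hx₀Q (hR.pow_mem x₀ hx₀R)
  have h1 : p ∣ Nat.card G := by
    rw [← hx]
    exact orderOf_dvd_natCard _
  rcases d.dvd_or hp hp2 h1 with h2 | h2
  · exact h2
  · exact absurd h2 (not_dvd_P2 d hyp Q R hQ p hp hp2 hR)

end SRC
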