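import Pool.Agent.SRC.Defs

set_option autoImplicit false

namespace SRC

theorem prod_perm {V : Type*} [CommGroup V] (p : ℕ) (hp : p.Prime) (F : ℕ → V)
    (hF : ∀ b : ℕ, F (b + p) = F b) (i : ℕ) (hi : 0 < i) (hip : i < p) :
    ∏ j ∈ Finset.range p, F (i * j) = ∏ j ∈ Finset.range p, F j := by
  have hper : Function.Periodic F p := hF
  have hcop : Nat.gcd p i = 1 := (Nat.coprime_of_lt_prime hi.ne' hip hp)
  have hinj : Set.InjOn (fun j => (i * j) % p) (Finset.range p : Set ℕ) := by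
    intro a ha b hb hab
    have ha' : a < p := Finset.mem_range.1 ha
    have hb' : b < p := Finset.mem_range.1 hb
    have h1 : i * a ≡ i * b [MOD p] := hab
    have h2 := Nat.ModEq.cancel_left_of_coprime hcop h1
    rwa [Nat.ModEq, Nat.mod_eq_of_lt ha', Nat.mod_eq_of_lt hb'] at h2
  have himg : (Finset.range p).image (fun j => (i * j) % p) = Finset.range p := by
    refine Finset.eq_of_subset_of_card_le ?_ ?_
    · intro a ha
      obtain ⟨b, -, rfl⟩ := Finset.mem_image.1 ha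
      exact Finset.mem_range.2 (Nat.mod_lt _ hp.pos)
    · rw [Finset.card_image_of_injOn hinj]
  calc ∏ j ∈ Finset.range p, F (i * j) = ∏ j ∈ Finset.range p, F ((i * j) % p) :=
        Finset.prod_congr rfl (fun j _ => (hper.map_mod_nat (i * j)).symm)
    _ = ∏ j ∈ (Finset.range p).image (fun j => (i * j) % p), F j :=
        (Finset.prod_image (f := F) hinj).symm
    _ = ∏ j ∈ Finset.range p, F j := by rw [himg]

theorem norm_fixed {V : Type*} [CommGroup V] (p : ℕ) (γ : MulAut V) (hγ : γ ^ p = 1) (u : V) :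
    γ (∏ i ∈ Finset.range p, (γ ^ i) u) = ∏ i ∈ Finset.range p, (γ ^ i) u := by
  have h1 : γ (∏ i ∈ Finset.range p, (γ ^ i) u) = ∏ i ∈ Finset.range p, (γ ^ (i + 1)) u := by
    rw [map_prod]
    refine Finset.prod_congr rfl (fun i _ => ?_)
    rw [pow_succ']
    rfl
  have h2 := Finset.prod_range_succ (fun i => (γ ^ i) u) p
  rw [Finset.prod_range_succ', hγ, pow_zero] at h2
  rw [h1]
  exact mul_right_cancel h2

/-- pure reindexing identity: `f` is a function on pairs, `p`-periodic in the second variable.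
PROOF. For `i = 0` the inner product on the left is `∏_j f 0 0 = (f 0 0)^p`.
For `0 < i < p` the map `j ↦ (i * j) % p` is a permutation of `range p` (`p` prime), so
`∏_{j<p} f i (i*j) = ∏_{j<p} f i ((i*j) % p) = ∏_{j<p} f i j` (`Finset.prod_bij` or
`Finset.prod_nbij'`; or transport to `ZMod p` where multiplication by `i ≠ 0` is a bijection).
Swap the products (`Finset.prod_comm`), split off `i = 0` on both sides
(`Finset.prod_range_succ'` for `p = (p-1)+1`). -/
theorem prod_lines {V : Type*} [CommGroup V] (p : ℕ) (hp : p.Prime) (f : ℕ → ℕ → V)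
    (hf : ∀ a b : ℕ, f a (b + p) = f a b) :
    (∏ j ∈ Finset.range p, ∏ i ∈ Finset.range p, f i (i * j)) * ∏ j ∈ Finset.range p, f 0 j =
      (∏ i ∈ Finset.range p, ∏ j ∈ Finset.range p, f i j) * f 0 0 ^ p := by
  obtain ⟨q, hq⟩ : ∃ q, p = q + 1 := ⟨p - 1, by have := hp.pos; omega⟩
  rw [Finset.prod_comm]
  have h1 : ∏ i ∈ Finset.range p, ∏ j ∈ Finset.range p, f i (i * j) =
      (∏ i ∈ Finset.range q, ∏ j ∈ Finset.range p, f (i + 1) j) * f 0 0 ^ p := by
    have h2 : Finset.range p = Finset.range (q + 1) := by rw [hq]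
    have h3 : ∀ g : ℕ → V, ∏ i ∈ Finset.range p, g i = (∏ i ∈ Finset.range q, g (i + 1)) * g 0 := by
      intro g
      rw [h2, Finset.prod_range_succ']
    rw [h3]
    congr 1
    · refine Finset.prod_congr rfl (fun i hi => ?_)
      have hi' := Finset.mem_range.1 hi
      exact prod_perm p hp (f (i + 1)) (hf (i + 1)) (i + 1) (Nat.succ_pos i) (by omega)
    · simp
  have h4 : ∏ i ∈ Finset.range p, ∏ j ∈ Finset.range p, f i j =
      (∏ i ∈ Finset.range q, ∏ j ∈ Finset.range p, f (i + 1) j) * ∏ j ∈ Finset.range p, f 0 j := by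
    have h2 : Finset.range p = Finset.range (q + 1) := by rw [hq]
    have h3 : ∀ g : ℕ → V, ∏ i ∈ Finset.range p, g i = (∏ i ∈ Finset.range q, g (i + 1)) * g 0 := by
      intro g
      rw [h2, Finset.prod_range_succ']
    exact h3 (fun i => ∏ j ∈ Finset.range p, f i j)
  rw [h1, h4, mul_assoc, mul_assoc, mul_comm (f 0 0 ^ p)]

/-- Two commuting automorphisms `α, β` of exponent `p` of a finite commutative group `V` of order
prime to `p`, such that every fixed vector of some `α^i β^j` (`i`, `j` not both `0` modulo `p`) is fixed by `α` and `β`.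
Then `α = β = 1`.
PROOF. Fix `u`; `f i j = (α^i * β^j) u`.  For `j < p`: `S_j = ∏_{i<p} f i (i*j)
= ∏_{i<p} (α * β^j)^i u` is fixed by `α * β^j = α^1 * β^j` (shift of the product, `(αβ^j)^p = 1`;
`1 % p ≠ 0`), hence by `α` and `β`.  `S = ∏_{j<p} f 0 j = ∏ β^j u` is fixed by `β = α^0 β^1`, hence
by both.  `T = ∏_{i,j<p} f i j` is fixed by `α` (shift `i`) hence by both
(`α = α^1 β^0`).  `prod_lines`: `(∏_j S_j) * S = T * u^p`, so `u^p` is fixed by `α` and `β`, i.e.
`(α u / u)^p = 1`; as `p ∤ |V|`, `α u = u` (`v^p = 1` and `v^|V| = 1` imply `v = 1`). Same for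
`β`. -/
theorem aut_trivial {V : Type*} [CommGroup V] [Finite V] (p : ℕ) (hp : p.Prime)
    (hpV : ¬ p ∣ Nat.card V) (α β : MulAut V) (hα : α ^ p = 1) (hβ : β ^ p = 1)
    (hc : α * β = β * α)
    (h : ∀ i j : ℕ, (i % p ≠ 0 ∨ j % p ≠ 0) → ∀ u : V, (α ^ i * β ^ j) u = u →
      α u = u ∧ β u = u) (u : V) : α u = u ∧ β u = u := by
  have h1p : 1 % p ≠ 0 := by
    rw [Nat.mod_eq_of_lt hp.one_lt]
    exact one_ne_zero
  have hcc : Commute α β := hc
  let f : ℕ → ℕ → V := fun i j => (α ^ i * β ^ j) u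
  have hf : ∀ a b : ℕ, f a (b + p) = f a b := by
    intro a b
    show (α ^ a * β ^ (b + p)) u = (α ^ a * β ^ b) u
    rw [pow_add, hβ, mul_one]
  have hkey := prod_lines p hp f hf
  have hS : ∀ j, α (∏ i ∈ Finset.range p, f i (i * j)) = ∏ i ∈ Finset.range p, f i (i * j) ∧
      β (∏ i ∈ Finset.range p, f i (i * j)) = ∏ i ∈ Finset.range p, f i (i * j) := by
    intro j
    have e1 : ∀ i, f i (i * j) = ((α * β ^ j) ^ i) u := by
      intro i
      show (α ^ i * β ^ (i * j)) u = ((α * β ^ j) ^ i) u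
      rw [(hcc.pow_right j).mul_pow, ← pow_mul, mul_comm j i]
    have e2 : (α * β ^ j) ^ p = 1 := by
      rw [(hcc.pow_right j).mul_pow, hα, ← pow_mul, mul_comm j p, pow_mul, hβ, one_pow, one_mul]
    simp only [e1]
    refine h 1 j (Or.inl h1p) _ ?_
    rw [pow_one]
    exact norm_fixed p _ e2 u
  have hS0 : α (∏ j ∈ Finset.range p, f 0 j) = ∏ j ∈ Finset.range p, f 0 j ∧
      β (∏ j ∈ Finset.range p, f 0 j) = ∏ j ∈ Finset.range p, f 0 j := by
    have e1 : ∀ j, f 0 j = (β ^ j) u := by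
      intro j
      show (α ^ 0 * β ^ j) u = (β ^ j) u
      rw [pow_zero, one_mul]
    simp only [e1]
    refine h 0 1 (Or.inr h1p) _ ?_
    rw [pow_zero, one_mul, pow_one]
    exact norm_fixed p _ hβ u
  have hT : α (∏ i ∈ Finset.range p, ∏ j ∈ Finset.range p, f i j) =
        ∏ i ∈ Finset.range p, ∏ j ∈ Finset.range p, f i j ∧
      β (∏ i ∈ Finset.range p, ∏ j ∈ Finset.range p, f i j) =
        ∏ i ∈ Finset.range p, ∏ j ∈ Finset.range p, f i j := by
    have e1 : ∀ i, ∏ j ∈ Finset.range p, f i j = (α ^ i) (∏ j ∈ Finset.range p, (β ^ j) u) := by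
      intro i
      rw [map_prod]
      rfl
    simp only [e1]
    refine h 1 0 (Or.inl h1p) _ ?_
    rw [pow_zero, mul_one, pow_one]
    exact norm_fixed p _ hα _
  have hf0 : f 0 0 = u := by
    show (α ^ 0 * β ^ 0) u = u
    rw [pow_zero, pow_zero, one_mul]
    rfl
  rw [hf0] at hkey
  have hup : u ^ p = (∏ i ∈ Finset.range p, ∏ j ∈ Finset.range p, f i j)⁻¹ *
      ((∏ j ∈ Finset.range p, ∏ i ∈ Finset.range p, f i (i * j)) *
        ∏ j ∈ Finset.range p, f 0 j) := by
    rw [hkey, inv_mul_cancel_left]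
  have hfin : ∀ γ : MulAut V, (∀ j, γ (∏ i ∈ Finset.range p, f i (i * j)) =
      ∏ i ∈ Finset.range p, f i (i * j)) → γ (∏ j ∈ Finset.range p, f 0 j) =
      ∏ j ∈ Finset.range p, f 0 j → γ (∏ i ∈ Finset.range p, ∏ j ∈ Finset.range p, f i j) =
      ∏ i ∈ Finset.range p, ∏ j ∈ Finset.range p, f i j → γ u = u := by
    intro γ g1 g2 g3
    have g4 : γ (u ^ p) = u ^ p := by
      rw [hup, map_mul, map_inv, map_mul, g2, g3, map_prod]
      congr 2
      exact Finset.prod_congr rfl (fun j _ => by rw [g1 j])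
    have g5 : (γ u * u⁻¹) ^ p = 1 := by
      rw [mul_pow, inv_pow, ← map_pow, g4, mul_inv_cancel]
    have g6 : γ u * u⁻¹ = 1 := by
      have hcop : Nat.Coprime p (Nat.card V) := (Nat.Prime.coprime_iff_not_dvd hp).2 hpV
      have g7 : orderOf (γ u * u⁻¹) ∣ p := orderOf_dvd_of_pow_eq_one g5
      have g8 : orderOf (γ u * u⁻¹) ∣ Nat.card V := orderOf_dvd_natCard _
      have g9 : orderOf (γ u * u⁻¹) ∣ 1 := by
        have := Nat.dvd_gcd g7 g8
        rwa [hcop.gcd_eq_one] at this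
      exact orderOf_eq_one_iff.1 (Nat.dvd_one.1 g9)
    exact mul_inv_eq_one.1 g6
  exact ⟨hfin α (fun j => (hS j).1) hS0.1 hT.1, hfin β (fun j => (hS j).2) hS0.2 hT.2⟩

end SRC
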