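import Pool.Agent.SRC.A2
import Pool.Agent.SRC.B1

set_option autoImplicit false

namespace SRC

theorem mem_cen_iff {G : Type*} [Group G] {t h : G} :
    h ∈ Subgroup.centralizer ({t} : Set G) ↔ t * h = h * t := by
  rw [Subgroup.mem_centralizer_singleton_iff]
  exact eq_comm

/-- `z = x^i y^j` has order `p` unless `i ≡ j ≡ 0`.
PROOF. `z^p = 1`.  If `z = 1`, then `y^j = (x^i)⁻¹ ∈ zpowers x`; if `j % p ≠ 0` then `y ∈ zpowers x`
(`mem_of_pow_mem_coprime` with `y^j, y^p ∈ zpowers x`), contradiction; so `j % p = 0`, `y^j = 1`,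
`x^i = 1`, `i % p = 0`. -/
theorem orderOf_mul_pow {G : Type*} [Group G] (p : ℕ) (hp : p.Prime) (x y : G)
    (hx : orderOf x = p) (hy : orderOf y = p) (hxy : x * y = y * x)
    (hne : y ∉ Subgroup.zpowers x) (i j : ℕ) (hij : i % p ≠ 0 ∨ j % p ≠ 0) :
    orderOf (x ^ i * y ^ j) = p := by
  have hc : Commute x y := hxy
  have hxp : x ^ p = 1 := by rw [← hx, pow_orderOf_eq_one]
  have hyp : y ^ p = 1 := by rw [← hy, pow_orderOf_eq_one]
  have hzp : (x ^ i * y ^ j) ^ p = 1 := by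
    rw [((hc.pow_left i).pow_right j).mul_pow, ← pow_mul, ← pow_mul, mul_comm i, mul_comm j, pow_mul,
      pow_mul, hxp, hyp, one_pow, one_pow, one_mul]
  rcases (Nat.dvd_prime hp).1 (orderOf_dvd_of_pow_eq_one hzp) with h1 | h1
  · exfalso
    have hz : x ^ i * y ^ j = 1 := orderOf_eq_one_iff.1 h1
    have hyj : y ^ j ∈ Subgroup.zpowers x := by
      rw [eq_inv_of_mul_eq_one_right hz]
      exact Subgroup.inv_mem _ (Subgroup.pow_mem _ (Subgroup.mem_zpowers x) i)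
    by_cases hj : j % p = 0
    · have hj' : y ^ j = 1 := orderOf_dvd_iff_pow_eq_one.1 (by rw [hy]; exact Nat.dvd_of_mod_eq_zero hj)
      rw [hj', mul_one] at hz
      have hi : i % p = 0 := Nat.mod_eq_zero_of_dvd (by rw [← hx]; exact orderOf_dvd_of_pow_eq_one hz)
      rcases hij with h | h
      · exact h hi
      · exact h hj
    · apply hne
      refine mem_of_pow_mem_coprime _ y j p ?_ hyj ?_
      · refine ((Nat.Prime.coprime_iff_not_dvd hp).2 ?_).symm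
        exact fun h => hj (Nat.mod_eq_zero_of_dvd h)
      · rw [hyp]
        exact Subgroup.one_mem _
  · exact h1

/-- PROOF. Let `z = x^i y^j` (order `p`, `orderOf_mul_pow`), `Cz = Q ⊓ centralizer {z}`,
`F = (Q ⊓ centralizer {x}) ⊓ centralizer {y}`.  `F ≤ Cz`.  By `card_inf_centralizer_modEq`:
`|Cz| ≡ |Q|`, `|Q ⊓ centralizer {x}| ≡ |Q|`, and
`|F| ≡ |Q ⊓ centralizer {x}|` (`y` normalises `Q ⊓ centralizer {x}` as it commutes with `x`)
modulo `p`.  `|Cz| ∣ 4` (`hfix`) and `|F| ∣ |Cz|`; two divisors of `4` that are congruent modulo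
`p ≥ 5` are equal.  So `F = Cz` (`Subgroup.eq_of_le_of_card_ge`). -/
theorem fix_eq {G : Type*} [Group G] [Finite G] (Q : Subgroup G) (hQn : Q.Normal) (p : ℕ)
    (hp : p.Prime) (hp5 : 5 ≤ p)
    (hfix : ∀ z : G, orderOf z = p → Nat.card ↥(Q ⊓ Subgroup.centralizer ({z} : Set G)) ∣ 4)
    (x y : G) (hx : orderOf x = p) (hy : orderOf y = p) (hxy : x * y = y * x)
    (hne : y ∉ Subgroup.zpowers x) (i j : ℕ) (hij : i % p ≠ 0 ∨ j % p ≠ 0) (q : G) (hq : q ∈ Q)
    (hqz : (x ^ i * y ^ j) * q = q * (x ^ i * y ^ j)) : x * q = q * x ∧ y * q = q * y := by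
  have hxp : x ^ p = 1 := by rw [← hx, pow_orderOf_eq_one]
  have hyp : y ^ p = 1 := by rw [← hy, pow_orderOf_eq_one]
  have hz := orderOf_mul_pow p hp x y hx hy hxy hne i j hij
  set z := x ^ i * y ^ j with hzdef
  have hzp : z ^ p = 1 := by rw [← hz, pow_orderOf_eq_one]
  have hconj : ∀ t : G, ∀ h ∈ Q, t * h * t⁻¹ ∈ Q := fun t h hh => hQn.conj_mem h hh t
  have e1 := card_inf_centralizer_modEq Q z p hp hzp (hconj z)
  have e2 := card_inf_centralizer_modEq Q x p hp hxp (hconj x)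
  have e3 := card_inf_centralizer_modEq (Q ⊓ Subgroup.centralizer ({x} : Set G)) y p hp hyp (by
    intro h hh
    refine ⟨hconj y h hh.1, ?_⟩
    have h1 : x * h = h * x := mem_cen_iff.1 hh.2
    refine mem_cen_iff.2 ?_
    have c1 : Commute x h := h1
    have c2 : Commute x y := hxy
    exact ((c2.mul_right c1).mul_right c2.inv_right).eq)
  have hle : Q ⊓ Subgroup.centralizer ({x} : Set G) ⊓ Subgroup.centralizer ({y} : Set G) ≤
      Q ⊓ Subgroup.centralizer ({z} : Set G) := by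
    intro h hh
    refine ⟨hh.1.1, mem_cen_iff.2 ?_⟩
    have c1 : Commute x h := mem_cen_iff.1 hh.1.2
    have c2 : Commute y h := mem_cen_iff.1 hh.2
    exact ((c1.pow_left i).mul_left (c2.pow_left j)).eq
  have h4 := hfix z hz
  have h5 := Subgroup.card_dvd_of_le hle
  have h6 := h5.trans h4
  have hmod := (e3.trans e2).trans e1.symm
  have hcard : Nat.card ↥(Q ⊓ Subgroup.centralizer ({z} : Set G)) =
      Nat.card ↥(Q ⊓ Subgroup.centralizer ({x} : Set G) ⊓ Subgroup.centralizer ({y} : Set G)) := by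
    have a1 : Nat.card ↥(Q ⊓ Subgroup.centralizer ({z} : Set G)) ≤ 4 := Nat.le_of_dvd (by norm_num) h4
    have a2 : Nat.card ↥(Q ⊓ Subgroup.centralizer ({x} : Set G) ⊓
        Subgroup.centralizer ({y} : Set G)) ≤ 4 := Nat.le_of_dvd (by norm_num) h6
    have a3 := hmod
    rw [Nat.ModEq, Nat.mod_eq_of_lt (by omega), Nat.mod_eq_of_lt (by omega)] at a3
    exact a3.symm
  have heq := Subgroup.eq_of_le_of_card_ge hle hcard.le
  have hq' : q ∈ Q ⊓ Subgroup.centralizer ({z} : Set G) :=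
    ⟨hq, mem_cen_iff.2 hqz⟩
  rw [← heq] at hq'
  exact ⟨mem_cen_iff.1 hq'.1.2,
    mem_cen_iff.1 hq'.2⟩

/-- Minimal bad subgroup.
PROOF. Let `𝒮` be the set of subgroups `W ≤ Q` with `x W x⁻¹ ≤ W`, `y W y⁻¹ ≤ W` that contain an
element not commuting with `x` or not commuting with `y`.  If the claim fails then `Q ∈ 𝒮`; take
`W ∈ 𝒮` minimal.  Then `⁅W, W⁆ < W`
(`W` is a nontrivial `2`-group: nilpotent, so solvable) is invariant under `x` and `y`, so by
minimality it is not in `𝒮`: all its elements commute with `x` and `y`. -/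
theorem exists_minimal_bad {G : Type*} [Group G] [Finite G] (Q : Subgroup G) (hQn : Q.Normal)
    (hQ : IsPGroup 2 Q) (x y : G) (hbad : ¬ ∀ q ∈ Q, x * q = q * x ∧ y * q = q * y) :
    ∃ W : Subgroup G, W ≤ Q ∧ (∀ w ∈ W, x * w * x⁻¹ ∈ W) ∧ (∀ w ∈ W, y * w * y⁻¹ ∈ W) ∧
      (¬ ∀ w ∈ W, x * w = w * x ∧ y * w = w * y) ∧
      (∀ w ∈ ⁅W, W⁆, x * w = w * x ∧ y * w = w * y) := by
  obtain ⟨W, hW⟩ := exists_minimal_of_wellFoundedLT (fun W : Subgroup G => W ≤ Q ∧
    (∀ w ∈ W, x * w * x⁻¹ ∈ W) ∧ (∀ w ∈ W, y * w * y⁻¹ ∈ W) ∧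
    ¬ ∀ w ∈ W, x * w = w * x ∧ y * w = w * y)
    ⟨Q, le_refl _, fun w hw => hQn.conj_mem w hw x, fun w hw => hQn.conj_mem w hw y, hbad⟩
  obtain ⟨⟨h1, h2, h3, h4⟩, hmin⟩ := hW
  refine ⟨W, h1, h2, h3, h4, ?_⟩
  by_contra hcon
  have hCW : ⁅W, W⁆ ≤ W := Subgroup.commutator_le_self W
  have hconj : ∀ t : G, (∀ w ∈ W, t * w * t⁻¹ ∈ W) → ∀ w ∈ ⁅W, W⁆, t * w * t⁻¹ ∈ ⁅W, W⁆ := by
    intro t ht w hw
    have e1 : W.map (MulAut.conj t).toMonoidHom ≤ W := by
      rintro _ ⟨v, hv, rfl⟩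
      exact ht v hv
    have e2 : (⁅W, W⁆ : Subgroup G).map (MulAut.conj t).toMonoidHom ≤ ⁅W, W⁆ := by
      rw [Subgroup.map_commutator]
      exact Subgroup.commutator_mono e1 e1
    exact e2 ⟨w, hw, rfl⟩
  have hle : W ≤ ⁅W, W⁆ := hmin ⟨hCW.trans h1, hconj x h2, hconj y h3, hcon⟩ hCW
  have hW2 : IsPGroup 2 W := hQ.to_le h1
  have hfact : Fact (Nat.Prime 2) := ⟨Nat.prime_two⟩
  have hnil := hW2.isNilpotent
  have hW0 : W ≠ ⊥ := by
    rintro rfl
    apply h4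
    intro w hw
    rw [Subgroup.mem_bot.1 hw]
    simp
  have hnt : Nontrivial W := (Subgroup.nontrivial_iff_ne_bot W).2 hW0
  have hlt := Group.IsSolvable.commutator_lt_top_of_nontrivial W
  have hlt2 : (⁅W, W⁆ : Subgroup G) < W := by
    rw [← Subgroup.map_subtype_commutator W]
    have e3 : (commutator W).map W.subtype < (⊤ : Subgroup W).map W.subtype :=
      Subgroup.map_subtype_lt_map_subtype.2 hlt
    have e4 : (⊤ : Subgroup W).map W.subtype = W := by
      rw [← MonoidHom.range_eq_map, Subgroup.range_subtype]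
    rwa [e4] at e3
  exact absurd hle (not_le_of_gt hlt2)

end SRC
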