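import Pool.Agent.SRC.B2

set_option autoImplicit false

namespace SRC

theorem of_eq_mem {G : Type*} [Group G] (W : Subgroup G) (a b : W)
    (h : Abelianization.of a = Abelianization.of b) : (a : G)⁻¹ * (b : G) ∈ ⁅W, W⁆ := by
  have h1 : a⁻¹ * b ∈ commutator W := by
    rw [← Abelianization.ker_of, MonoidHom.mem_ker, map_mul, map_inv, h, inv_mul_cancel]
  rw [← Subgroup.map_subtype_commutator W]
  exact ⟨a⁻¹ * b, h1, rfl⟩

theorem ab_pow_apply {G : Type*} [Group G] {W : Subgroup G} (e : MulAut W) (k : ℕ) (w : W) :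
    (((MulEquiv.abelianizationCongr e : MulAut (Abelianization W)) ^ k) (Abelianization.of w)) =
      Abelianization.of ((e ^ k) w) := by
  induction k with
  | zero => rfl
  | succ k ih =>
    rw [pow_succ', MulAut.mul_apply, ih, pow_succ']
    rfl

/-- PROOF. Suppose not; take `W` from `exists_minimal_bad`, `V = Abelianization W` (finite, its
order divides `|W|`, a power of `2`, so `p ∤ |V|`), `α` = automorphism of `V` induced by
`conjOn W x`, `β` by `conjOn W y` (`MulEquiv.abelianizationCongr`, `inv_conj_mem`);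
`α (of w) = of (x w x⁻¹)`.
They commute and `α^p = β^p = 1`, `(α^i β^j) (of w) = of (z w z⁻¹)`, `z = x^i y^j`.
Hypothesis of `aut_trivial`: if `(α^i β^j) (of w) = of w`, then `w⁻¹ (z w z⁻¹) ∈ ⁅W, W⁆`
(kernel of `Abelianization.of` is `commutator W`; `Subgroup.map_subtype_commutator`), `z` has order
`p` (`orderOf_mul_pow`) and normalises `⁅W, W⁆`, whose order is prime to `p`, so `coset_fixed` gives
`c ∈ ⁅W, W⁆` such that `w c` commutes with `z`; by `fix_eq` it commutes with `x` and `y`, so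
`x w x⁻¹ = (w c) (x c x⁻¹)⁻¹ = w c c⁻¹ = w`: (`x c = c x`), so `α (of w) = of w`, same for `β`.
Conclusion: for all `w ∈ W`: `x w x⁻¹ = w c` with `c ∈ ⁅W, W⁆` commuting with `x`; so
`w = x^p w x^(-p) = w c^p`, `c^p = 1`, `c` in the `2`-group `Q`, so `c = 1`
(`not_dvd_card_two_group` / coprimality): `x` commutes with `w`; same for `y`.  This contradicts
the choice of `W`. -/
theorem commute_all {G : Type*} [Group G] [Finite G] (Q : Subgroup G) (hQn : Q.Normal)
    (hQ : IsPGroup 2 Q) (p : ℕ) (hp : p.Prime) (hp5 : 5 ≤ p)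
    (hfix : ∀ z : G, orderOf z = p → Nat.card ↥(Q ⊓ Subgroup.centralizer ({z} : Set G)) ∣ 4)
    (x y : G) (hx : orderOf x = p) (hy : orderOf y = p) (hxy : x * y = y * x)
    (hne : y ∉ Subgroup.zpowers x) : ∀ q ∈ Q, x * q = q * x ∧ y * q = q * y := by
  by_contra hbad
  obtain ⟨W, hWQ, hWx, hWy, hbadW, hcomm⟩ := exists_minimal_bad Q hQn hQ x y hbad
  have hp2 : p ≠ 2 := by omega
  have hxp : x ^ p = 1 := by rw [← hx, pow_orderOf_eq_one]
  have hyp : y ^ p = 1 := by rw [← hy, pow_orderOf_eq_one]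
  have hWx' := inv_conj_mem W x hWx p hp.pos hxp
  have hWy' := inv_conj_mem W y hWy p hp.pos hyp
  have hW2 : IsPGroup 2 W := hQ.to_le hWQ
  have hCW : ⁅W, W⁆ ≤ W := Subgroup.commutator_le_self W
  have hC2 : IsPGroup 2 (⁅W, W⁆ : Subgroup G) := hW2.to_le hCW
  have hpW := not_dvd_card_two_group W hW2 p hp hp2
  have hpC := not_dvd_card_two_group _ hC2 p hp hp2
  have hsurj : Function.Surjective (Abelianization.of : W →* Abelianization W) :=
    QuotientGroup.mk_surjective
  have hpV : ¬ p ∣ Nat.card (Abelianization W) := by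
    intro h1
    exact hpW (h1.trans (Subgroup.card_dvd_of_surjective Abelianization.of hsurj))
  have hfinV : Finite (Abelianization W) := Finite.of_surjective _ hsurj
  have hcommx : ∀ c ∈ ⁅W, W⁆, x * c = c * x := fun c hc => (hcomm c hc).1
  have hcommy : ∀ c ∈ ⁅W, W⁆, y * c = c * y := fun c hc => (hcomm c hc).2
  let ex : MulAut W := conjOn W x hWx hWx'
  let ey : MulAut W := conjOn W y hWy hWy'
  let α : MulAut (Abelianization W) := MulEquiv.abelianizationCongr ex
  let β : MulAut (Abelianization W) := MulEquiv.abelianizationCongr ey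
  have hαof : ∀ w : W, α (Abelianization.of w) = Abelianization.of (ex w) := fun _ => rfl
  have hβof : ∀ w : W, β (Abelianization.of w) = Abelianization.of (ey w) := fun _ => rfl
  have hα : α ^ p = 1 := by
    ext u
    obtain ⟨w, rfl⟩ := hsurj u
    rw [ab_pow_apply, conjOn_pow_eq_one W x hWx hWx' p hxp]
    rfl
  have hβ : β ^ p = 1 := by
    ext u
    obtain ⟨w, rfl⟩ := hsurj u
    rw [ab_pow_apply, conjOn_pow_eq_one W y hWy hWy' p hyp]
    rfl
  have hexy : ∀ w : W, ex (ey w) = ey (ex w) := by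
    intro w
    apply Subtype.ext
    show x * (y * (w : G) * y⁻¹) * x⁻¹ = y * (x * (w : G) * x⁻¹) * y⁻¹
    calc x * (y * (w : G) * y⁻¹) * x⁻¹ = (x * y) * w * (x * y)⁻¹ := by group
      _ = (y * x) * w * (y * x)⁻¹ := by rw [hxy]
      _ = y * (x * (w : G) * x⁻¹) * y⁻¹ := by group
  have hαβ : α * β = β * α := by
    ext u
    obtain ⟨w, rfl⟩ := hsurj u
    show α (β (Abelianization.of w)) = β (α (Abelianization.of w))
    rw [hβof, hαof, hαof, hβof, hexy]
  -- if `w` commutes with `z` modulo `⁅W, W⁆` then it commutes with `x` and `y`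
  have hmain : ∀ i j : ℕ, (i % p ≠ 0 ∨ j % p ≠ 0) → ∀ u : Abelianization W,
      (α ^ i * β ^ j) u = u → α u = u ∧ β u = u := by
    intro i j hij u hu
    obtain ⟨w, rfl⟩ := hsurj u
    have hz := orderOf_mul_pow p hp x y hx hy hxy hne i j hij
    set z := x ^ i * y ^ j with hzdef
    have hzp : z ^ p = 1 := by rw [← hz, pow_orderOf_eq_one]
    have hzc : ∀ c ∈ ⁅W, W⁆, z * c * z⁻¹ = c := by
      intro c hc
      have h1 : Commute x c := hcommx c hc
      have h2 : Commute y c := hcommy c hc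
      have h3 : Commute z c := (h1.pow_left i).mul_left (h2.pow_left j)
      rw [h3.eq, mul_inv_cancel_right]
    have hu' : Abelianization.of ((ex ^ i) ((ey ^ j) w)) = Abelianization.of w := by
      rw [← ab_pow_apply, ← ab_pow_apply]
      exact hu
    have hval : (((ex ^ i) ((ey ^ j) w) : W) : G) = z * w * z⁻¹ := by
      show (((conjOn W x hWx hWx') ^ i) (((conjOn W y hWy hWy') ^ j) w) : G) = z * w * z⁻¹
      rw [conjOn_pow_apply, conjOn_pow_apply, hzdef]
      group
    have hc := of_eq_mem W w _ hu'.symm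
    rw [hval] at hc
    obtain ⟨c, hcC, hcz⟩ := coset_fixed ⁅W, W⁆ z w p hp hzp
      (fun h hh => by rw [hzc h hh]; exact hh) hpC hc
    have hwcQ : (w : G) * c ∈ Q := Q.mul_mem (hWQ w.2) (hWQ (hCW hcC))
    obtain ⟨g1, g2⟩ := fix_eq Q hQn p hp hp5 hfix x y hx hy hxy hne i j hij _ hwcQ hcz
    have g3 : x * (w : G) = w * x := by
      have h1 : x * (w : G) * c = w * x * c := by
        rw [mul_assoc, g1, mul_assoc, mul_assoc, hcommx c hcC]
      exact mul_right_cancel h1
    have g4 : y * (w : G) = w * y := by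
      have h1 : y * (w : G) * c = w * y * c := by
        rw [mul_assoc, g2, mul_assoc, mul_assoc, hcommy c hcC]
      exact mul_right_cancel h1
    constructor
    · rw [hαof]
      congr 1
      apply Subtype.ext
      show x * (w : G) * x⁻¹ = w
      rw [g3, mul_inv_cancel_right]
    · rw [hβof]
      congr 1
      apply Subtype.ext
      show y * (w : G) * y⁻¹ = w
      rw [g4, mul_inv_cancel_right]
  have hfinal : ∀ (t : G), t ^ p = 1 → (∀ c ∈ ⁅W, W⁆, t * c = c * t) → ∀ w : W,
      (w : G)⁻¹ * (t * w * t⁻¹) ∈ ⁅W, W⁆ → t * w = w * t := by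
    intro t htp htc w hw
    set c := (w : G)⁻¹ * (t * w * t⁻¹) with hcdef
    have h1 : t * (w : G) * t⁻¹ = w * c := by rw [hcdef, mul_inv_cancel_left]
    have h2 : ∀ k : ℕ, t ^ k * (w : G) * (t ^ k)⁻¹ = w * c ^ k := by
      intro k
      induction k with
      | zero => simp
      | succ k ih =>
        have e1 : t ^ (k + 1) * (w : G) * (t ^ (k + 1))⁻¹ = t * (t ^ k * w * (t ^ k)⁻¹) * t⁻¹ := by
          rw [pow_succ']
          group
        have e2 : Commute t (c ^ k) := (show Commute t c from htc c hw).pow_right k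
        rw [e1, ih]
        calc t * (w * c ^ k) * t⁻¹ = t * w * (c ^ k * t⁻¹) := by group
          _ = t * w * (t⁻¹ * c ^ k) := by rw [e2.inv_left.eq]
          _ = (t * w * t⁻¹) * c ^ k := by group
          _ = w * c ^ (k + 1) := by rw [h1, pow_succ', mul_assoc]
    have h3 := h2 p
    rw [htp, one_mul, inv_one, mul_one] at h3
    have h4 : c ^ p = 1 := by
      have : (w : G) * 1 = w * c ^ p := by rw [mul_one]; exact h3
      exact (mul_left_cancel this).symm
    have h5 : c = 1 := by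
      have hcop : Nat.Coprime p (Nat.card (⁅W, W⁆ : Subgroup G)) := (Nat.Prime.coprime_iff_not_dvd hp).2 hpC
      have g7 : orderOf c ∣ p := orderOf_dvd_of_pow_eq_one h4
      have g8 : orderOf c ∣ Nat.card (⁅W, W⁆ : Subgroup G) := by
        have := orderOf_dvd_natCard (⟨c, hw⟩ : (⁅W, W⁆ : Subgroup G))
        rwa [Subgroup.orderOf_mk] at this
      have g9 : orderOf c ∣ 1 := by
        have := Nat.dvd_gcd g7 g8
        rwa [hcop.gcd_eq_one] at this
      exact orderOf_eq_one_iff.1 (Nat.dvd_one.1 g9)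
    rw [h5, mul_one] at h1
    exact mul_inv_eq_iff_eq_mul.1 h1
  apply hbadW
  intro w hw
  have h1 := aut_trivial p hp hpV α β hα hβ hαβ hmain (Abelianization.of ⟨w, hw⟩)
  have h2 := of_eq_mem W ⟨w, hw⟩ (ex ⟨w, hw⟩) (by rw [← hαof]; exact h1.1.symm)
  have h3 := of_eq_mem W ⟨w, hw⟩ (ey ⟨w, hw⟩) (by rw [← hβof]; exact h1.2.symm)
  exact ⟨hfinal x hxp hcommx ⟨w, hw⟩ h2, hfinal y hyp hcommy ⟨w, hw⟩ h3⟩

end SRC
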