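import Pool.Agent.SRC.B3

set_option autoImplicit false

namespace SRC

/-- PROOF. By `commute_all`, `x ∈ centralizer Q ≤ Q`, but `x` has odd prime order `p` and `Q` is a
`2`-group. -/
theorem no_rank_two {G : Type*} [Group G] [Finite G] (Q : Subgroup G) (hQ : Core Q)
    (hC : Subgroup.centralizer (Q : Set G) ≤ Q) (p : ℕ) (hp : p.Prime) (hp5 : 5 ≤ p)
    (hfix : ∀ z : G, orderOf z = p → Nat.card ↥(Q ⊓ Subgroup.centralizer ({z} : Set G)) ∣ 4)
    (x y : G) (hx : orderOf x = p) (hy : orderOf y = p) (hxy : x * y = y * x)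
    (hne : y ∉ Subgroup.zpowers x) : False := by
  have h1 := commute_all Q hQ.normal hQ.two p hp hp5 hfix x y hx hy hxy hne
  have h2 : x ∈ Q := hC (Subgroup.mem_centralizer_iff.2 (fun q hq => ((h1 q hq).1).symm))
  have h3 := not_dvd_card_two_group Q hQ.two p hp (by omega)
  apply h3
  have h4 := orderOf_dvd_natCard (⟨x, h2⟩ : Q)
  rwa [Subgroup.orderOf_mk, hx] at h4

/-- PROOF. Pick `x₀ ∈ R \ Q`, `x = x₀ ^ |Q|` (order `p`, not in `Q`, `lift_order`).
If every element of `R` is of the form `x^m q`, `q ∈ Q`, then `|R| = p |Q|`: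
`R = Q ⊔ zpowers x`, `Q ⊓ zpowers x = ⊥`
(e.g. the map `Fin p × Q → R`, `(m, q) ↦ x^m q`, is a bijection).
Otherwise pick `y ∈ R` not of this form.  `y⁻¹ (x y x⁻¹) ∈ Q` (`comm_mem`: it is
`y⁻¹ x y x⁻¹`), so `coset_fixed` gives `q ∈ Q` such that `y₁ = y q` commutes with `x`;
`y₂ = y₁^|Q|` has order `p` (`lift_order`; `y₁ ∉ Q` as `y ∉ Q`, `y₁ ∈ R` so `y₁^p ∈ Q`), commutes
with `x`.  `y₂ ∉ zpowers x`: otherwise `y₁^|Q|` and `y₁^p` lie in the subgroup `Q ⊔ zpowers x`, so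
`y₁` does (`mem_of_pow_mem_coprime`), so `y = x^m q'` (`Subgroup.mem_sup`, `Q` normal),
contradiction.  Now `no_rank_two` gives `False`. -/
theorem card_R {G : Type*} [Group G] [Finite G] (Q R : Subgroup G) (hQ : Core Q)
    (hC : Subgroup.centralizer (Q : Set G) ≤ Q) (p : ℕ) (hp : p.Prime) (hp5 : 5 ≤ p)
    (hfix : ∀ z : G, orderOf z = p → Nat.card ↥(Q ⊓ Subgroup.centralizer ({z} : Set G)) ∣ 4)
    (hR : Elem Q R p) : Nat.card R = p * Nat.card Q := by
  have hp2 : p ≠ 2 := by omega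
  obtain ⟨x₀, hx₀R, hx₀Q⟩ := SetLike.not_le_iff_exists.1 hR.ne
  obtain ⟨hx, hxQ⟩ := lift_order Q hQ.two p hp hp2 x₀ hx₀Q (hR.pow_mem x₀ hx₀R)
  set x := x₀ ^ Nat.card Q with hxdef
  have hxR : x ∈ R := R.pow_mem hx₀R _
  have hxp : x ^ p = 1 := by rw [← hx, pow_orderOf_eq_one]
  have hpQ := not_dvd_card_two_group Q hQ.two p hp hp2
  have hnQ : ∀ h ∈ Q, x * h * x⁻¹ ∈ Q := fun h hh => hQ.normal.conj_mem h hh x
  have key : ∀ a b : ℕ, a < p → b < p → a ≤ b → ∀ q ∈ Q, ∀ q' ∈ Q, x ^ a * q = x ^ b * q' →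
      a = b := by
    intro a b ha hb hab q hq q' hq' h
    by_contra hne
    apply hxQ
    refine mem_of_pow_mem_coprime Q x (b - a) p ?_ ?_ (by rw [hxp]; exact Q.one_mem)
    · refine ((Nat.Prime.coprime_iff_not_dvd hp).2 (fun hd => ?_)).symm
      have := Nat.le_of_dvd (by omega) hd
      omega
    · have h1 : x ^ (b - a) = q * q'⁻¹ := by
        have h2 : x ^ b = x ^ a * x ^ (b - a) := by rw [← pow_add, Nat.add_sub_cancel' hab]
        rw [h2, mul_assoc] at h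
        have h3 := mul_left_cancel h
        rw [h3, mul_inv_cancel_right]
      rw [h1]
      exact Q.mul_mem hq (Q.inv_mem hq')
  by_cases hall : ∀ r ∈ R, ∃ m : ℕ, ∃ q ∈ Q, r = x ^ m * q
  · let f : Fin p × Q → R := fun mq => ⟨x ^ (mq.1 : ℕ) * mq.2,
      R.mul_mem (R.pow_mem hxR _) (hR.le mq.2.2)⟩
    have hf : Function.Bijective f := by
      constructor
      · rintro ⟨a, q⟩ ⟨b, q'⟩ h
        have h1 : x ^ (a : ℕ) * (q : G) = x ^ (b : ℕ) * q' := congrArg Subtype.val h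
        have hab : (a : ℕ) = b := by
          rcases le_total (a : ℕ) b with h2 | h2
          · exact key a b a.2 b.2 h2 q q.2 q' q'.2 h1
          · exact (key b a b.2 a.2 h2 q' q'.2 q q.2 h1.symm).symm
        rw [hab] at h1
        exact Prod.ext (Fin.ext hab) (Subtype.ext (mul_left_cancel h1))
      · rintro ⟨r, hr⟩
        obtain ⟨m, q, hq, hrm⟩ := hall r hr
        refine ⟨(⟨m % p, Nat.mod_lt _ hp.pos⟩, ⟨q, hq⟩), Subtype.ext ?_⟩
        show x ^ (m % p) * q = r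
        rw [hrm, ← hx, pow_mod_orderOf]
    rw [← Nat.card_congr (Equiv.ofBijective f hf), Nat.card_prod, Nat.card_eq_fintype_card,
      Fintype.card_fin]
  · exfalso
    push Not at hall
    obtain ⟨y, hyR, hy⟩ := hall
    have hc : y⁻¹ * (x * y * x⁻¹) ∈ Q := by
      have h1 := hR.comm_mem y⁻¹ (R.inv_mem hyR) x hxR
      rw [inv_inv] at h1
      have h2 : y⁻¹ * (x * y * x⁻¹) = y⁻¹ * x * y * x⁻¹ := by group
      rw [h2]
      exact h1
    obtain ⟨q, hq, hcomm⟩ := coset_fixed Q x y p hp hxp hnQ hpQ hc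
    have hy1Q : y * q ∉ Q := by
      intro h1
      have h2 : y ∈ Q := by
        have := Q.mul_mem h1 (Q.inv_mem hq)
        rwa [mul_inv_cancel_right] at this
      exact hy 0 y h2 (by simp)
    have hy1R : y * q ∈ R := R.mul_mem hyR (hR.le hq)
    have hy1p := hR.pow_mem _ hy1R
    obtain ⟨hy2, hy2Q⟩ := lift_order Q hQ.two p hp hp2 (y * q) hy1Q hy1p
    have hcomm2 : x * (y * q) ^ Nat.card Q = (y * q) ^ Nat.card Q * x :=
      (show Commute x (y * q) from hcomm).pow_right _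
    refine no_rank_two Q hQ hC p hp hp5 hfix x _ hx hy2 hcomm2 ?_
    intro hmem
    have hnorm : Q.Normal := hQ.normal
    have h1 : y * q ∈ Subgroup.zpowers x ⊔ Q := by
      refine mem_of_pow_mem_coprime _ (y * q) (Nat.card Q) p ?_ ?_ ?_
      · exact ((Nat.Prime.coprime_iff_not_dvd hp).2 hpQ).symm
      · exact (le_sup_left : Subgroup.zpowers x ≤ Subgroup.zpowers x ⊔ Q) hmem
      · exact (le_sup_right : Q ≤ Subgroup.zpowers x ⊔ Q) hy1p
    have h2 : y * q ∈ ((Subgroup.zpowers x ⊔ Q : Subgroup G) : Set G) := h1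
    rw [Subgroup.mul_normal] at h2
    obtain ⟨u, hu, v, hv, huv⟩ := h2
    have hu' : u ∈ Submonoid.powers x := mem_powers_iff_mem_zpowers.2 hu
    obtain ⟨m, hm⟩ := hu'
    refine hy m (v * q⁻¹) (Q.mul_mem hv (Q.inv_mem hq)) ?_
    have h3 : u * v = y * q := huv
    have h4 : x ^ m = u := hm
    rw [h4, ← mul_assoc, h3, mul_inv_cancel_right]

end SRC
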