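import Pool.Agent.SRC.A2

set_option autoImplicit false

namespace SRC

/-- The kernel of the action on `R / Q` (a group of prime order `p`).
PROOF. `Rb = R.map (QuotientGroup.mk' Q)`, a normal subgroup of `G ⧸ Q` of order `p` (so cyclic);
`φ : G →* MulAut Rb` is `MulAut.conjNormal` composed with `mk' Q`; `K = φ.ker`.
`K.index = Nat.card φ.range` (`Subgroup.index_ker`) divides `Nat.card (MulAut Rb) = φ(p) = p - 1`
(`IsCyclic.card_mulAut`), and `MulAut Rb` is commutative (`IsCyclic.mulAutMulEquiv` to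
`(ZMod _)ˣ`), so commutators are in `K`. -/
theorem exists_K {G : Type*} [Group G] [Finite G] (Q R : Subgroup G) (hQn : Q.Normal) (p : ℕ)
    (hp : p.Prime) (hR : Elem Q R p) (hcard : Nat.card R = p * Nat.card Q) :
    ∃ K : Subgroup G, K.Normal ∧ (∀ g : G, g ∈ K ↔ ∀ r ∈ R, g * r * g⁻¹ * r⁻¹ ∈ Q) ∧
      (∀ a b : G, a * b * a⁻¹ * b⁻¹ ∈ K) ∧ K.index ∣ p - 1 := by
  classical
  have := hQn
  have := hR.normal
  have : Fact p.Prime := ⟨hp⟩
  let Rb : Subgroup (G ⧸ Q) := R.map (QuotientGroup.mk' Q)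
  have hRbn : Rb.Normal := Subgroup.Normal.map hR.normal _ (QuotientGroup.mk'_surjective Q)
  have hRbcard : Nat.card Rb = p := by
    have h1 : Q.relIndex R = Nat.card Rb := by
      have := Subgroup.relIndex_ker R (QuotientGroup.mk' Q)
      rwa [QuotientGroup.ker_mk'] at this
    have h2 : Nat.card Q * Q.relIndex R = Nat.card R := by
      have := Subgroup.relIndex_mul_relIndex (⊥ : Subgroup G) Q R bot_le hR.le
      rwa [Subgroup.relIndex_bot_left, Subgroup.relIndex_bot_left] at this
    rw [h1, hcard, mul_comm] at h2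
    exact Nat.eq_of_mul_eq_mul_right Nat.card_pos h2
  have hcyc : IsCyclic Rb := isCyclic_of_prime_card hRbcard
  let φ : G →* MulAut Rb := (MulAut.conjNormal (H := Rb)).comp (QuotientGroup.mk' Q)
  have hφ : ∀ (g : G) (x : Rb), ((φ g x : Rb) : G ⧸ Q)
      = (QuotientGroup.mk' Q g) * x * (QuotientGroup.mk' Q g)⁻¹ := fun g x =>
    MulAut.conjNormal_apply _ _
  refine ⟨φ.ker, inferInstance, fun g => ?_, fun a b => ?_, ?_⟩
  · rw [MonoidHom.mem_ker]
    constructor
    · intro hg r hr
      have h1 := hφ g ⟨QuotientGroup.mk' Q r, Subgroup.mem_map_of_mem _ hr⟩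
      rw [hg, MulAut.one_apply] at h1
      simp only at h1
      rw [← QuotientGroup.eq_one_iff]
      change (QuotientGroup.mk' Q) (g * r * g⁻¹ * r⁻¹) = 1
      rw [map_mul, map_mul, map_mul, map_inv, map_inv, ← h1, mul_inv_cancel]
    · intro hg
      ext x
      obtain ⟨x, r, hr, rfl⟩ := x
      rw [hφ, MulAut.one_apply]
      have h1 := (QuotientGroup.eq_one_iff _).mpr (hg r hr)
      change (QuotientGroup.mk' Q) (g * r * g⁻¹ * r⁻¹) = 1 at h1
      rw [map_mul, map_mul, map_mul, map_inv, map_inv] at h1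
      exact mul_inv_eq_one.mp h1
  · rw [MonoidHom.mem_ker, map_mul, map_mul, map_mul, map_inv, map_inv]
    have h1 : φ a * φ b = φ b * φ a := by
      apply (IsCyclic.mulAutMulEquiv Rb).injective
      rw [map_mul, map_mul, mul_comm]
    rw [h1]
    group
  · rw [Subgroup.index_ker]
    have h1 : Nat.card φ.range ∣ Nat.card (MulAut Rb) := Subgroup.card_subgroup_dvd_card _
    rw [IsCyclic.card_mulAut, hRbcard, Nat.totient_prime hp] at h1
    exact h1

end SRC
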