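import Pool.Agent.SRC.A2

set_option autoImplicit false

namespace SRC

/-- PROOF. `K = centralizer {x} ⊔ Q`: (≥) `Q ≤ K` since `Q` is normal
(`g ∈ Q`: `g (r g⁻¹ r⁻¹) ∈ Q`); `c` commuting with `x`: every `r ∈ R` is `x^m q`
(`R = zpowers x ⊔ Q` by orders, or: the classes of powers of `x` fill `R / Q`, of order `p`), so
`c r c⁻¹ r⁻¹ = x^m (c q c⁻¹ q⁻¹) x^(-m) ∈ Q`.  (≤) for `k ∈ K`: `k⁻¹ (x k x⁻¹) ∈ Q`
(as `k x⁻¹ k⁻¹ x ∈ Q` is conjugate to it), so `coset_fixed` with `z = x`, `g = k` gives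
`q ∈ Q` with `k q ∈ centralizer {x}`.
Then `|K| |Q ⊓ C| = |Q| |C|` for `C = centralizer {x}`, `K = Q ⊔ C`, `Q` normal: second
isomorphism theorem (`QuotientGroup.quotientInfEquivProdNormalQuotient`,
`Subgroup.card_eq_card_quotient_mul_card_subgroup`, or `Subgroup.relIndex_sup_left/right`,
`Subgroup.relIndex_mul_card`...). -/
theorem card_K {G : Type*} [Group G] [Finite G] (Q R K : Subgroup G) (hQn : Q.Normal) (p : ℕ)
    (hp : p.Prime) (hpQ : ¬ p ∣ Nat.card Q) (hR : Elem Q R p)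
    (hcard : Nat.card R = p * Nat.card Q)
    (hK : ∀ g : G, g ∈ K ↔ ∀ r ∈ R, g * r * g⁻¹ * r⁻¹ ∈ Q) (x : G) (hxR : x ∈ R)
    (hx : orderOf x = p) :
    Nat.card K * Nat.card ↥(Q ⊓ Subgroup.centralizer ({x} : Set G)) =
      Nat.card Q * Nat.card (Subgroup.centralizer ({x} : Set G)) := by
  classical
  have := hQn
  have hxp : x ^ p = 1 := hx ▸ pow_orderOf_eq_one x
  have hxQ : x ∉ Q := by
    intro h
    apply hpQ
    have h1 := orderOf_dvd_natCard (⟨x, h⟩ : Q)
    rwa [← Subgroup.orderOf_coe, hx] at h1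
  have hcardrel : ∀ A B : Subgroup G, A ≤ B → Nat.card A * A.relIndex B = Nat.card B := by
    intro A B hAB
    have := Subgroup.relIndex_mul_relIndex (⊥ : Subgroup G) A B bot_le hAB
    rwa [Subgroup.relIndex_bot_left, Subgroup.relIndex_bot_left] at this
  have hrelQR : Q.relIndex R = p := by
    have h2 := hcardrel Q R hR.le
    rw [hcard, mul_comm] at h2
    exact Nat.eq_of_mul_eq_mul_right Nat.card_pos h2
  have hRle : R ≤ Subgroup.zpowers x ⊔ Q := by
    have hQS : Q ≤ Subgroup.zpowers x ⊔ Q := le_sup_right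
    have hSR : Subgroup.zpowers x ⊔ Q ≤ R :=
      sup_le ((Subgroup.zpowers_le).mpr hxR) hR.le
    have h1 := Subgroup.relIndex_mul_relIndex Q (Subgroup.zpowers x ⊔ Q) R hQS hSR
    rw [hrelQR] at h1
    have h2 : Q.relIndex (Subgroup.zpowers x ⊔ Q) ∣ p := Dvd.intro _ h1
    rcases (Nat.dvd_prime hp).mp h2 with h3 | h3
    · exfalso
      apply hxQ
      exact (Subgroup.relIndex_eq_one.mp h3) (Subgroup.mem_sup_left (Subgroup.mem_zpowers x))
    · rw [h3] at h1
      have h4 : (Subgroup.zpowers x ⊔ Q).relIndex R = 1 :=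
        Nat.eq_of_mul_eq_mul_left hp.pos (h1.trans (mul_one p).symm)
      exact Subgroup.relIndex_eq_one.mp h4
  have hKeq : K = Subgroup.centralizer ({x} : Set G) ⊔ Q := by
    apply le_antisymm
    · intro k hk
      have h1 := (hK k).mp hk x hxR
      have h2 : k⁻¹ * (x * k * x⁻¹) ∈ Q := by
        have h3 := hQn.conj_mem _ (Q.inv_mem h1) k⁻¹
        have h4 : k⁻¹ * (k * x * k⁻¹ * x⁻¹)⁻¹ * k⁻¹⁻¹ = k⁻¹ * (x * k * x⁻¹) := by group
        rwa [h4] at h3
      obtain ⟨q, hq, hqx⟩ := coset_fixed Q x k p hp hxp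
        (fun h hh => hQn.conj_mem h hh x) hpQ h2
      have h5 : k = (k * q) * q⁻¹ := by group
      rw [h5]
      refine Subgroup.mul_mem _ (Subgroup.mem_sup_left ?_) (Subgroup.mem_sup_right (Q.inv_mem hq))
      rw [Subgroup.mem_centralizer_singleton_iff]
      first
        | exact hqx
        | exact hqx.symm
    · apply sup_le
      · intro c hc
        rw [Subgroup.mem_centralizer_singleton_iff] at hc
        have hcx : Commute c x := by
          first
            | exact hc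
            | exact hc.symm
        rw [hK]
        intro r hr
        obtain ⟨y, hy, q, hq, rfl⟩ := Subgroup.mem_sup_of_normal_right.mp (hRle hr)
        obtain ⟨e, rfl⟩ := Subgroup.mem_zpowers_iff.mp hy
        have hce : c * x ^ e = x ^ e * c := (hcx.zpow_right e).eq
        have h1 : c * (x ^ e * q) * c⁻¹ * (x ^ e * q)⁻¹
            = x ^ e * (c * q * c⁻¹ * q⁻¹) * (x ^ e)⁻¹ := by
          calc c * (x ^ e * q) * c⁻¹ * (x ^ e * q)⁻¹
              = (c * x ^ e) * q * c⁻¹ * q⁻¹ * (x ^ e)⁻¹ := by group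
            _ = _ := by rw [hce]; group
        rw [h1]
        exact hQn.conj_mem _ (Q.mul_mem (hQn.conj_mem q hq c) (Q.inv_mem hq)) _
      · intro q hq
        rw [hK]
        intro r hr
        have h1 : q * r * q⁻¹ * r⁻¹ = q * (r * q⁻¹ * r⁻¹) := by group
        rw [h1]
        exact Q.mul_mem hq (hQn.conj_mem _ (Q.inv_mem hq) r)
  have h1 := hcardrel Q K (hKeq ▸ le_sup_right)
  have h2 := hcardrel (Q ⊓ Subgroup.centralizer ({x} : Set G)) (Subgroup.centralizer ({x} : Set G))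
    inf_le_right
  rw [Subgroup.inf_relIndex_right] at h2
  have h3 : Q.relIndex K = Q.relIndex (Subgroup.centralizer ({x} : Set G)) := by
    rw [hKeq, Subgroup.relIndex_sup_right]
  rw [← h1, ← h2, h3]
  ring

end SRC
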