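import Pool.Agent.SRC.A1
import Pool.Agent.SRC.A2

set_option autoImplicit false

namespace SRC

/-- PROOF. By Cauchy pick `w : G` of order `r`; `w ∉ K` since `r ∤ |K|`.  The coset
`S = {w * k : k ∈ K}` is invariant under conjugation: `g w k g⁻¹ = w * (w⁻¹ g w g⁻¹) * (g k g⁻¹)`
and `w⁻¹ g w g⁻¹ ∈ K` (`hab` for `a = w⁻¹`, `b = g`).  Every `w' ∈ S` has order divisible by
`r`: (otherwise, `w'^(orderOf w') = 1 ∈ K`, and `w'^r ∈ K` as `w'^r ≡ w^r = 1` modulo the normal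
subgroup `K`, so `w' ∈ K` by `mem_of_pow_mem_coprime`, so `w ∈ K`).  By `class_count` and
`dvd_index_centralizer`, `P1 ∣ |S| = |K|`. -/
theorem P1_dvd_card_K {G : Type*} [Group G] [Finite G] {s : ℤ} {N1 N2 i j P1 P2 : ℕ}
    (d : Dat (Nat.card G) s N1 N2 i j P1 P2) (hyp : Hyp G N1 N2 P1 P2) (K : Subgroup G)
    (hKn : K.Normal) (hab : ∀ a b : G, a * b * a⁻¹ * b⁻¹ ∈ K) (r : ℕ) (hr : r.Prime) (hr2 : r ≠ 2)
    (hrP : r ∣ P2) (hrK : ¬ r ∣ Nat.card K) : P1 ∣ Nat.card K := by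
  have hrG : r ∣ Nat.card G := by
    have h1 : r ∣ 2 * Nat.card G := by
      rw [d.hg, d.h2]
      exact Dvd.dvd.mul_left (Dvd.dvd.mul_left hrP _) _
    exact (hr.dvd_mul.1 h1).resolve_left fun h2 => hr2 ((Nat.prime_dvd_prime_iff_eq hr Nat.prime_two).1 h2)
  have hfact : Fact r.Prime := ⟨hr⟩
  obtain ⟨w, hw⟩ := exists_prime_orderOf_dvd_card' r hrG
  have hwK : w ∉ K := fun h => hrK (by
    rw [← hw]
    exact Subgroup.orderOf_dvd_natCard K h)
  have hinv : ∀ s : G, w⁻¹ * s ∈ K → ∀ g : G, w⁻¹ * (g * s * g⁻¹) ∈ K := by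
    intro s hs g
    have h1 := hab w⁻¹ g
    rw [inv_inv] at h1
    have h2 := K.mul_mem h1 (hKn.conj_mem _ hs g)
    have h3 : w⁻¹ * g * w * g⁻¹ * (g * (w⁻¹ * s) * g⁻¹) = w⁻¹ * (g * s * g⁻¹) := by group
    rwa [h3] at h2
  have hord : ∀ s : G, w⁻¹ * s ∈ K → r ∣ orderOf s := by
    intro s hs
    by_contra hne
    have hcop : Nat.Coprime r (orderOf s) := (Nat.Prime.coprime_iff_not_dvd hr).2 hne
    have h1 : s ^ r ∈ K := by
      rw [← QuotientGroup.eq_one_iff, QuotientGroup.mk_pow]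
      have h2 : (s : G ⧸ K) = (w : G ⧸ K) := (QuotientGroup.eq.2 hs).symm
      rw [h2, ← QuotientGroup.mk_pow, ← hw, pow_orderOf_eq_one, QuotientGroup.mk_one]
    have h2 : s ^ (orderOf s) ∈ K := by
      rw [pow_orderOf_eq_one]
      exact K.one_mem
    have h3 := mem_of_pow_mem_coprime K s r (orderOf s) hcop h1 h2
    have h4 : w⁻¹ ∈ K := by
      have h5 := K.mul_mem hs (K.inv_mem h3)
      rwa [mul_inv_cancel_right] at h5
    exact hwK (by
      have h5 := K.inv_mem h4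
      rwa [inv_inv] at h5)
  have h1 := class_count {s : G | w⁻¹ * s ∈ K} hinv P1
    (fun s hs => dvd_index_centralizer d hyp r hr hr2 hrP s (hord s hs))
  have h2 : Nat.card {s : G | w⁻¹ * s ∈ K} = Nat.card K := by
    refine Nat.card_congr
      { toFun := fun s => ⟨w⁻¹ * s.1, s.2⟩
        invFun := fun k => ⟨w * k.1, by
          show w⁻¹ * (w * k.1) ∈ K
          rw [inv_mul_cancel_left]
          exact k.2⟩
        left_inv := fun s => Subtype.ext (mul_inv_cancel_left w s.1)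
        right_inv := fun k => Subtype.ext (inv_mul_cancel_left w k.1) }
  rwa [h2] at h1

end SRC
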