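import Pool.Agent.SRC.A1
import Pool.Agent.SRC.A2

set_option autoImplicit false

namespace SRC

/-- PROOF. Frattini.  `p ∤ |Q|`, so a Sylow `p`-subgroup `P` of `R` has order `p`.
`Sylow.normalizer_sup_eq_top` : `(P.map R.subtype).normalizer ⊔ R = ⊤`, so `|G|` divides
`|N| * |R|` for `N = (P.map R.subtype).normalizer` (`R` normal; `|N ⊔ R| |N ⊓ R| = |N| |R|`), hence
`r ∣ |N|` (`r ∤ |R| = p |Q|`: `r ≠ p`, `r ∤ |Q|`), and by Cauchy there is `y ∈ N` of order `r`.
Let `x` be a generator of `P.map R.subtype` (cyclic of prime order). -/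
theorem exists_xy {G : Type*} [Group G] [Finite G] (Q R : Subgroup G) (p r : ℕ) (hp : p.Prime)
    (hr : r.Prime) (hpQ : ¬ p ∣ Nat.card Q) (hrQ : ¬ r ∣ Nat.card Q) (hpr : p ≠ r)
    (hRn : R.Normal) (hcard : Nat.card R = p * Nat.card Q) (hrG : r ∣ Nat.card G) :
    ∃ x y : G, x ∈ R ∧ orderOf x = p ∧ orderOf y = r ∧ y * x * y⁻¹ ∈ Subgroup.zpowers x := by
  have hfp : Fact p.Prime := ⟨hp⟩
  have hfr : Fact r.Prime := ⟨hr⟩
  -- a Sylow subgroup of `R`
  let P : Sylow p R := Classical.choice inferInstance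
  have hQ0 : Nat.card Q ≠ 0 := Nat.card_pos.ne'
  have hPcard : Nat.card (P : Subgroup R) = p := by
    have h1 := P.card_eq_multiplicity
    rw [hcard, Nat.factorization_mul hp.ne_zero hQ0, Finsupp.add_apply, hp.factorization_self,
      Nat.factorization_eq_zero_of_not_dvd hpQ, add_zero, pow_one] at h1
    exact h1
  have hHcard : Nat.card ((P : Subgroup R).map R.subtype) = p := by
    rw [Subgroup.card_map_of_injective R.subtype_injective, hPcard]
  have hsup := Sylow.normalizer_sup_eq_top P
  -- a generator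
  obtain ⟨x0, hx0⟩ := exists_prime_orderOf_dvd_card' (G := ((P : Subgroup R).map R.subtype)) p
    (by rw [hHcard])
  have hxo : orderOf (x0 : G) = p := by rw [Subgroup.orderOf_coe, hx0]
  have hzp : Subgroup.zpowers (x0 : G) = (P : Subgroup R).map R.subtype := by
    apply Subgroup.eq_of_le_of_card_ge
    · rw [Subgroup.zpowers_le]
      exact x0.2
    · rw [hHcard, Nat.card_zpowers, hxo]
  -- the prime `r` divides the order of the normalizer
  have hrN : r ∣ Nat.card (Subgroup.normalizer
      (((P : Subgroup R).map R.subtype : Subgroup G) : Set G)) := by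
    have h1 : R.index = R.relIndex (Subgroup.normalizer
        (((P : Subgroup R).map R.subtype : Subgroup G) : Set G)) := by
      rw [← Subgroup.relIndex_top_right, ← hsup, Subgroup.relIndex_sup_right]
    have h2 : r ∣ R.index := by
      have h3 := Subgroup.card_mul_index R
      rw [← h3] at hrG
      refine (hr.dvd_mul.1 hrG).resolve_left ?_
      rw [hcard]
      intro h4
      rcases hr.dvd_mul.1 h4 with h5 | h5
      · exact hpr ((Nat.prime_dvd_prime_iff_eq hr hp).1 h5).symm
      · exact hrQ h5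
    rw [h1] at h2
    exact h2.trans (Subgroup.relIndex_dvd_card _ _)
  obtain ⟨y, hy⟩ := exists_prime_orderOf_dvd_card' r hrN
  refine ⟨x0, y, ?_, hxo, by rw [Subgroup.orderOf_coe, hy], ?_⟩
  · obtain ⟨z, _, hz⟩ := x0.2
    rw [← hz]
    exact z.2
  · rw [hzp]
    exact (Subgroup.mem_normalizer_iff.1 y.2 (x0 : G)).1 x0.2

end SRC
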