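import Pool.Agent.SRC.A1
import Pool.Agent.SRC.A2

set_option autoImplicit false

open scoped Pointwise

namespace SRC

/-- PROOF. `σ = conjOn C y` (`inv_conj_mem`) is an automorphism of `C` of exponent `r`.
`H = Subgroup.zpowers σ ≤ MulAut C` acts on `C` (`MulDistribMulAction`) and so on `Sylow 2 C`
(`Sylow.pointwiseMulAction`); the number of Sylow `2`-subgroups divides `|C|`
(`Sylow.card_dvd_index` / `card_sylow_dvd_index`), so it is prime to `r`, and the `r`-group `H` has
a fixed point `S` (`IsPGroup.nonempty_fixed_point_of_prime_not_dvd_card`).  So `σ S = S`.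
`|S|` is the `2`-part of `|C|`: `2^a ∣ |S|` and `|S| ≤ 4` (`¬ 8 ∣ |C|`).
`σ` restricted to `S` has exponent `r ≥ 5` and `|S| ≤ 4`, so it is trivial:
by `card_inf_centralizer_modEq` for the subgroup `S' = S.map C.subtype` of `G`,
`|S' ⊓ centralizer {y}| ≡ |S'|` modulo `r` and both are between `1` and `4`, so they are equal
and `S' ≤ centralizer {y}`.  Hence `2^a ∣ |S'| ∣ |C ⊓ centralizer {y}|`. -/
theorem two_part_fixed {G : Type*} [Group G] [Finite G] (C : Subgroup G) (y : G) (r : ℕ)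
    (hr : r.Prime) (hr5 : 5 ≤ r) (hy : y ^ r = 1) (hn : ∀ c ∈ C, y * c * y⁻¹ ∈ C)
    (hrC : ¬ r ∣ Nat.card C) (a : ℕ) (ha : 2 ^ a ∣ Nat.card C) (h8 : ¬ 8 ∣ Nat.card C) :
    2 ^ a ∣ Nat.card ↥(C ⊓ Subgroup.centralizer ({y} : Set G)) := by
  classical
  have : Fact r.Prime := ⟨hr⟩
  have : Fact (Nat.Prime 2) := ⟨Nat.prime_two⟩
  have hn' := inv_conj_mem C y hn r hr.pos hy
  let σ : MulAut C := conjOn C y hn hn'
  have hσ : σ ^ r = 1 := conjOn_pow_eq_one C y hn hn' r hy
  have hH : IsPGroup r (Subgroup.zpowers σ) := by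
    rintro ⟨g, k, rfl⟩
    refine ⟨1, ?_⟩
    ext1
    rw [pow_one]
    change (σ ^ k) ^ r = 1
    rw [← zpow_natCast, ← zpow_mul, mul_comm, zpow_mul, zpow_natCast, hσ, one_zpow]
  have hcard : ¬ r ∣ Nat.card (Sylow 2 C) := by
    intro h
    have P : Sylow 2 C := default
    exact hrC ((h.trans P.card_dvd_index).trans (Subgroup.index_dvd_card _))
  obtain ⟨S, hS⟩ := hH.nonempty_fixed_point_of_prime_not_dvd_card (Sylow 2 C) hcard
  have hS1 : σ • (S : Subgroup C) = (S : Subgroup C) := by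
    have h1 := hS ⟨σ, Subgroup.mem_zpowers σ⟩
    have h2 : σ • S = S := h1
    rw [← Sylow.pointwise_smul_def, h2]
  let S' : Subgroup G := (S : Subgroup C).map C.subtype
  have hS'C : S' ≤ C := Subgroup.map_subtype_le _
  have hcardS : Nat.card S' = Nat.card S :=
    Subgroup.card_map_of_injective C.subtype_injective
  have hyS : ∀ s ∈ S', y * s * y⁻¹ ∈ S' := by
    rintro _ ⟨s, hs, rfl⟩
    have h1 : σ • s ∈ σ • (S : Subgroup C) := Subgroup.smul_mem_pointwise_smul s σ _ hs
    rw [hS1] at h1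
    exact ⟨σ • s, h1, rfl⟩
  have hmult := S.card_eq_multiplicity
  have hdvdC : Nat.card S ∣ Nat.card C := Subgroup.card_subgroup_dvd_card _
  have h2a : 2 ^ a ∣ Nat.card S := S.pow_dvd_card_of_pow_dvd_card ha
  have hk : (Nat.card C).factorization 2 ≤ 2 := by
    by_contra hcon
    apply h8
    have h3 : 3 ≤ (Nat.card C).factorization 2 := by omega
    have h4 : 2 ^ 3 ∣ Nat.card S := by
      rw [hmult]
      exact pow_dvd_pow 2 h3
    exact (by norm_num at h4; exact h4 : 8 ∣ Nat.card S).trans hdvdC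
  have hle : Nat.card S ≤ 4 := by
    rw [hmult]
    calc 2 ^ (Nat.card C).factorization 2 ≤ 2 ^ 2 := Nat.pow_le_pow_right (by norm_num) hk
      _ = 4 := by norm_num
  have hmod := card_inf_centralizer_modEq S' y r hr hy hyS
  have hle2 : Nat.card ↥(S' ⊓ Subgroup.centralizer ({y} : Set G)) ≤ Nat.card S' :=
    Subgroup.card_le_of_le inf_le_left
  have heq : Nat.card ↥(S' ⊓ Subgroup.centralizer ({y} : Set G)) = Nat.card S' := by
    have h5 := hmod
    unfold Nat.ModEq at h5
    rwa [Nat.mod_eq_of_lt (by omega), Nat.mod_eq_of_lt (by omega)] at h5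
  have hinf : S' ⊓ Subgroup.centralizer ({y} : Set G) = S' :=
    Subgroup.eq_of_le_of_card_ge inf_le_left heq.ge
  have hfin : S' ≤ C ⊓ Subgroup.centralizer ({y} : Set G) :=
    le_inf hS'C (inf_eq_left.mp hinf)
  rw [← hcardS] at h2a
  exact h2a.trans (Subgroup.card_dvd_of_le hfin)

end SRC
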