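import Pool.Agent.SRC.A1
import Pool.Agent.SRC.A2
import Pool.Agent.SRC.C2c

set_option autoImplicit false

namespace SRC

/-- PROOF. `C = centralizer {x}`; `y` normalises it (`y x y⁻¹ = x^m`).  `|C| = 2^a P1` with
`a ≤ i ≤ 2` (`|C| ∣ N1 = 2^i P1` by `Hyp.c1`, `P1 ∣ |C|`, `P1` odd), `r ∤ |C|` (`r ∣ P2`),
so by `two_part_fixed`, `2^a ∣ |C ⊓ centralizer {y}|`; this number divides `|C| = 2^a P1` and
`|centralizer {y}|`, which divides `N2 = 2^j P2` (`Hyp.c2`), so it divides `2^a`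
(`Dat.coprime`, `odd1`, `odd2`).  So it is `2^a`, and by `card_inf_centralizer_modEq`,
`2^a ≡ 2^a P1` modulo `r`, so `r ∣ 2^a (P1 - 1)`, and `r` is odd.  (`r ≥ 5`: `Dat.seven_le`.) -/
theorem dvd_P1_sub_one {G : Type*} [Group G] [Finite G] {s : ℤ} {N1 N2 i j P1 P2 : ℕ}
    (d : Dat (Nat.card G) s N1 N2 i j P1 P2) (hyp : Hyp G N1 N2 P1 P2) (p r : ℕ) (hp : p.Prime)
    (hp2 : p ≠ 2) (hpP : p ∣ P1) (hr : r.Prime) (hr2 : r ≠ 2) (hrP : r ∣ P2) (x y : G)
    (hx : orderOf x = p) (hy : orderOf y = r) (hxy : y * x * y⁻¹ ∈ Subgroup.zpowers x)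
    (hP1 : P1 ∣ Nat.card (Subgroup.centralizer ({x} : Set G))) : (r : ℤ) ∣ (P1 : ℤ) - 1 := by
  classical
  have hr7 : 7 ≤ r := d.seven_le hr hr2 (Or.inr hrP)
  have hcop : Nat.Coprime P1 P2 := d.coprime
  have hyr : y ^ r = 1 := hy ▸ pow_orderOf_eq_one y
  have hP1pos : 0 < P1 := by
    have := d.one_lt
    omega
  -- `y` normalises the centralizer
  have hzp : Subgroup.zpowers (y * x * y⁻¹) = Subgroup.zpowers x := by
    apply Subgroup.eq_of_le_of_card_ge (Subgroup.zpowers_le.mpr hxy)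
    rw [Nat.card_zpowers, Nat.card_zpowers]
    have h1 := orderOf_injective (MulAut.conj y).toMonoidHom (MulAut.conj y).injective x
    have h2 : (MulAut.conj y).toMonoidHom x = y * x * y⁻¹ := rfl
    rw [h2] at h1
    rw [h1]
  obtain ⟨k, hk⟩ : ∃ k : ℤ, y * x ^ k * y⁻¹ = x := by
    have h1 : x ∈ Subgroup.zpowers (y * x * y⁻¹) := hzp ▸ Subgroup.mem_zpowers x
    obtain ⟨k, hk⟩ := Subgroup.mem_zpowers_iff.mp h1
    exact ⟨k, by rw [conj_zpow] at hk; exact hk⟩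
  have hn : ∀ c ∈ Subgroup.centralizer ({x} : Set G),
      y * c * y⁻¹ ∈ Subgroup.centralizer ({x} : Set G) := by
    intro c hc
    rw [Subgroup.mem_centralizer_singleton_iff] at hc ⊢
    have hcx : Commute c x := hc
    have h2 : c * x ^ k = x ^ k * c := (hcx.zpow_right k).eq
    calc y * c * y⁻¹ * x = y * c * y⁻¹ * (y * x ^ k * y⁻¹) := by rw [hk]
      _ = y * (c * x ^ k) * y⁻¹ := by group
      _ = y * (x ^ k * c) * y⁻¹ := by rw [h2]
      _ = (y * x ^ k * y⁻¹) * (y * c * y⁻¹) := by group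
      _ = x * (y * c * y⁻¹) := by rw [hk]
  -- the order of the centralizer
  have hC1 := hyp.c1 p hp hp2 hpP x hx
  rw [d.h1] at hC1
  obtain ⟨t, ht⟩ := hP1
  rw [ht, mul_comm (2 ^ i) P1] at hC1
  have ht2 : t ∣ 2 ^ i := Nat.dvd_of_mul_dvd_mul_left hP1pos hC1
  obtain ⟨a, hai, rfl⟩ := (Nat.dvd_prime_pow Nat.prime_two).mp ht2
  have ha2 : a ≤ 2 := by
    rcases d.hi with h | h <;> omega
  have hr2' : Nat.Coprime r 2 := (Nat.coprime_primes hr Nat.prime_two).mpr hr2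
  have hrC : ¬ r ∣ Nat.card (Subgroup.centralizer ({x} : Set G)) := by
    rw [ht]
    intro h
    rcases (Nat.Prime.dvd_mul hr).mp h with h | h
    · have h1 : r ∣ Nat.gcd P1 P2 := Nat.dvd_gcd h hrP
      rw [Nat.Coprime.gcd_eq_one hcop] at h1
      exact hr.one_lt.ne' (Nat.dvd_one.mp h1)
    · have h1 := hr.dvd_of_dvd_pow h
      exact hr2 ((Nat.prime_dvd_prime_iff_eq hr Nat.prime_two).mp h1)
  have hP1c : Nat.Coprime P1 2 := Nat.Coprime.symm (Nat.coprime_two_left.mpr d.odd1)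
  have h8 : ¬ 8 ∣ Nat.card (Subgroup.centralizer ({x} : Set G)) := by
    rw [ht]
    intro h
    have h1 : (2 ^ 3) ∣ 2 ^ a := by
      have h2 : Nat.Coprime (2 ^ 3) P1 := Nat.Coprime.pow_left 3 hP1c.symm
      exact h2.dvd_of_dvd_mul_left (by norm_num; exact h)
    have h2 := (Nat.pow_dvd_pow_iff_le_right (by norm_num : 1 < 2)).mp h1
    omega
  have hfix := two_part_fixed (Subgroup.centralizer ({x} : Set G)) y r hr (by omega) hyr hn hrC a
    (ht ▸ Dvd.intro_left _ rfl) h8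
  have hmod := card_inf_centralizer_modEq (Subgroup.centralizer ({x} : Set G)) y r hr hyr hn
  have hc2 := hyp.c2 r hr hr2 hrP y hy
  rw [d.h2] at hc2
  have hd1 : Nat.card ↥(Subgroup.centralizer ({x} : Set G) ⊓ Subgroup.centralizer ({y} : Set G))
      ∣ P1 * 2 ^ a := ht ▸ Subgroup.card_dvd_of_le inf_le_left
  have hd2 : Nat.card ↥(Subgroup.centralizer ({x} : Set G) ⊓ Subgroup.centralizer ({y} : Set G))
      ∣ 2 ^ j * P2 := (Subgroup.card_dvd_of_le inf_le_right).trans hc2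
  have hcc : Nat.Coprime (Nat.card ↥(Subgroup.centralizer ({x} : Set G) ⊓
      Subgroup.centralizer ({y} : Set G))) P1 := by
    apply Nat.Coprime.coprime_dvd_left hd2
    apply Nat.Coprime.mul_left
    · exact Nat.Coprime.pow_left _ hP1c.symm
    · exact hcop.symm
  have hd3 := hcc.dvd_of_dvd_mul_left hd1
  have heq : Nat.card ↥(Subgroup.centralizer ({x} : Set G) ⊓
      Subgroup.centralizer ({y} : Set G)) = 2 ^ a := Nat.dvd_antisymm hd3 hfix
  rw [heq, ht] at hmod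
  have h3 := (Nat.modEq_iff_dvd.mp hmod)
  push_cast at h3
  have h4 : (P1 : ℤ) * 2 ^ a - 2 ^ a = 2 ^ a * ((P1 : ℤ) - 1) := by ring
  rw [h4] at h3
  have hrZ : Prime (r : ℤ) := Nat.prime_iff_prime_int.mp hr
  rcases hrZ.dvd_or_dvd h3 with h5 | h5
  · exfalso
    have h6 : (r : ℤ) ∣ 2 := hrZ.dvd_of_dvd_pow h5
    have h7 : r ∣ 2 := by exact_mod_cast h6
    exact hr2 ((Nat.prime_dvd_prime_iff_eq hr Nat.prime_two).mp h7)
  · exact h5

end SRC
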