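import Pool.Agent.SRC.A1
import Pool.Agent.SRC.B4
import Pool.Agent.SRC.N2

set_option autoImplicit false

namespace SRC

/-- `|Q ⊓ C(z)|` divides `|C(z)|`, which divides `N1 = 2^i P1` (`Hyp.c1`), and `|Q|`, a power
of `2`; so it divides `2^i` (`P1` odd). -/
theorem card_fix_dvd {G : Type*} [Group G] [Finite G] {s : ℤ} {N1 N2 i j P1 P2 : ℕ}
    (d : Dat (Nat.card G) s N1 N2 i j P1 P2) (hyp : Hyp G N1 N2 P1 P2) (Q : Subgroup G)
    (hQ : IsPGroup 2 Q) (p : ℕ) (hp : p.Prime) (hp2 : p ≠ 2) (hpP : p ∣ P1) (z : G)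
    (hz : orderOf z = p) : Nat.card ↥(Q ⊓ Subgroup.centralizer ({z} : Set G)) ∣ 2 ^ i := by
  obtain ⟨a, ha⟩ := (IsPGroup.iff_card (p := 2)).1 hQ
  have h1 : Nat.card ↥(Q ⊓ Subgroup.centralizer ({z} : Set G)) ∣ 2 ^ a := by
    rw [← ha]
    exact Subgroup.card_dvd_of_le inf_le_left
  have h2 : Nat.card ↥(Q ⊓ Subgroup.centralizer ({z} : Set G)) ∣ 2 ^ i * P1 := by
    rw [← d.h1]
    exact (Subgroup.card_dvd_of_le inf_le_right).trans (hyp.c1 p hp hp2 hpP z hz)
  have h3 : Nat.Coprime (Nat.card ↥(Q ⊓ Subgroup.centralizer ({z} : Set G))) P1 := by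
    apply Nat.Coprime.coprime_dvd_left h1
    apply Nat.Coprime.pow_left
    exact (Nat.coprime_two_left).2 d.odd1
  exact h3.dvd_of_dvd_mul_right h2

/-- a free action: the order of the group divides the number of points -/
theorem free_dvd {Y X : Type*} [Group Y] [MulAction Y X] [Finite Y] [Finite X]
    (h : ∀ x : X, MulAction.stabilizer Y x = ⊥) : Nat.card Y ∣ Nat.card X := by
  classical
  have := Fintype.ofFinite Y
  have := Fintype.ofFinite X
  have := Fintype.ofFinite (Quotient (MulAction.orbitRel Y X))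
  rw [Nat.card_congr (MulAction.selfEquivSigmaOrbits Y X), Nat.card_sigma]
  apply Finset.dvd_sum
  intro ω _
  have h1 := MulAction.card_orbit_mul_card_stabilizer_eq_card_group Y ω.out
  rw [← Nat.card_eq_fintype_card, ← Nat.card_eq_fintype_card, ← Nat.card_eq_fintype_card,
    h ω.out] at h1
  rw [← h1]
  simp

/-- A Sylow `p`-subgroup acts semiregularly outside the fixed points of a central element. -/
theorem pow_dvd_card_sub {G : Type*} [Group G] [Finite G] (Q : Subgroup G) (hQ : Core Q)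
    (hC : Subgroup.centralizer (Q : Set G) ≤ Q) (p b : ℕ) (hp : p.Prime) (hp5 : 5 ≤ p)
    (hfix : ∀ z : G, orderOf z = p → Nat.card ↥(Q ⊓ Subgroup.centralizer ({z} : Set G)) ∣ 4)
    (hb : 1 ≤ b) (hbG : p ^ b ∣ Nat.card G) :
    ∃ z : G, orderOf z = p ∧
      ((p ^ b : ℕ) : ℤ) ∣ (Nat.card Q : ℤ) -
        (Nat.card ↥(Q ⊓ Subgroup.centralizer ({z} : Set G)) : ℤ) := by
  classical
  have hfp : Fact p.Prime := ⟨hp⟩
  obtain ⟨Y⟩ : Nonempty (Sylow p G) := inferInstance
  have hYb : p ^ b ∣ Nat.card (Y : Subgroup G) := by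
    rw [Sylow.card_eq_multiplicity]
    exact pow_dvd_pow p ((hp.pow_dvd_iff_le_factorization Nat.card_pos.ne').1 hbG)
  have hpY : IsPGroup p (Y : Subgroup G) := Y.isPGroup'
  have hYnt : Nontrivial (Y : Subgroup G) := by
    rw [← Finite.one_lt_card_iff_nontrivial]
    have h1 : p ∣ Nat.card (Y : Subgroup G) := (dvd_pow_self p (by omega)).trans hYb
    exact lt_of_lt_of_le hp.one_lt (Nat.le_of_dvd Nat.card_pos h1)
  have hZnt := hpY.center_nontrivial
  have hpZ : p ∣ Nat.card (Subgroup.center (Y : Subgroup G)) := by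
    have h1 : IsPGroup p (Subgroup.center (Y : Subgroup G)) := hpY.to_subgroup _
    obtain ⟨k, hk⟩ := (IsPGroup.iff_card (p := p)).1 h1
    have h2 := Finite.one_lt_card_iff_nontrivial.2 hZnt
    rw [hk] at h2 ⊢
    apply dvd_pow_self
    rintro rfl
    simp at h2
  obtain ⟨z₀, hz₀⟩ := exists_prime_orderOf_dvd_card' p hpZ
  set z : G := ((z₀ : (Y : Subgroup G)) : G) with hzdef
  have hz : orderOf z = p := by
    rw [hzdef, Subgroup.orderOf_coe, Subgroup.orderOf_coe, hz₀]
  have hzY : z ∈ (Y : Subgroup G) := (z₀ : (Y : Subgroup G)).2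
  have hzc : ∀ y ∈ (Y : Subgroup G), y * z = z * y := by
    intro y hy
    have h1 := Subgroup.mem_center_iff.1 z₀.2 ⟨y, hy⟩
    exact congrArg (Subtype.val) h1
  refine ⟨z, hz, ?_⟩
  have hQn := hQ.normal
  set F := Q ⊓ Subgroup.centralizer ({z} : Set G) with hF
  have hFmem : ∀ u : G, u ∈ F ↔ u ∈ Q ∧ u * z = z * u := by
    intro u
    rw [hF, Subgroup.mem_inf, Subgroup.mem_centralizer_singleton_iff]
  let X := {u : G // u ∈ Q ∧ u ∉ F}
  have hinv : ∀ y ∈ (Y : Subgroup G), ∀ u : G, (u ∈ Q ∧ u ∉ F) →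
      (y * u * y⁻¹ ∈ Q ∧ y * u * y⁻¹ ∉ F) := by
    intro y hy u hu
    refine ⟨hQn.conj_mem u hu.1 y, ?_⟩
    intro hcon
    apply hu.2
    rw [hFmem] at hcon ⊢
    refine ⟨hu.1, ?_⟩
    have h1 := hcon.2
    have h2 := hzc y hy
    have h3 : y⁻¹ * z = z * y⁻¹ := by
      have := congrArg (fun t => y⁻¹ * t * y⁻¹) h2
      simp only [mul_assoc] at this
      simpa [mul_assoc] using this.symm
    calc u * z = y⁻¹ * (y * u * y⁻¹) * (y * z) := by group
      _ = y⁻¹ * (y * u * y⁻¹) * (z * y) := by rw [h2]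
      _ = y⁻¹ * ((y * u * y⁻¹) * z) * y := by group
      _ = y⁻¹ * (z * (y * u * y⁻¹)) * y := by rw [h1]
      _ = (y⁻¹ * z) * y * u := by group
      _ = (z * y⁻¹) * y * u := by rw [h3]
      _ = z * u := by group
  letI : MulAction (Y : Subgroup G) X :=
    { smul := fun y u => ⟨(y : G) * u.1 * (y : G)⁻¹, hinv y y.2 u.1 u.2⟩
      one_smul := by
        intro u
        apply Subtype.ext
        change (1 : G) * u.1 * (1 : G)⁻¹ = u.1
        simp
      mul_smul := by
        intro y y' u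
        apply Subtype.ext
        change ((y * y' : (Y : Subgroup G)) : G) * u.1 * ((y * y' : (Y : Subgroup G)) : G)⁻¹ =
          (y : G) * ((y' : G) * u.1 * (y' : G)⁻¹) * (y : G)⁻¹
        push_cast
        group }
  have hfree : ∀ u : X, MulAction.stabilizer (Y : Subgroup G) u = ⊥ := by
    intro u
    rw [Subgroup.eq_bot_iff_forall]
    intro y hy
    rw [MulAction.mem_stabilizer_iff] at hy
    have hyu : (y : G) * u.1 * (y : G)⁻¹ = u.1 := congrArg Subtype.val hy
    by_contra hy1
    -- a power of order `p`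
    obtain ⟨k, hk⟩ := (IsPGroup.iff_orderOf (p := p)).1 hpY y
    have hk0 : k ≠ 0 := by
      rintro rfl
      rw [pow_zero, orderOf_eq_one_iff] at hk
      exact hy1 hk
    have hyk : orderOf (y : G) = p ^ k := by rw [Subgroup.orderOf_coe, hk]
    set y' : G := (y : G) ^ (p ^ (k - 1)) with hy'
    have hoy' : orderOf y' = p := by
      have h1 : p ^ k = p ^ (k - 1) * p := by
        rw [← pow_succ, Nat.sub_add_cancel (Nat.one_le_iff_ne_zero.2 hk0)]
      rw [hy', orderOf_pow_of_dvd (pow_pos hp.pos _).ne' (by rw [hyk, h1]; exact dvd_mul_right _ _),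
        hyk, h1, Nat.mul_div_cancel_left _ (pow_pos hp.pos _)]
    have hy'c : z * y' = y' * z := by
      have h1 : Commute z (y : G) := (hzc y y.2).symm
      exact (h1.pow_right _)
    have hy'u : y' * u.1 = u.1 * y' := by
      have h1 : Commute (y : G) u.1 := by
        have h2 := congrArg (fun t => t * (y : G)) hyu
        simpa [Commute, SemiconjBy, mul_assoc] using h2
      exact h1.pow_left _
    by_cases hmem : y' ∈ Subgroup.zpowers z
    · -- then `z` is a power of `y'`
      have hle : Subgroup.zpowers y' ≤ Subgroup.zpowers z := by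
        rwa [Subgroup.zpowers_le]
      have heq : Subgroup.zpowers y' = Subgroup.zpowers z := by
        apply Subgroup.eq_of_le_of_card_ge hle
        rw [Nat.card_zpowers, Nat.card_zpowers, hz, hoy']
      have hzy : z ∈ Subgroup.zpowers y' := by
        rw [heq]; exact Subgroup.mem_zpowers z
      obtain ⟨m, hm⟩ := Subgroup.mem_zpowers_iff.1 hzy
      apply u.2.2
      rw [hFmem]
      refine ⟨u.2.1, ?_⟩
      have h1 : Commute y' u.1 := hy'u
      have h2 : Commute (y' ^ m) u.1 := h1.zpow_left m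
      rw [hm] at h2
      exact h2.symm
    · exact no_rank_two Q hQ hC p hp hp5 hfix z y' hz hoy' hy'c hmem
  have hdvd := free_dvd hfree
  have hcardX : (Nat.card X : ℤ) = (Nat.card Q : ℤ) - (Nat.card F : ℤ) := by
    have hFQ : F ≤ Q := inf_le_left
    have h1 : Nat.card Q = Nat.card F + Nat.card X := by
      have e1 : Nat.card Q = Nat.card {u : G // u ∈ Q} := rfl
      have e2 : Nat.card F = Nat.card {u : G // u ∈ Q ∧ u ∈ F} := by
        apply Nat.card_congr
        exact Equiv.subtypeEquivRight (fun u => ⟨fun h => ⟨hFQ h, h⟩, fun h => h.2⟩)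
      rw [e1, e2]
      rw [← Nat.card_sum]
      apply Nat.card_congr
      refine
        { toFun := fun u => if h : u.1 ∈ F then Sum.inl ⟨u.1, u.2, h⟩ else Sum.inr ⟨u.1, u.2, h⟩
          invFun := fun w => Sum.elim (fun a => ⟨a.1, a.2.1⟩) (fun a => ⟨a.1, a.2.1⟩) w
          left_inv := ?_
          right_inv := ?_ }
      · intro u
        by_cases h : u.1 ∈ F <;> simp [h]
      · rintro (w | w)
        · simp [w.2.2]
        · simp [w.2.2]
    rw [h1]
    push_cast
    ring
  rw [← hcardX]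
  exact_mod_cast hYb.trans hdvd

end SRC
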