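import Pool.Agent.SRC.N3a

set_option autoImplicit false

namespace SRC

/-- PROOF. `c ∣ 2^i`, so `2^t c = 2^f`.  Suppose `t ≥ i`, so that `2^i ∣ 2^t c` and
`2^t c = 2^i 2^e`, `e = f - i`.  `cx m = 2^i P1`; multiply `2^t P1 c = idx cx` by `m`:
`2^i 2^e P1 m = idx 2^i P1`, so `2^e m = idx`, `2^e ∣ p - 1`.  And
`(2^t c)^2 - 2^i (2^t c) + 2^(2i+1) = 2^(2i) ((2^e)^2 - 2^e + 2)`, so `p ∣ (2^e)^2 - 2^e + 2`
(`p` odd): contradiction to `arith_eta`. -/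
theorem lt_of_index (p i t c P1 idx cx : ℕ) (hp : p.Prime) (hp2 : p ≠ 2) (hP1 : 0 < P1)
    (hc : c ∣ 2 ^ i) (h1 : 2 ^ t * P1 * c = idx * cx) (h2 : cx ∣ 2 ^ i * P1) (h3 : idx ∣ p - 1)
    (hq : (p : ℤ) ∣ (2 ^ t * (c : ℤ)) ^ 2 - 2 ^ i * (2 ^ t * (c : ℤ)) + 2 ^ (2 * i + 1)) :
    t + 1 ≤ i := by
  by_contra hcon
  have hti : i ≤ t := by omega
  obtain ⟨b, hb, rfl⟩ := (Nat.dvd_prime_pow Nat.prime_two).mp hc
  obtain ⟨e, he⟩ : ∃ e, t + b = i + e := ⟨t + b - i, by omega⟩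
  obtain ⟨m, hm⟩ := h2
  have h4 : 2 ^ e * m = idx := by
    have h5 : (2 ^ i * P1) * (2 ^ e * m) = (2 ^ i * P1) * idx := by
      calc (2 ^ i * P1) * (2 ^ e * m) = (2 ^ (i + e)) * P1 * m := by rw [pow_add]; ring
        _ = (2 ^ t * P1 * 2 ^ b) * m := by rw [← he, pow_add]; ring
        _ = idx * (cx * m) := by rw [h1]; ring
        _ = (2 ^ i * P1) * idx := by rw [← hm]; ring
    exact Nat.eq_of_mul_eq_mul_left (by positivity) h5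
  have h6 : 2 ^ e ∣ p - 1 := (Dvd.intro m h4).trans h3
  have h7 : (2 ^ t * (((2 ^ b : ℕ) : ℤ))) = 2 ^ i * 2 ^ e := by
    push_cast
    rw [← pow_add, ← pow_add, he]
  rw [h7] at hq
  have h8 : (2 ^ i * 2 ^ e : ℤ) ^ 2 - 2 ^ i * (2 ^ i * 2 ^ e) + 2 ^ (2 * i + 1)
      = 2 ^ (2 * i) * ((2 ^ e) ^ 2 - 2 ^ e + 2) := by
    rw [pow_succ, pow_mul' 2 2 i]
    ring
  rw [h8] at hq
  have hpZ : Prime (p : ℤ) := Nat.prime_iff_prime_int.mp hp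
  rcases hpZ.dvd_or_dvd hq with h9 | h9
  · have h10 : (p : ℤ) ∣ 2 := hpZ.dvd_of_dvd_pow h9
    have h11 : p ∣ 2 := by exact_mod_cast h10
    exact hp2 ((Nat.prime_dvd_prime_iff_eq hp Nat.prime_two).mp h11)
  · exact arith_eta p e hp hp2 h6 h9

end SRC
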