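import Mathlib
import Pool.Agent.MP_e446a9_co.Defs

/-!
# MP_e446a9_co, SRC: strongly regular graphs with `λ = 0`, `μ = 2` are not Cayley graphs of solvable
groups.  Common definitions.
-/

set_option autoImplicit false

namespace SRC

open RectCay

/-- the number of words `a₁ a₂ ... a_L` with letters in `D` and with value `h` -/
def cw {G : Type*} [Group G] [DecidableEq G] (D : Finset G) : ℕ → G → ℕ
  | 0, h => if h = 1 then 1 else 0
  | (L + 1), h => ∑ a ∈ D, cw D L (a⁻¹ * h)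

/-- twisted closed walks: sequences `y₀, y₁, y₂, ...` of elements of `G` such that
`yᵢ⁻¹ yᵢ₊₁ ∈ D` and `yᵢ₊L = g yᵢ` for all `i`. -/
def TS {G : Type*} [Group G] (D : Finset G) (g : G) (L : ℕ) : Type _ :=
  {y : ℕ → G // (∀ i, (y i)⁻¹ * y (i + 1) ∈ D) ∧ ∀ i, y (i + L) = g * y i}

/-- The numerical data: `g` is the order of the group, `s = n` or `s = - n`. -/
structure Dat (g : ℕ) (s : ℤ) (N1 N2 i j P1 P2 : ℕ) : Prop where
  hs : 5 ≤ |s|
  hg : 2 * g = N1 * N2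
  e1 : (N1 : ℤ) = s ^ 2 - s + 2
  e2 : (N2 : ℤ) = s ^ 2 + s + 2
  h1 : N1 = 2 ^ i * P1
  h2 : N2 = 2 ^ j * P2
  hi : i = 1 ∨ i = 2
  hij : i < j
  odd1 : Odd P1
  odd2 : Odd P2

/-- The information on the group that comes from the graph. -/
structure Hyp (G : Type*) [Group G] (N1 N2 P1 P2 : ℕ) : Prop where
  c1 : ∀ p : ℕ, p.Prime → p ≠ 2 → p ∣ P1 → ∀ x : G, orderOf x = p →
    Nat.card (Subgroup.centralizer ({x} : Set G)) ∣ N1
  c2 : ∀ p : ℕ, p.Prime → p ≠ 2 → p ∣ P2 → ∀ x : G, orderOf x = p →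
    Nat.card (Subgroup.centralizer ({x} : Set G)) ∣ N2
  el : ∀ p : ℕ, p.Prime → p ≠ 2 → ∀ E : Subgroup G, E.Normal → (∀ x ∈ E, x ^ p = 1) → E = ⊥

/-- `Q` is a maximal normal `2`-subgroup of `G`. -/
structure Core {G : Type*} [Group G] (Q : Subgroup G) : Prop where
  normal : Q.Normal
  two : IsPGroup 2 Q
  max : ∀ R : Subgroup G, R.Normal → IsPGroup 2 R → Q ≤ R → R = Q

/-- `R / Q` is a nontrivial elementary abelian `p`-group. -/
structure Elem {G : Type*} [Group G] (Q R : Subgroup G) (p : ℕ) : Prop where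
  normal : R.Normal
  le : Q ≤ R
  ne : ¬ R ≤ Q
  pow_mem : ∀ x ∈ R, x ^ p ∈ Q
  comm_mem : ∀ x ∈ R, ∀ y ∈ R, x * y * x⁻¹ * y⁻¹ ∈ Q

/-- conjugation by `y` on a subgroup normalised by `y` -/
def conjOn {G : Type*} [Group G] (H : Subgroup G) (y : G) (hy : ∀ h ∈ H, y * h * y⁻¹ ∈ H)
    (hy' : ∀ h ∈ H, y⁻¹ * h * y ∈ H) : MulAut H where
  toFun h := ⟨y * h * y⁻¹, hy _ h.2⟩
  invFun h := ⟨y⁻¹ * h * y, hy' _ h.2⟩
  left_inv h := by ext; simp [mul_assoc]
  right_inv h := by ext; simp [mul_assoc]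
  map_mul' a b := by ext; simp [mul_assoc]

theorem conjOn_apply {G : Type*} [Group G] (H : Subgroup G) (y : G)
    (hy : ∀ h ∈ H, y * h * y⁻¹ ∈ H) (hy' : ∀ h ∈ H, y⁻¹ * h * y ∈ H) (h : H) :
    ((conjOn H y hy hy' h : H) : G) = y * h * y⁻¹ := rfl

theorem conjOn_pow_apply {G : Type*} [Group G] (H : Subgroup G) (y : G)
    (hy : ∀ h ∈ H, y * h * y⁻¹ ∈ H) (hy' : ∀ h ∈ H, y⁻¹ * h * y ∈ H) (k : ℕ) (h : H) :
    ((((conjOn H y hy hy') ^ k) h : H) : G) = y ^ k * h * (y ^ k)⁻¹ := by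
  induction k with
  | zero => simp
  | succ k ih =>
    rw [pow_succ', MulAut.mul_apply, conjOn_apply, ih, pow_succ']
    group

theorem conjOn_pow_eq_one {G : Type*} [Group G] (H : Subgroup G) (y : G)
    (hy : ∀ h ∈ H, y * h * y⁻¹ ∈ H) (hy' : ∀ h ∈ H, y⁻¹ * h * y ∈ H) (k : ℕ) (hk : y ^ k = 1) :
    (conjOn H y hy hy') ^ k = 1 := by
  ext h
  rw [conjOn_pow_apply, hk]
  simp

/-- in the finite-order case one of the two inclusions is enough -/
theorem inv_conj_mem {G : Type*} [Group G] (H : Subgroup G) (y : G)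
    (hy : ∀ h ∈ H, y * h * y⁻¹ ∈ H) (k : ℕ) (hk0 : 0 < k) (hk : y ^ k = 1) :
    ∀ h ∈ H, y⁻¹ * h * y ∈ H := by
  have key : ∀ m : ℕ, ∀ h ∈ H, y ^ m * h * (y ^ m)⁻¹ ∈ H := by
    intro m
    induction m with
    | zero => intro h hh; simpa using hh
    | succ m ih =>
      intro h hh
      have := hy _ (ih h hh)
      have e : y ^ (m + 1) * h * (y ^ (m + 1))⁻¹ = y * (y ^ m * h * (y ^ m)⁻¹) * y⁻¹ := by
        rw [pow_succ']; group
      rw [e]; exact this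
  intro h hh
  have h1 := key (k - 1) h hh
  have e : y ^ (k - 1) = y⁻¹ := by
    have : y ^ (k - 1) * y = 1 := by
      rw [← pow_succ, Nat.sub_add_cancel hk0, hk]
    exact eq_inv_of_mul_eq_one_left this
  rw [e, inv_inv] at h1
  exact h1

end SRC
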