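import Pool.Agent.SRC.Defs
import Pool.Agent.SRC.N2

set_option autoImplicit false

namespace SRC

variable {g : ℕ} {s : ℤ} {N1 N2 i j P1 P2 : ℕ}

/-- PROOF. `2^(i+j-1) = 2^(i-1) N2` (as `P2 = 1`), `2 * 2^(i-1) = 2^i`.  Modulo `q`:
`N1 ≡ 0`, so `N2 ≡ 2 s` and `u = 2^t c ≡ 2^t 2^a = 2^(i+j-1) ≡ 2^(i-1) 2 s = 2^i s`.  Hence
`u^2 - 2^i u + 2^(2i+1) ≡ 2^(2i) s^2 - 2^(2i) s + 2^(2i) 2 = 2^(2i) N1 ≡ 0`. -/
theorem Dat.quad (d : Dat g s N1 N2 i j P1 P2) (hP2 : P2 = 1) (q a t c : ℕ) (hq : q ∣ P1)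
    (hat : a + t = i + j - 1) (hc : (q : ℤ) ∣ 2 ^ a - (c : ℤ)) :
    (q : ℤ) ∣ (2 ^ t * (c : ℤ)) ^ 2 - 2 ^ i * (2 ^ t * (c : ℤ)) + 2 ^ (2 * i + 1) := by
  obtain ⟨k, hk⟩ := hq
  obtain ⟨w, hw⟩ := hc
  have hN1 : (N1 : ℤ) = q * (2 ^ i * k) := by
    rw [d.h1, hk]; push_cast; ring
  have hN2 : (N2 : ℤ) = 2 ^ j := by
    rw [d.h2, hP2]; push_cast; ring
  have hdiff : (2 : ℤ) ^ j = q * (2 ^ i * k) + 2 * s := by
    rw [← hN2, ← hN1, d.e1, d.e2]; ring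
  have hi1 : 1 ≤ i := by rcases d.hi with h | h <;> omega
  obtain ⟨i', rfl⟩ : ∃ i', i = i' + 1 := ⟨i - 1, by omega⟩
  have hpow : (2 : ℤ) ^ t * 2 ^ a = 2 ^ i' * 2 ^ j := by
    rw [← pow_add, ← pow_add]; congr 1; omega
  have hu : (2 : ℤ) ^ t * c = 2 ^ (i' + 1) * s + q * (2 ^ i' * (2 ^ (i' + 1) * k) - 2 ^ t * w) := by
    have h1 : (c : ℤ) = 2 ^ a - q * w := by linarith
    rw [h1, mul_sub, hpow, hdiff]
    ring
  have hs : s ^ 2 - s + 2 = q * (2 ^ (i' + 1) * k) := by rw [← d.e1, hN1]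
  rw [hu]
  set z := (2 : ℤ) ^ i' * (2 ^ (i' + 1) * k) - 2 ^ t * w with hz
  refine ⟨2 ^ (2 * (i' + 1)) * (2 ^ (i' + 1) * k) + 2 * 2 ^ (i' + 1) * s * z + q * z ^ 2
    - 2 ^ (i' + 1) * z, ?_⟩
  have e1 : (2 : ℤ) ^ (2 * (i' + 1)) = (2 ^ (i' + 1)) ^ 2 := by rw [← pow_mul, mul_comm]
  have e2 : (2 : ℤ) ^ (2 * (i' + 1) + 1) = 2 * (2 ^ (i' + 1)) ^ 2 := by
    rw [pow_succ, e1]; ring
  rw [e2, e1]
  linear_combination ((2 : ℤ) ^ (i' + 1)) ^ 2 * hs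

/-- PROOF. `e = 0`: `p ∣ 2`.  `e = 1`: `p ∣ 4 - 2 + 2 = 4`.  `e ≥ 2`: write `η = 2^e`,
`p = 1 + η m`, `m ≥ 1` and `η^2 - η + 2 = p w`.  Modulo `η`: `w ≡ 2`, so `w = 2 + η l` with
`l ≥ 0` (`w ≥ 1`, `η ≥ 4`).  `l = 0`: `2 + 2 η m = η^2 - η + 2`, `2 m = η - 1`, parity
contradiction.  `l ≥ 1`: `p w ≥ (1+η)(2+η) > η^2 - η + 2`. -/
theorem arith_eta (p e : ℕ) (hp : p.Prime) (hp2 : p ≠ 2) (h1 : 2 ^ e ∣ p - 1)
    (h2 : (p : ℤ) ∣ (2 ^ e : ℤ) ^ 2 - 2 ^ e + 2) : False := by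
  have hp3 : 2 < p := lt_of_le_of_ne hp.two_le (Ne.symm hp2)
  rcases Nat.lt_or_ge e 2 with he | he
  · interval_cases e
    · have h3 : (p : ℤ) ∣ 2 := by simpa using h2
      have h4 := Int.le_of_dvd (by norm_num) h3
      omega
    · have h3 : (p : ℤ) ∣ 4 := by
        have : ((2 : ℤ) ^ 1) ^ 2 - 2 ^ 1 + 2 = 4 := by norm_num
        rwa [this] at h2
      have h4 : p ∣ 2 ^ 2 := by exact_mod_cast h3
      have h5 := hp.dvd_of_dvd_pow h4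
      have h6 := Nat.le_of_dvd (by norm_num) h5
      omega
  · obtain ⟨m, hm⟩ := h1
    obtain ⟨w, hw⟩ := h2
    obtain ⟨η', hη'⟩ : ∃ η' : ℕ, 2 ^ e = 4 * η' := ⟨2 ^ (e - 2), by
      rw [show (4 : ℕ) = 2 ^ 2 by norm_num, ← pow_add]; congr 1; omega⟩
    have hη'1 : 1 ≤ η' := by
      rcases Nat.eq_zero_or_pos η' with h | h
      · rw [h] at hη'
        have : 0 < 2 ^ e := Nat.two_pow_pos e
        omega
      · exact h
    have hηZ : (2 : ℤ) ^ e = 4 * (η' : ℤ) := by exact_mod_cast hη'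
    have hpm : (p : ℤ) = 1 + 4 * η' * m := by
      have : p = 1 + 4 * η' * m := by rw [← hη', ← hm]; omega
      exact_mod_cast this
    have hm1 : 1 ≤ m := by
      rcases Nat.eq_zero_or_pos m with h | h
      · rw [h] at hm; omega
      · exact h
    rw [hηZ] at hw
    set η : ℤ := (η' : ℤ) with hηd
    have hη1 : (1 : ℤ) ≤ η := by rw [hηd]; exact_mod_cast hη'1
    have hmZ : (1 : ℤ) ≤ m := by exact_mod_cast hm1
    have hwpos : 0 < w := by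
      by_contra hcon
      have h3 : w ≤ 0 := not_lt.1 hcon
      have h4 : (p : ℤ) * w ≤ 0 := mul_nonpos_of_nonneg_of_nonpos (by positivity) h3
      nlinarith
    have hl : w = 2 + 4 * η * (4 * η - 1 - m * w) := by
      rw [hpm] at hw
      linarith
    set l : ℤ := 4 * η - 1 - m * w with hld
    have hl0 : 0 ≤ l := by
      by_contra hcon
      have h3 : l ≤ -1 := by omega
      nlinarith
    rcases eq_or_lt_of_le hl0 with h3 | h3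
    · rw [← h3] at hl hld
      rw [mul_zero, add_zero] at hl
      rw [hl] at hld
      omega
    · have h4 : 2 + 4 * η ≤ w := by nlinarith
      have h5 : 1 + 4 * η ≤ (p : ℤ) := by rw [hpm]; nlinarith
      have h6 : (1 + 4 * η) * (2 + 4 * η) ≤ (p : ℤ) * w :=
        mul_le_mul h5 h4 (by linarith) (by linarith)
      rw [← hw] at h6
      nlinarith

end SRC
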