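import Pool.Agent.SRC.Defs
import Pool.Agent.SRC.N2

set_option autoImplicit false

namespace SRC

variable {g : ℕ} {s : ℤ} {N1 N2 i j P1 P2 : ℕ}

theorem n3b_odd {q m k r : ℕ} (hq : Odd q) (h : q ∣ m) (hm : m = 2 ^ k * r) : q ∣ r := by
  rw [hm] at h
  exact (Nat.Coprime.pow_right k (Nat.coprime_two_right.2 hq)).dvd_of_dvd_mul_left h

/-- PROOF. `i = 1`: the hypothesis on prime powers gives (`t = 0`, `c ∈ {1, 2}`): `q ∣ 7` (`c = 1`)
or `q ∣ 8` (`c = 2`; impossible for an odd prime power `q ≠ 1`), so every prime power dividing `P1`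
divides `7`, so `P1 ∣ 7`, `N1 = 2 P1 ≤ 14`, but `N1 = s^2 - s + 2 ≥ 22`.
`i = 2`: `t ≤ 1`, `c ∈ {1,2,4}`, `u = 2^t c ∈ {1,2,4,8}`, `u^2 - 4u + 32 = 29, 28, 32, 64`; so every
prime power `q` dividing `P1` divides `29` or `7`, so it divides `203 = 7 * 29`, and `P1 ∣ 203`
(`Nat.dvd_of_forall_prime_pow_dvd`-like: `(Nat.dvd_iff_prime_pow_dvd_dvd _ _).2`), so
`N1 = 4 P1 ∣ 812` and `s^2 - s + 2 ∈ {4, 28, 116, 812}`: no integer `s` with `|s| ≥ 5`
(`|s| ≤ 29`, `interval_cases`/`decide`). -/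
theorem Dat.finish (d : Dat g s N1 N2 i j P1 P2) (t : ℕ) (ht : t + 1 ≤ i)
    (h : ∀ q : ℕ, IsPrimePow q → q ∣ P1 → ∃ c : ℕ, c ∣ 2 ^ i ∧
      (q : ℤ) ∣ (2 ^ t * (c : ℤ)) ^ 2 - 2 ^ i * (2 ^ t * (c : ℤ)) + 2 ^ (2 * i + 1)) : False := by
  have hP1 := d.one_lt
  have hodd : ∀ q, q ∣ P1 → Odd q := fun q hq => Odd.of_dvd_nat d.odd1 hq
  have hN1 : (2 : ℤ) ^ i * P1 = s ^ 2 - s + 2 := by
    rw [← d.e1, d.h1]; push_cast; ring
  have hs := d.hs
  have hs' : s ≤ -5 ∨ 5 ≤ s := by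
    rcases le_abs'.1 hs with h | h
    · exact Or.inl h
    · exact Or.inr h
  -- every prime power dividing `P1` divides `203`, or `7` if `i = 1`
  rcases d.hi with hi | hi
  · subst hi
    have ht0 : t = 0 := by omega
    subst ht0
    have key : P1 ∣ 7 := by
      rw [Nat.dvd_iff_prime_pow_dvd_dvd]
      intro p k hp hk
      rcases Nat.eq_zero_or_pos k with hk0 | hk0
      · rw [hk0, pow_zero]; exact one_dvd _
      obtain ⟨c, hc, hq⟩ := h (p ^ k) (hp.isPrimePow.pow hk0.ne') hk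
      have hqo := hodd _ hk
      have hc2 : c ≤ 2 := Nat.le_of_dvd (by norm_num) hc
      have hc0 : c ≠ 0 := by rintro rfl; revert hc; decide
      have hc12 : c = 1 ∨ c = 2 := by omega
      rcases hc12 with rfl | rfl
      · have h7 : ((p ^ k : ℕ) : ℤ) ∣ ((7 : ℕ) : ℤ) := by
          have : (((7 : ℕ) : ℤ)) = (2 ^ 0 * ((1 : ℕ) : ℤ)) ^ 2 - 2 ^ 1 * (2 ^ 0 * ((1 : ℕ) : ℤ))
            + 2 ^ (2 * 1 + 1) := by norm_num
          rw [this]; exact hq
        exact Int.natCast_dvd_natCast.1 h7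
      · have h8 : ((p ^ k : ℕ) : ℤ) ∣ ((8 : ℕ) : ℤ) := by
          have : (((8 : ℕ) : ℤ)) = (2 ^ 0 * ((2 : ℕ) : ℤ)) ^ 2 - 2 ^ 1 * (2 ^ 0 * ((2 : ℕ) : ℤ))
            + 2 ^ (2 * 1 + 1) := by norm_num
          rw [this]; exact hq
        have h1 := n3b_odd (k := 3) (r := 1) hqo (Int.natCast_dvd_natCast.1 h8) (by norm_num)
        exact h1.trans (one_dvd _)
    have hle := Nat.le_of_dvd (by norm_num) key
    have hle' : (P1 : ℤ) ≤ 7 := by exact_mod_cast hle
    rcases hs' with h5 | h5 <;> nlinarith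
  · subst hi
    have key : P1 ∣ 203 := by
      rw [Nat.dvd_iff_prime_pow_dvd_dvd]
      intro p k hp hk
      rcases Nat.eq_zero_or_pos k with hk0 | hk0
      · rw [hk0, pow_zero]; exact one_dvd _
      obtain ⟨c, hc, hq⟩ := h (p ^ k) (hp.isPrimePow.pow hk0.ne') hk
      have hqo := hodd _ hk
      have hc2 : c ≤ 4 := Nat.le_of_dvd (by norm_num) hc
      have hc0 : c ≠ 0 := by rintro rfl; revert hc; decide
      have hc3 : c ≠ 3 := by rintro rfl; revert hc; decide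
      have hc12 : c = 1 ∨ c = 2 ∨ c = 4 := by omega
      have ht01 : t = 0 ∨ t = 1 := by omega
      have hcase : ((p ^ k : ℕ) : ℤ) ∣ ((29 : ℕ) : ℤ) ∨ ((p ^ k : ℕ) : ℤ) ∣ ((28 : ℕ) : ℤ) ∨
          ((p ^ k : ℕ) : ℤ) ∣ ((32 : ℕ) : ℤ) ∨ ((p ^ k : ℕ) : ℤ) ∣ ((64 : ℕ) : ℤ) := by
        rcases ht01 with rfl | rfl <;> rcases hc12 with rfl | rfl | rfl <;>
          norm_num at hq ⊢ <;> tauto
      rcases hcase with h1 | h1 | h1 | h1
      · exact (Int.natCast_dvd_natCast.1 h1).trans (by norm_num)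
      · exact (n3b_odd (k := 2) (r := 7) hqo (Int.natCast_dvd_natCast.1 h1) (by norm_num)).trans
          (by norm_num)
      · exact (n3b_odd (k := 5) (r := 1) hqo (Int.natCast_dvd_natCast.1 h1) (by norm_num)).trans
          (by norm_num)
      · exact (n3b_odd (k := 6) (r := 1) hqo (Int.natCast_dvd_natCast.1 h1) (by norm_num)).trans
          (by norm_num)
    have hmem : P1 ∈ Nat.divisors 203 := Nat.mem_divisors.2 ⟨key, by norm_num⟩
    have hdiv : Nat.divisors 203 = {1, 7, 29, 203} := by decide +kernel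
    rw [hdiv] at hmem
    simp only [Finset.mem_insert, Finset.mem_singleton] at hmem
    have hsle : s ≤ 29 := by
      by_contra hcon
      have hle := Nat.le_of_dvd (by norm_num) key
      have hle' : (P1 : ℤ) ≤ 203 := by exact_mod_cast hle
      nlinarith
    have hsge : -29 ≤ s := by
      by_contra hcon
      have hle := Nat.le_of_dvd (by norm_num) key
      have hle' : (P1 : ℤ) ≤ 203 := by exact_mod_cast hle
      nlinarith
    rcases hmem with rfl | rfl | rfl | rfl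
    · omega
    · interval_cases s <;> omega
    · interval_cases s <;> omega
    · interval_cases s <;> omega

end SRC
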