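import Pool.Agent.SRC.A4
import Pool.Agent.SRC.A5
import Pool.Agent.SRC.B4
import Pool.Agent.SRC.C1a
import Pool.Agent.SRC.C1b
import Pool.Agent.SRC.C2a
import Pool.Agent.SRC.C2b
import Pool.Agent.SRC.C2d
import Pool.Agent.SRC.C3
import Pool.Agent.SRC.C4
import Pool.Agent.SRC.N3a
import Pool.Agent.SRC.N3b

set_option autoImplicit false

namespace SRC

/-- The group-theoretic theorem. -/
theorem not_solvable_of_dat {G : Type*} [Group G] [Finite G] (hs : Group.IsSolvable G) {s : ℤ}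
    {N1 N2 i j P1 P2 : ℕ} (d : Dat (Nat.card G) s N1 N2 i j P1 P2) (hyp : Hyp G N1 N2 P1 P2) :
    False := by
  classical
  obtain ⟨Q, hQ⟩ := exists_core (G := G)
  have hQn := hQ.normal
  have hC := centralizer_le hs hyp.el Q hQ
  obtain ⟨a, ha⟩ := (IsPGroup.iff_card (p := 2)).1 hQ.two
  have hcop2 : ∀ m : ℕ, Nat.Coprime P1 (2 ^ m) := fun m => by
    apply Nat.Coprime.pow_right
    exact Nat.coprime_two_right.2 d.odd1
  have hne : Q ≠ ⊤ := by
    intro htop
    have h1 : Nat.card G = 2 ^ a := by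
      rw [← ha, htop]
      exact (Subgroup.card_top).symm
    have h2 : P1 ∣ 2 ^ a := by
      rw [← h1, d.card_eq]
      exact Dvd.dvd.mul_left (dvd_mul_right _ _) _
    have h3 := (hcop2 a).eq_one_of_dvd h2
    have := d.one_lt
    omega
  obtain ⟨p, R, hp, hp2, hR⟩ := exists_elem hs Q hQ hne
  have hpP := dvd_P1 d hyp Q R hQ p hp hp2 hR
  have h24 : 2 ^ i ∣ 4 := by
    rcases d.hi with h | h <;> rw [h] <;> norm_num
  have hfixG : ∀ r : ℕ, r.Prime → r ≠ 2 → r ∣ P1 → ∀ z : G, orderOf z = r →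
      Nat.card ↥(Q ⊓ Subgroup.centralizer ({z} : Set G)) ∣ 4 := fun r hr hr2 hrP z hz =>
    (card_fix_dvd d hyp Q hQ.two r hr hr2 hrP z hz).trans h24
  have hp7 := d.seven_le hp hp2 (Or.inl hpP)
  have hcard := card_R Q R hQ hC p hp (by omega) (hfixG p hp hp2 hpP) hR
  have hpQ := not_dvd_card_two_group Q hQ.two p hp hp2
  obtain ⟨K, hKn, hK, hab, hidx⟩ := exists_K Q R hQn p hp hR hcard
  have hcardK := fun x hxR hx => card_K Q R K hQn p hp hpQ hR hcard hK x hxR hx
  -- `P2 = 1`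
  have hP2 : P2 = 1 := by
    by_contra hP
    obtain ⟨r, hr, hrP⟩ := Nat.exists_prime_and_dvd hP
    have hr2 : r ≠ 2 := by
      rintro rfl
      exact (Nat.not_even_iff_odd.2 d.odd2) (even_iff_two_dvd.2 hrP)
    have hrQ := not_dvd_card_two_group Q hQ.two r hr hr2
    have hrP1 : ¬ r ∣ P1 := fun hcon =>
      hr.one_lt.ne' (Nat.eq_one_of_dvd_coprimes d.coprime hcon hrP)
    have hpr : p ≠ r := by
      rintro rfl
      exact hrP1 hpP
    have hrG : r ∣ Nat.card G := by
      rw [d.card_eq]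
      exact Dvd.dvd.mul_left (Dvd.dvd.mul_left hrP _) _
    obtain ⟨x, y, hxR, hx, hy, hxy⟩ := exists_xy Q R p r hp hr hpQ hrQ hpr hR.normal hcard hrG
    have hk := hcardK x hxR hx
    have hcx : Nat.card (Subgroup.centralizer ({x} : Set G)) ∣ 2 ^ i * P1 := by
      rw [← d.h1]
      exact hyp.c1 p hp hp2 hpP x hx
    have hrK : ¬ r ∣ Nat.card K := by
      intro hcon
      have h1 : r ∣ Nat.card Q * Nat.card (Subgroup.centralizer ({x} : Set G)) := by
        rw [← hk]
        exact Dvd.dvd.mul_right hcon _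
      rcases (Nat.Prime.dvd_mul hr).1 h1 with h2 | h2
      · exact hrQ h2
      · rcases (Nat.Prime.dvd_mul hr).1 (h2.trans hcx) with h3 | h3
        · exact hr2 ((Nat.prime_dvd_prime_iff_eq hr Nat.prime_two).1 (hr.dvd_of_dvd_pow h3))
        · exact hrP1 h3
    have hPK := P1_dvd_card_K d hyp K hKn hab r hr hr2 hrP hrK
    have hPC : P1 ∣ Nat.card (Subgroup.centralizer ({x} : Set G)) := by
      have h1 : P1 ∣ Nat.card Q * Nat.card (Subgroup.centralizer ({x} : Set G)) := by
        rw [← hk]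
        exact Dvd.dvd.mul_right hPK _
      rw [ha] at h1
      exact (hcop2 a).dvd_of_dvd_mul_left h1
    exact d.arith6 hr hr2 hrP
      (dvd_P1_sub_one d hyp p r hp hp2 hpP hr hr2 hrP x y hx hy hxy hPC)
  -- the exponent `t`
  have hG : Nat.card G = 2 ^ (i + j - 1) * P1 := by
    rw [d.card_eq, hP2, mul_one]
  have haij : a ≤ i + j - 1 := by
    have h1 : 2 ^ a ∣ 2 ^ (i + j - 1) * P1 := by
      rw [← hG, ← ha]
      exact Subgroup.card_subgroup_dvd_card Q
    have h2 := (hcop2 a).symm.dvd_of_dvd_mul_right h1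
    exact (Nat.pow_dvd_pow_iff_le_right (by norm_num)).1 h2
  obtain ⟨t, ht⟩ := Nat.exists_eq_add_of_le haij
  have hat : a + t = i + j - 1 := ht.symm
  -- an element of order `p` in `R`
  obtain ⟨x₀, hx₀R, hx₀⟩ : ∃ x₀ ∈ R, x₀ ∉ Q := by
    by_contra hcon
    push Not at hcon
    exact hR.ne hcon
  obtain ⟨hx, -⟩ := lift_order Q hQ.two p hp hp2 x₀ hx₀ (hR.pow_mem x₀ hx₀R)
  set x := x₀ ^ Nat.card Q with hxdef
  have hxR : x ∈ R := pow_mem hx₀R _
  have hk := hcardK x hxR hx
  set c := Nat.card ↥(Q ⊓ Subgroup.centralizer ({x} : Set G)) with hc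
  have hci : c ∣ 2 ^ i := card_fix_dvd d hyp Q hQ.two p hp hp2 hpP x hx
  have htlt : t + 1 ≤ i := by
    refine lt_of_index p i t c P1 K.index (Nat.card (Subgroup.centralizer ({x} : Set G))) hp hp2
      (by have := d.one_lt; omega) hci ?_ ?_ hidx ?_
    · have h1 : Nat.card K * K.index = Nat.card G := Subgroup.card_mul_index K
      have h2 : 2 ^ a * (2 ^ t * P1 * c) =
          2 ^ a * (K.index * Nat.card (Subgroup.centralizer ({x} : Set G))) := by
        calc 2 ^ a * (2 ^ t * P1 * c) = (2 ^ (a + t) * P1) * c := by rw [pow_add]; ring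
          _ = Nat.card G * c := by rw [hat, hG]
          _ = K.index * (Nat.card K * c) := by rw [← h1]; ring
          _ = K.index * (2 ^ a * Nat.card (Subgroup.centralizer ({x} : Set G))) := by
              rw [hk, ha]
          _ = _ := by ring
      exact Nat.eq_of_mul_eq_mul_left (by positivity) h2
    · rw [← d.h1]
      exact hyp.c1 p hp hp2 hpP x hx
    · refine d.quad hP2 p a t c hpP hat ?_
      have h1 := card_inf_centralizer_modEq Q x p hp
        (by rw [← hx]; exact pow_orderOf_eq_one x) (fun h hh => hQn.conj_mem h hh x)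
      rw [← hc, ha] at h1
      have h2 := (Nat.modEq_iff_dvd.1 h1)
      push_cast at h2
      exact h2
  refine d.finish t htlt ?_
  intro q hq hqP
  obtain ⟨r, b, hr, hb, rfl⟩ := hq
  have hr' : r.Prime := Nat.prime_iff.2 hr
  have hrP : r ∣ P1 := (dvd_pow_self r hb.ne').trans hqP
  have hr2 : r ≠ 2 := by
    rintro rfl
    exact (Nat.not_even_iff_odd.2 d.odd1) (even_iff_two_dvd.2 hrP)
  have hr7 := d.seven_le hr' hr2 (Or.inl hrP)
  obtain ⟨z, hz, hdz⟩ := pow_dvd_card_sub Q hQ hC r b hr' (by omega) (hfixG r hr' hr2 hrP) hb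
    (by rw [hG]; exact Dvd.dvd.mul_left hqP _)
  refine ⟨_, card_fix_dvd d hyp Q hQ.two r hr' hr2 hrP z hz, ?_⟩
  refine d.quad hP2 (r ^ b) a t _ hqP hat ?_
  rw [ha] at hdz
  push_cast at hdz ⊢
  exact hdz

end SRC
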