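import Pool.Agent.SRC.Defs

set_option autoImplicit false

namespace SRC

/-- common part -/
theorem n1_aux (g : ℕ) (s : ℤ) (i : ℕ) (hs : 5 ≤ |s|)
    (hg : 2 * (g : ℤ) = (s ^ 2 - s + 2) * (s ^ 2 + s + 2)) (hi : i = 1 ∨ i = 2)
    (h1 : ∃ P : ℤ, s ^ 2 - s + 2 = 2 ^ i * P ∧ P % 2 = 1)
    (h2 : (2 : ℤ) ^ (i + 1) ∣ s ^ 2 + s + 2) :
    ∃ (N1 N2 j P1 P2 : ℕ), Dat g s N1 N2 i j P1 P2 := by
  have hpos1 : 0 < s ^ 2 - s + 2 := by nlinarith [sq_nonneg (s - 1)]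
  have hpos2 : 0 < s ^ 2 + s + 2 := by nlinarith [sq_nonneg (s + 1)]
  obtain ⟨N1, hN1⟩ : ∃ N : ℕ, (N : ℤ) = s ^ 2 - s + 2 :=
    ⟨_, Int.toNat_of_nonneg hpos1.le⟩
  obtain ⟨N2, hN2⟩ : ∃ N : ℕ, (N : ℤ) = s ^ 2 + s + 2 :=
    ⟨_, Int.toNat_of_nonneg hpos2.le⟩
  have hN2' : N2 ≠ 0 := by
    rintro rfl
    rw [← hN2] at hpos2
    simp at hpos2
  obtain ⟨P, hP, hPodd⟩ := h1
  have hPpos : 0 < P := by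
    rw [hP] at hpos1
    exact (mul_pos_iff_of_pos_left (by positivity)).1 hpos1
  obtain ⟨P1, hP1⟩ : ∃ N : ℕ, (N : ℤ) = P := ⟨_, Int.toNat_of_nonneg hPpos.le⟩
  obtain ⟨j, P2, hP2odd, hj⟩ := Nat.exists_eq_two_pow_mul_odd hN2'
  refine ⟨N1, N2, j, P1, P2, hs, ?_, hN1, hN2, ?_, hj, hi, ?_, ?_, hP2odd⟩
  · have : 2 * (g : ℤ) = (N1 : ℤ) * N2 := by rw [hN1, hN2]; exact hg
    exact_mod_cast this
  · have : (N1 : ℤ) = 2 ^ i * (P1 : ℤ) := by rw [hN1, hP1, hP]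
    exact_mod_cast this
  · -- `i < j`
    by_contra hcon
    push Not at hcon
    rw [← hN2] at h2
    have h3 : 2 ^ (i + 1) ∣ N2 := by exact_mod_cast h2
    rw [hj] at h3
    have h4 : 2 ^ (j + 1) ∣ 2 ^ j * P2 := (pow_dvd_pow 2 (by omega)).trans h3
    rw [pow_succ] at h4
    have h5 := Nat.dvd_of_mul_dvd_mul_left (by positivity) h4
    exact (Nat.not_even_iff_odd.2 hP2odd) (even_iff_two_dvd.2 h5)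
  · rw [Nat.odd_iff]
    have : ((P1 : ℤ)) % 2 = 1 := by rw [hP1]; exact hPodd
    omega

theorem n1_case1 (g : ℕ) (s : ℤ) (hs : 5 ≤ |s|)
    (hg : 2 * (g : ℤ) = (s ^ 2 - s + 2) * (s ^ 2 + s + 2)) (h4 : s % 4 = 1) :
    ∃ (N1 N2 i j P1 P2 : ℕ), Dat g s N1 N2 i j P1 P2 := by
  obtain ⟨m, hm⟩ : ∃ m : ℤ, s = 4 * m + 1 := ⟨s / 4, by omega⟩
  obtain ⟨N1, N2, j, P1, P2, h⟩ := n1_aux g s 1 hs hg (Or.inl rfl)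
    ⟨8 * m ^ 2 + 2 * m + 1, by rw [hm]; ring, by
      have : 8 * m ^ 2 + 2 * m + 1 = 2 * (4 * m ^ 2 + m) + 1 := by ring
      rw [this]; omega⟩
    ⟨4 * m ^ 2 + 3 * m + 1, by rw [hm]; ring⟩
  exact ⟨N1, N2, 1, j, P1, P2, h⟩

theorem n1_case2 (g : ℕ) (s : ℤ) (hs : 5 ≤ |s|)
    (hg : 2 * (g : ℤ) = (s ^ 2 - s + 2) * (s ^ 2 + s + 2)) (h4 : s % 8 = 2) :
    ∃ (N1 N2 i j P1 P2 : ℕ), Dat g s N1 N2 i j P1 P2 := by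
  obtain ⟨m, hm⟩ : ∃ m : ℤ, s = 8 * m + 2 := ⟨s / 8, by omega⟩
  obtain ⟨N1, N2, j, P1, P2, h⟩ := n1_aux g s 2 hs hg (Or.inr rfl)
    ⟨16 * m ^ 2 + 6 * m + 1, by rw [hm]; ring, by
      have : 16 * m ^ 2 + 6 * m + 1 = 2 * (8 * m ^ 2 + 3 * m) + 1 := by ring
      rw [this]; omega⟩
    ⟨8 * m ^ 2 + 5 * m + 1, by rw [hm]; ring⟩
  exact ⟨N1, N2, 2, j, P1, P2, h⟩

/-- existence of the numerical data. -/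
theorem exists_dat (g n : ℕ) (hn : 5 ≤ n) (h4 : ¬ 4 ∣ n) (hg : 2 * g = n ^ 4 + 3 * n ^ 2 + 4) :
    ∃ (s : ℤ) (N1 N2 i j P1 P2 : ℕ), (s = n ∨ s = -n) ∧ Dat g s N1 N2 i j P1 P2 := by
  have hgZ : 2 * (g : ℤ) = (n : ℤ) ^ 4 + 3 * (n : ℤ) ^ 2 + 4 := by exact_mod_cast hg
  have hn' : (5 : ℤ) ≤ n := by exact_mod_cast hn
  have habs : 5 ≤ |(n : ℤ)| := by rw [abs_of_nonneg (by positivity)]; exact hn'
  have habs' : 5 ≤ |(-(n : ℤ))| := by rw [abs_neg]; exact habs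
  have hg1 : 2 * (g : ℤ) = ((n : ℤ) ^ 2 - n + 2) * ((n : ℤ) ^ 2 + n + 2) := by
    rw [hgZ]; ring
  have hg2 : 2 * (g : ℤ) = ((-(n : ℤ)) ^ 2 - (-(n : ℤ)) + 2) * ((-(n : ℤ)) ^ 2 + (-(n : ℤ)) + 2) := by
    rw [hgZ]; ring
  have hcases : (n : ℤ) % 4 = 1 ∨ (-(n : ℤ)) % 4 = 1 ∨ (n : ℤ) % 8 = 2 ∨ (-(n : ℤ)) % 8 = 2 := by
    omega
  rcases hcases with h | h | h | h
  · obtain ⟨N1, N2, i, j, P1, P2, hd⟩ := n1_case1 g n habs hg1 h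
    exact ⟨n, N1, N2, i, j, P1, P2, Or.inl rfl, hd⟩
  · obtain ⟨N1, N2, i, j, P1, P2, hd⟩ := n1_case1 g (-n) habs' hg2 h
    exact ⟨-n, N1, N2, i, j, P1, P2, Or.inr rfl, hd⟩
  · obtain ⟨N1, N2, i, j, P1, P2, hd⟩ := n1_case2 g n habs hg1 h
    exact ⟨n, N1, N2, i, j, P1, P2, Or.inl rfl, hd⟩
  · obtain ⟨N1, N2, i, j, P1, P2, hd⟩ := n1_case2 g (-n) habs' hg2 h
    exact ⟨-n, N1, N2, i, j, P1, P2, Or.inr rfl, hd⟩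

end SRC
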