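import Pool.Agent.SRC.Defs
import Pool.Agent.MP_e446a9_co.BlockB

set_option autoImplicit false

namespace SRC

open RectCay

/-- PROOF. `∑_{g ∈ E} T D g = ∑_{g ∈ E} ∑_x [x⁻¹ g x ∈ D] = ∑_x #{g ∈ E : x⁻¹ g x ∈ D}
= ∑_x #(D ∩ E)` (bijection `g ↦ x⁻¹ g x` of the normal subgroup `E`), which is
`|G| * #(D ∩ E)`; the term `g = 1` is `T D 1 = |G|` (`1 ∈ D`).  With `E.carrier` as a finset
(`classical`, `Finset.univ.filter (· ∈ E)`). -/
theorem sum_T_normal {G : Type*} [Group G] [Fintype G] [DecidableEq G] {D : Finset G} {n : ℕ}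
    (h : IsD D n) (E : Subgroup G) (hE : E.Normal) (N : ℕ)
    (hN : ∀ g ∈ E, g ≠ 1 → T D g = N) :
    ∃ d : ℕ, (Nat.card E - 1) * N = Fintype.card G * d := by
  classical
  -- the finset of `E`
  set F : Finset G := Finset.univ.filter fun g => g ∈ E with hF
  have hFcard : F.card = Nat.card E := by
    rw [Nat.card_eq_fintype_card, ← Fintype.card_subtype]
  have h1 : ∀ x : G, (F.filter fun g => x⁻¹ * g * x ∈ D).card = (F.filter fun g => g ∈ D).card := by
    intro x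
    refine Finset.card_bij' (fun g _ => x⁻¹ * g * x) (fun g _ => x * g * x⁻¹) ?_ ?_ ?_ ?_
    · intro g hg
      rw [Finset.mem_filter, hF, Finset.mem_filter] at hg ⊢
      refine ⟨⟨Finset.mem_univ _, ?_⟩, hg.2⟩
      have := hE.conj_mem g hg.1.2 x⁻¹
      rwa [inv_inv] at this
    · intro g hg
      rw [Finset.mem_filter, hF, Finset.mem_filter] at hg ⊢
      refine ⟨⟨Finset.mem_univ _, hE.conj_mem g hg.1.2 x⟩, ?_⟩
      have h2 : x⁻¹ * (x * g * x⁻¹) * x = g := by group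
      rw [h2]
      exact hg.2
    · intro g _
      group
    · intro g _
      group
  have h2 : ∑ g ∈ F, T D g = Fintype.card G * (F.filter fun g => g ∈ D).card := by
    have h3 : ∀ g, T D g = ∑ x : G, if x⁻¹ * g * x ∈ D then 1 else 0 := by
      intro g
      unfold T
      rw [Finset.card_filter]
    rw [Finset.sum_congr rfl fun g _ => h3 g, Finset.sum_comm]
    have h4 : ∀ x : G, (∑ g ∈ F, if x⁻¹ * g * x ∈ D then 1 else 0) = (F.filter fun g => g ∈ D).card := by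
      intro x
      rw [← Finset.card_filter, h1 x]
    rw [Finset.sum_congr rfl fun x _ => h4 x, Finset.sum_const, Finset.card_univ, smul_eq_mul]
  have h1F : (1 : G) ∈ F := by
    rw [hF, Finset.mem_filter]
    exact ⟨Finset.mem_univ _, E.one_mem⟩
  have hT1 : T D (1 : G) = Fintype.card G := by
    unfold T
    rw [← Finset.card_univ]
    congr 1
    ext x
    simp [h.one_mem]
  rw [← Finset.add_sum_erase F _ h1F, hT1] at h2
  have h5 : ∑ g ∈ F.erase 1, T D g = (Nat.card E - 1) * N := by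
    rw [Finset.sum_congr rfl (g := fun _ => N), Finset.sum_const, Finset.card_erase_of_mem h1F,
      hFcard, smul_eq_mul]
    intro g hg
    rw [Finset.mem_erase, hF, Finset.mem_filter] at hg
    exact hN g hg.2.2 hg.1
  rw [h5] at h2
  refine ⟨(F.filter fun g => g ∈ D).card - 1, ?_⟩
  rw [Nat.mul_sub, mul_one, ← h2]
  omega

/-- `N = n^2 + 2 + ε n` and `N' = n^2 + 2 - ε n`; `q` = order of `E`.
PROOF. `q` is odd and `q ∣ N`, and `N` is even, so `2 q ∣ N`, `N = 2 q m`.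
`(q - 1) N = v d` and `2 v = N N'` give (as `N > 0`) `2 (q - 1) = N' d`; `d ≥ 1` since `q > 1`.
`ε = -1` (`N' = n^2+n+2`): `N' ≤ 2(q-1) ≤ N - 2 < N'`, contradiction.
`ε = 1` (`N' = n^2-n+2`): if `m ≥ 2` then `2(q-1) ≤ N/2 - 2` so `2 N' ≤ N - 4`, i.e.
`2n^2-2n+4 ≤ n^2+n-2`, impossible; if `m = 1`: `2(q-1) = N - 2 = n^2+n = N' d`; `d ≥ 2` gives
`2n^2-2n+4 ≤ n^2+n`, impossible; `d = 1` gives `n = 1`.  (`nlinarith`.) -/
theorem arith_el (n q v d : ℕ) (ε : ℤ) (hε : ε = 1 ∨ ε = -1) (hn : 2 ≤ n) (hq : 1 < q)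
    (hodd : Odd q) (hdvd : (q : ℤ) ∣ (n : ℤ) ^ 2 + 2 + ε * n)
    (hv : 2 * (v : ℤ) = ((n : ℤ) ^ 2 + 2 + ε * n) * ((n : ℤ) ^ 2 + 2 - ε * n))
    (hd : ((q : ℤ) - 1) * ((n : ℤ) ^ 2 + 2 + ε * n) = v * d) : False := by
  have hn' : (2 : ℤ) ≤ n := by exact_mod_cast hn
  have hq' : (1 : ℤ) < q := by exact_mod_cast hq
  have hd0 : (0 : ℤ) ≤ d := Int.natCast_nonneg d
  have hNpos : (0 : ℤ) < (n : ℤ) ^ 2 + 2 + ε * n := by rcases hε with rfl | rfl <;> nlinarith
  have hN'pos : (0 : ℤ) < (n : ℤ) ^ 2 + 2 - ε * n := by rcases hε with rfl | rfl <;> nlinarith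
  -- `2 q` divides `N`
  have heven : (2 : ℤ) ∣ (n : ℤ) ^ 2 + 2 + ε * n := by
    have h1 : (2 : ℤ) ∣ (n : ℤ) * (n + 1) := (Int.even_mul_succ_self (n : ℤ)).two_dvd
    rcases hε with rfl | rfl
    · obtain ⟨c, hc⟩ := h1
      exact ⟨c + 1, by linarith⟩
    · obtain ⟨c, hc⟩ := h1
      exact ⟨c + 1 - n, by linarith⟩
  have hcop : IsCoprime (2 : ℤ) (q : ℤ) := by
    have h1 : Nat.Coprime 2 q := (Nat.coprime_two_left).2 hodd
    exact_mod_cast Nat.isCoprime_iff_coprime.2 h1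
  obtain ⟨m, hm⟩ := hcop.mul_dvd heven hdvd
  have hm1 : 1 ≤ m := by
    by_contra hne
    push Not at hne
    have h1 : m ≤ 0 := by omega
    nlinarith
  -- cancel `N`
  have h2 : 2 * ((q : ℤ) - 1) = ((n : ℤ) ^ 2 + 2 - ε * n) * d := by
    apply mul_left_cancel₀ hNpos.ne'
    linear_combination 2 * hd + (d : ℤ) * hv
  have hd1 : (1 : ℤ) ≤ d := by
    by_contra hne
    push Not at hne
    have h3 : (d : ℤ) = 0 := by omega
    rw [h3, mul_zero] at h2
    linarith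
  rcases hε with rfl | rfl
  · rcases hm1.eq_or_lt with h3 | h3
    · -- `m = 1`
      rw [← h3, mul_one] at hm
      rcases hd1.eq_or_lt with h4 | h4
      · rw [← h4, mul_one] at h2
        linarith
      · have h5 : (2 : ℤ) ≤ d := by omega
        nlinarith
    · have h5 : (2 : ℤ) ≤ m := by omega
      nlinarith
  · nlinarith

end SRC
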