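import Pool.Agent.SRC.Defs
import Pool.Agent.MP_e446a9_co.BlockB

set_option autoImplicit false

namespace SRC

open RectCay

theorem w6_multiset (s : Multiset ℂ) (hs : ∀ z ∈ s, z = 1 ∨ z = -1) :
    ∃ b : ℕ, s.sum = (s.card : ℂ) - 2 * b := by
  induction s using Multiset.induction_on with
  | empty => exact ⟨0, by simp⟩
  | cons a s ih =>
    obtain ⟨b, hb⟩ := ih (fun z hz => hs z (Multiset.mem_cons_of_mem hz))
    rcases hs a (Multiset.mem_cons_self a s) with h | h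
    · refine ⟨b, ?_⟩
      rw [Multiset.sum_cons, hb, h, Multiset.card_cons]
      push_cast
      ring
    · refine ⟨b + 1, ?_⟩
      rw [Multiset.sum_cons, hb, h, Multiset.card_cons]
      push_cast
      ring

/-- PROOF. The eigenvalues of `X` are `± 1`: each root `μ` of the characteristic polynomial has
`μ ^ 2 = 1` (`RectCay.pow_eq_one_of_mem_roots`, BlockS), the number of roots is `Fintype.card ι`
(`IsAlgClosed.card_roots_eq_natDegree`-type lemma, `Matrix.charpoly_natDegree_eq_dim`), and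
`X.trace` is their sum (`Matrix.trace_eq_sum_roots_charpoly`).  General fact by
`Multiset.induction`: if all members of `s : Multiset ℂ` are `1` or `-1`, then
`s.sum = s.card - 2 * b` for some `b : ℕ`. -/
theorem exists_nat_trace {ι : Type*} [Fintype ι] [DecidableEq ι] (X : Matrix ι ι ℂ)
    (hX : X ^ 2 = 1) : ∃ b : ℕ, X.trace = (Fintype.card ι : ℂ) - 2 * b := by
  obtain ⟨b, hb⟩ := w6_multiset X.charpoly.roots (fun z hz => by
    have h := pow_eq_one_of_mem_roots X hX hz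
    rw [pow_two] at h
    exact mul_self_eq_one_iff.1 h)
  refine ⟨b, ?_⟩
  rw [Matrix.trace_eq_sum_roots_charpoly, hb,
    ← (IsAlgClosed.splits X.charpoly).natDegree_eq_card_roots, Matrix.charpoly_natDegree_eq_dim]

/-- PROOF. As in `RectCay.exists_sq` (BlockS), with `c = (n^2 + 2 + n) / v`, `v = |G|`,
`Q = matM D - c • matJ G`, one has `Q * Q = n^2 • 1` (`RectCay.deflated_sq`, with `k = n^2 + 1`),
so `X = n⁻¹ • Q` satisfies `X ^ 2 = 1`, and `X.trace = (v - (n^2 + 2 + n)) / n`.  By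
`exists_nat_trace`, `v - (n^2 + 2 + n) = n (v - 2 b)`, so with `2 v = n^4 + 3 n^2 + 4`:
`n^4 + n^2 - 2 n = 2 n (v - 2 b)`, i.e. `n^3 + n - 2 = 2 v - 4 b = n^4 + 3 n^2 + 4 - 4 b`.
If `4 ∣ n`, the left side is `2` modulo `4` and the right side is `0` modulo `4`, contradiction. -/
theorem four_not_dvd {G : Type*} [Group G] [Fintype G] [DecidableEq G] {D : Finset G} {n : ℕ}
    (h : IsD D n) (hn : 1 ≤ n) : ¬ 4 ∣ n := by
  have hn0 : (n : ℂ) ≠ 0 := by exact_mod_cast (by omega : n ≠ 0)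
  have hv := two_mul_card h
  have hv0 : (Fintype.card G : ℂ) ≠ 0 := by exact_mod_cast Fintype.card_ne_zero
  have hvC : 2 * (Fintype.card G : ℂ) = (n : ℂ) ^ 4 + 3 * (n : ℂ) ^ 2 + 4 := by exact_mod_cast hv
  set v : ℂ := (Fintype.card G : ℂ) with hvdef
  set c : ℂ := ((n : ℂ) ^ 2 + 2 + n) / v with hc
  have hcv : c * v = (n : ℂ) ^ 2 + 2 + n := by rw [hc]; field_simp
  have hc2 : c ^ 2 * v - 2 * c * (((n ^ 2 + 1 : ℕ) : ℂ) + 1) + 2 = 0 := by
    have h1 : v * (c ^ 2 * v - 2 * c * (((n ^ 2 + 1 : ℕ) : ℂ) + 1) + 2) = 0 := by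
      push_cast
      have : v * (c ^ 2 * v - 2 * c * (((n : ℂ) ^ 2 + 1) + 1) + 2)
          = (c * v) ^ 2 - 2 * (c * v) * (((n : ℂ) ^ 2 + 1) + 1) + 2 * v := by ring
      rw [this, hcv, hvC]
      ring
    exact (mul_eq_zero.1 h1).resolve_left hv0
  have hQ := deflated_sq (k := n ^ 2 + 1) h.inv_mem h.card_eq h.two_reps c hc2
  set Q := matM D - c • matJ G with hQdef
  have hX : ((n : ℂ)⁻¹ • Q) ^ 2 = 1 := by
    rw [smul_pow, pow_two Q, hQ, smul_smul]
    have : ((n : ℂ)⁻¹) ^ 2 * (((n ^ 2 + 1 : ℕ) : ℂ) - 1) = 1 := by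
      push_cast
      field_simp
      ring
    rw [this, one_smul]
  obtain ⟨b, hb⟩ := exists_nat_trace _ hX
  have htr : ((n : ℂ)⁻¹ • Q).trace = (v - ((n : ℂ) ^ 2 + 2 + n)) / n := by
    have h1 : (matM D).trace = v := by
      rw [Matrix.trace, hvdef, ← Finset.card_univ, Finset.card_eq_sum_ones]
      push_cast
      refine Finset.sum_congr rfl (fun x _ => ?_)
      simp [matM, h.one_mem]
    have h2 : (matJ G).trace = v := by
      rw [Matrix.trace, hvdef, ← Finset.card_univ, Finset.card_eq_sum_ones]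
      push_cast
      refine Finset.sum_congr rfl (fun x _ => ?_)
      simp [matJ]
    rw [Matrix.trace_smul, hQdef, Matrix.trace_sub, Matrix.trace_smul, h1, h2, smul_eq_mul,
      smul_eq_mul, hcv]
    field_simp
  have hmain : v - ((n : ℂ) ^ 2 + 2 + n) = n * (v - 2 * b) := by
    rw [← hb, htr]
    field_simp
  have hmainZ : (Fintype.card G : ℤ) - ((n : ℤ) ^ 2 + 2 + n) = n * ((Fintype.card G : ℤ) - 2 * b) := by
    rw [hvdef] at hmain
    exact_mod_cast hmain
  rintro ⟨k, rfl⟩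
  have hk : 1 ≤ k := by omega
  have hvZ : (Fintype.card G : ℤ) = 128 * (k : ℤ) ^ 4 + 24 * (k : ℤ) ^ 2 + 2 := by
    have h2 : 2 * (Fintype.card G : ℤ) = ((4 * k : ℕ) : ℤ) ^ 4 + 3 * ((4 * k : ℕ) : ℤ) ^ 2 + 4 := by
      exact_mod_cast hv
    push_cast at h2
    linarith
  rw [hvZ] at hmainZ
  push_cast at hmainZ
  have hk0 : (4 * (k : ℤ)) ≠ 0 := by positivity
  have h3 : (4 * (k : ℤ)) * (32 * (k : ℤ) ^ 3 + 2 * k - 1)
      = (4 * (k : ℤ)) * (128 * (k : ℤ) ^ 4 + 24 * (k : ℤ) ^ 2 + 2 - 2 * b) := by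
    linarith
  have h4 := mul_left_cancel₀ hk0 h3
  omega

end SRC
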