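import Pool.Agent.SRC.W4
import Pool.Agent.SRC.W5
import Pool.Agent.SRC.W6
import Pool.Agent.SRC.N1
import Pool.Agent.SRC.F1
import Pool.Agent.MP_e446a9_co.BlockB

set_option autoImplicit false

namespace SRC

open RectCay

/-- an odd prime that divides `n ^ 2 + 2 + ε n` does not divide `n`, nor `n ^ 2 + 2 - ε n` -/
theorem prime_facts {n p : ℕ} (hp : p.Prime) (hp2 : p ≠ 2) {ε : ℤ} (hε : ε = 1 ∨ ε = -1)
    (hd : (p : ℤ) ∣ (n : ℤ) ^ 2 + 2 + ε * n) :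
    ¬ p ∣ n ∧ ¬ (p : ℤ) ∣ (n : ℤ) ^ 2 + 2 - ε * n := by
  have h2 : ¬ (p : ℤ) ∣ 2 := by
    intro hcon
    have h3 : p ∣ 2 := by exact_mod_cast hcon
    exact hp2 ((Nat.prime_dvd_prime_iff_eq hp Nat.prime_two).1 h3)
  have hpn : ¬ (p : ℤ) ∣ n := by
    intro hcon
    apply h2
    have h3 : (p : ℤ) ∣ (n : ℤ) ^ 2 + ε * n :=
      dvd_add (dvd_pow hcon (by norm_num)) (Dvd.dvd.mul_left hcon _)
    have h4 := dvd_sub hd h3
    have e : (n : ℤ) ^ 2 + 2 + ε * n - ((n : ℤ) ^ 2 + ε * n) = 2 := by ring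
    rwa [e] at h4
  refine ⟨fun hcon => hpn (by exact_mod_cast hcon), ?_⟩
  intro hcon
  have h4 := dvd_sub hd hcon
  have e : (n : ℤ) ^ 2 + 2 + ε * n - ((n : ℤ) ^ 2 + 2 - ε * n) = 2 * (ε * n) := by ring
  rw [e] at h4
  have hpp : Prime (p : ℤ) := Nat.prime_iff_prime_int.1 hp
  rcases hpp.dvd_or_dvd h4 with h5 | h5
  · exact h2 h5
  · rcases hε with rfl | rfl
    · rw [one_mul] at h5; exact hpn h5
    · rw [neg_one_mul, dvd_neg] at h5; exact hpn h5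

theorem centralizer_dvd {G : Type*} [Group G] [Fintype G] [DecidableEq G] {D : Finset G} {n : ℕ}
    (h : IsD D n) (p : ℕ) (hp : p.Prime) (hp2 : p ≠ 2) (ε : ℤ)
    (hε : ε = 1 ∨ ε = -1) (N : ℕ) (hN : (N : ℤ) = (n : ℤ) ^ 2 + 2 + ε * n) (hd : p ∣ N)
    (g : G) (hg : orderOf g = p) :
    Nat.card (Subgroup.centralizer ({g} : Set G)) ∣ N := by
  have hd' : (p : ℤ) ∣ (n : ℤ) ^ 2 + 2 + ε * n := by
    rw [← hN]; exact_mod_cast hd
  have h1 := T_eq_of_dvd h p hp hp2 (prime_facts hp hp2 hε hd').1 ε hε hd' g hg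
  rw [← hN] at h1
  have h2 : T D g = N := by exact_mod_cast h1
  rw [← h2, T_eq]
  exact dvd_mul_right _ _

theorem el_of_isD {G : Type*} [Group G] [Fintype G] [DecidableEq G] {D : Finset G} {n : ℕ}
    (h : IsD D n) (hn : 2 ≤ n) (p : ℕ) (hp : p.Prime) (hp2 : p ≠ 2) (E : Subgroup G)
    (hE : E.Normal) (hEp : ∀ x ∈ E, x ^ p = 1) : E = ⊥ := by
  classical
  by_contra hne
  have : Fact p.Prime := ⟨hp⟩
  have hpE : IsPGroup p E := by
    intro x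
    refine ⟨1, ?_⟩
    ext
    simpa using hEp x x.2
  obtain ⟨k, hk⟩ := (IsPGroup.iff_card (p := p)).1 hpE
  have hk0 : k ≠ 0 := by
    rintro rfl
    rw [pow_zero] at hk
    exact hne ((Subgroup.card_eq_one).1 hk)
  have hpodd : Odd p := hp.odd_of_ne_two hp2
  have hv := two_mul_card h
  have hEG : Nat.card E ∣ Fintype.card G := by
    rw [← Nat.card_eq_fintype_card]
    exact Subgroup.card_subgroup_dvd_card E
  have hpG : (p : ℤ) ∣ (2 * Fintype.card G : ℕ) := by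
    have h1 : p ∣ Nat.card E := by rw [hk]; exact dvd_pow_self p hk0
    exact_mod_cast (h1.trans hEG).mul_left 2
  have hfac : ((2 * Fintype.card G : ℕ) : ℤ) =
      ((n : ℤ) ^ 2 + 2 + 1 * n) * ((n : ℤ) ^ 2 + 2 + (-1) * n) := by
    rw [hv]; push_cast; ring
  -- the sign
  obtain ⟨ε, hε, hd⟩ : ∃ ε : ℤ, (ε = 1 ∨ ε = -1) ∧ (p : ℤ) ∣ (n : ℤ) ^ 2 + 2 + ε * n := by
    rw [hfac] at hpG
    have hpp : Prime (p : ℤ) := Nat.prime_iff_prime_int.1 hp
    rcases hpp.dvd_or_dvd hpG with h5 | h5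
    · exact ⟨1, Or.inl rfl, h5⟩
    · exact ⟨-1, Or.inr rfl, h5⟩
  obtain ⟨hpn, hpd'⟩ := prime_facts hp hp2 hε hd
  obtain ⟨N, hN⟩ : ∃ N : ℕ, (N : ℤ) = (n : ℤ) ^ 2 + 2 + ε * n := by
    have h1 : (0 : ℤ) ≤ (n : ℤ) ^ 2 + 2 + ε * n := by
      rcases hε with rfl | rfl <;> nlinarith
    exact ⟨((n : ℤ) ^ 2 + 2 + ε * n).toNat, Int.toNat_of_nonneg h1⟩
  have hfac2 : 2 * (Fintype.card G : ℤ) =
      ((n : ℤ) ^ 2 + 2 + ε * n) * ((n : ℤ) ^ 2 + 2 - ε * n) := by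
    have h1 : (2 * (Fintype.card G : ℤ)) = ((2 * Fintype.card G : ℕ) : ℤ) := by push_cast; ring
    rw [h1, hfac]
    rcases hε with rfl | rfl <;> ring
  have hT : ∀ g ∈ E, g ≠ 1 → T D g = N := by
    intro g hg hg1
    have ho : orderOf g = p := orderOf_eq_prime (hEp g hg) hg1
    have h1 := T_eq_of_dvd h p hp hp2 hpn ε hε hd g ho
    rw [← hN] at h1
    exact_mod_cast h1
  obtain ⟨d, hdd⟩ := sum_T_normal h E hE N hT
  have hcop : IsCoprime ((Nat.card E : ℕ) : ℤ) ((n : ℤ) ^ 2 + 2 - ε * n) := by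
    rw [hk]
    push_cast
    apply IsCoprime.pow_left
    exact (Nat.prime_iff_prime_int.1 hp).coprime_iff_not_dvd.2 hpd'
  have hqN : ((Nat.card E : ℕ) : ℤ) ∣ (n : ℤ) ^ 2 + 2 + ε * n := by
    refine hcop.dvd_of_dvd_mul_right ?_
    rw [← hfac2]
    exact Dvd.dvd.mul_left (by exact_mod_cast hEG) _
  have hq1 : 1 < Nat.card E := by
    rw [hk]; exact Nat.one_lt_pow hk0 hp.one_lt
  refine arith_el n (Nat.card E) (Fintype.card G) d ε hε hn hq1 ?_ hqN hfac2 ?_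
  · rw [hk]; exact hpodd.pow
  · rw [← hN]
    have h1 : ((Nat.card E - 1 : ℕ) : ℤ) = (Nat.card E : ℤ) - 1 := by
      push_cast [Nat.cast_sub hq1.le]; ring
    rw [← h1]
    exact_mod_cast hdd

theorem hyp_of_isD {G : Type*} [Group G] [Fintype G] [DecidableEq G] {D : Finset G} {n : ℕ}
    (h : IsD D n) (hn : 2 ≤ n) {s : ℤ} {N1 N2 i j P1 P2 : ℕ} (hs : s = n ∨ s = -n)
    (d : Dat (Nat.card G) s N1 N2 i j P1 P2) : Hyp G N1 N2 P1 P2 := by
  refine ⟨?_, ?_, el_of_isD h hn⟩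
  · intro p hp hp2 hpP x hx
    have hd : p ∣ N1 := by rw [d.h1]; exact Dvd.dvd.mul_left hpP _
    rcases hs with rfl | rfl
    · exact centralizer_dvd h p hp hp2 (-1) (Or.inr rfl) N1 (by rw [d.e1]; ring) hd x hx
    · exact centralizer_dvd h p hp hp2 1 (Or.inl rfl) N1 (by rw [d.e1]; ring) hd x hx
  · intro p hp hp2 hpP x hx
    have hd : p ∣ N2 := by rw [d.h2]; exact Dvd.dvd.mul_left hpP _
    rcases hs with rfl | rfl
    · exact centralizer_dvd h p hp hp2 1 (Or.inl rfl) N2 (by rw [d.e2]; ring) hd x hx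
    · exact centralizer_dvd h p hp hp2 (-1) (Or.inr rfl) N2 (by rw [d.e2]; ring) hd x hx

/-- no solvable group contains such a set -/
theorem not_solvable {G : Type*} [Group G] [Fintype G] [DecidableEq G] {D : Finset G} {n : ℕ}
    (h : IsD D n) (hn : 5 ≤ n) : ¬ Group.IsSolvable G := by
  intro hs
  obtain ⟨s, N1, N2, i, j, P1, P2, hsn, d⟩ := exists_dat (Fintype.card G) n hn
    (four_not_dvd h (by omega)) (two_mul_card h)
  rw [← Nat.card_eq_fintype_card] at d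
  exact not_solvable_of_dat hs d (hyp_of_isD h (by omega) hsn d)

end SRC
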