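import Pool.Agent.SRC.Defs
import Pool.Agent.MP_e446a9_co.BlockB

set_option autoImplicit false

namespace SRC

open RectCay

/-- PROOF. `∑_{g} cw D (L+1) g = ∑_{a ∈ D} ∑_g cw D L (a⁻¹ g) = ∑_{a ∈ D} ∑_g cw D L g`
(`Finset.sum_comm`, `Equiv.sum_comp (Equiv.mulLeft a⁻¹)`), induction, `h.card_eq`. -/
theorem cw_sum {G : Type*} [Group G] [Fintype G] [DecidableEq G] {D : Finset G} {n : ℕ}
    (h : IsD D n) (L : ℕ) : ∑ g : G, cw D L g = (n ^ 2 + 2) ^ L := by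
  induction L with
  | zero => simp [cw]
  | succ L ih =>
    simp only [cw]
    rw [Finset.sum_comm]
    have h1 : ∀ a ∈ D, ∑ g : G, cw D L (a⁻¹ * g) = (n ^ 2 + 2) ^ L := by
      intro a _
      rw [← ih]
      exact Equiv.sum_comp (Equiv.mulLeft a⁻¹) (fun g => cw D L g)
    rw [Finset.sum_congr rfl h1, Finset.sum_const, h.card_eq, smul_eq_mul, ← pow_succ']

/-- PROOF. `cw D (L+2) g = ∑_{a ∈ D} ∑_{b ∈ D} cw D L (b⁻¹ (a⁻¹ g)) = ∑_{c : G} m(c) cw D L (c⁻¹ g)`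
with `m(c) = #{(a, b) ∈ D × D : a b = c} = #{a ∈ D : a⁻¹ c ∈ D}`, which is `2` for `c ≠ 1`
(`h.two_reps`) and `#D = n ^ 2 + 2` for `c = 1` (as `D` is closed under inverses; see also
`RectCay.reps_card` in BlockS).  Hence the sum is
`n ^ 2 * cw D L g + 2 * ∑_c cw D L (c⁻¹ g) = n ^ 2 * cw D L g + 2 * (n ^ 2 + 2) ^ L` by `cw_sum`
(reindex by `c ↦ c⁻¹ g`, `Equiv.sum_comp`). -/
theorem cw_add_two {G : Type*} [Group G] [Fintype G] [DecidableEq G] {D : Finset G} {n : ℕ}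
    (h : IsD D n) (L : ℕ) (g : G) :
    cw D (L + 2) g = n ^ 2 * cw D L g + 2 * (n ^ 2 + 2) ^ L := by
  have h1 : cw D (L + 2) g = ∑ a ∈ D, ∑ b ∈ D, cw D L (b⁻¹ * (a⁻¹ * g)) := rfl
  have h2 : ∀ a ∈ D, ∑ b ∈ D, cw D L (b⁻¹ * (a⁻¹ * g))
      = ∑ c : G, if a⁻¹ * c ∈ D then cw D L (c⁻¹ * g) else 0 := by
    intro a _
    rw [← Equiv.sum_comp (Equiv.mulLeft a)]
    simp only [Equiv.coe_mulLeft, inv_mul_cancel_left, mul_inv_rev, mul_assoc]
    rw [← Finset.sum_filter]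
    refine Finset.sum_congr ?_ (fun _ _ => rfl)
    ext b
    simp
  rw [h1, Finset.sum_congr rfl h2, Finset.sum_comm]
  have h3 : ∀ c : G, (∑ a ∈ D, if a⁻¹ * c ∈ D then cw D L (c⁻¹ * g) else 0)
      = (if c = 1 then n ^ 2 * cw D L (c⁻¹ * g) else 0) + 2 * cw D L (c⁻¹ * g) := by
    intro c
    rw [← Finset.sum_filter, Finset.sum_const, smul_eq_mul,
      reps_card (k := n ^ 2 + 1) h.inv_mem h.card_eq h.two_reps]
    split_ifs <;> ring
  rw [Finset.sum_congr rfl (fun c _ => h3 c), Finset.sum_add_distrib, Finset.sum_ite_eq',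
    ← Finset.mul_sum]
  have h4 : ∑ c : G, cw D L (c⁻¹ * g) = (n ^ 2 + 2) ^ L := by
    rw [← cw_sum h L]
    exact Equiv.sum_comp ((Equiv.inv G).trans (Equiv.mulRight g)) (fun g => cw D L g)
  rw [h4]
  simp

/-- PROOF. Induction on `m`.  `m = 0`: `cw D 1 g = ∑_{a ∈ D} [a⁻¹ g = 1] = [g ∈ D]`, `e = 0`.
Step: by `cw_add_two`, `e' = n ^ 2 e + 2 (n ^ 2 + 2) ^ (2 m + 1)`; with `v = Fintype.card G`,
`v e' + n ^ (2m+2) (n^2+2) = n^2 (v e + n^(2m) (n^2+2)) + 2 v (n^2+2)^(2m+1)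
= (n^2 + 2 v) (n^2+2)^(2m+1)` and `n^2 + 2 v = n^4 + 4 n^2 + 4 = (n^2+2)^2`
(`RectCay.two_mul_card h`). -/
theorem cw_odd {G : Type*} [Group G] [Fintype G] [DecidableEq G] {D : Finset G} {n : ℕ}
    (h : IsD D n) (m : ℕ) :
    ∃ e : ℕ, (∀ g : G, cw D (2 * m + 1) g = n ^ (2 * m) * (if g ∈ D then 1 else 0) + e) ∧
      Fintype.card G * e + n ^ (2 * m) * (n ^ 2 + 2) = (n ^ 2 + 2) ^ (2 * m + 1) := by
  induction m with
  | zero =>
    refine ⟨0, fun g => ?_, by simp⟩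
    simp only [cw, mul_zero, pow_zero, one_mul, add_zero]
    have h1 : ∀ a : G, (a⁻¹ * g = 1) ↔ a = g := fun a => by rw [inv_mul_eq_one]
    simp only [h1, Finset.sum_ite_eq']
  | succ m ih =>
    obtain ⟨e, he1, he2⟩ := ih
    refine ⟨n ^ 2 * e + 2 * (n ^ 2 + 2) ^ (2 * m + 1), fun g => ?_, ?_⟩
    · rw [show 2 * (m + 1) + 1 = (2 * m + 1) + 2 by ring, cw_add_two h, he1]
      rw [show 2 * (m + 1) = 2 * m + 2 by ring, pow_add]
      ring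
    · have hv := two_mul_card h
      calc Fintype.card G * (n ^ 2 * e + 2 * (n ^ 2 + 2) ^ (2 * m + 1))
            + n ^ (2 * (m + 1)) * (n ^ 2 + 2)
          = n ^ 2 * (Fintype.card G * e + n ^ (2 * m) * (n ^ 2 + 2))
            + (2 * Fintype.card G) * (n ^ 2 + 2) ^ (2 * m + 1) := by ring
        _ = (n ^ 2 + 2) ^ (2 * (m + 1) + 1) := by
            rw [he2, hv]; ring

/-- PROOF. Sum the formula of `cw_odd` over `x`: `∑_x [x⁻¹ g x ∈ D] = T D g`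
(`RectCay.T`, `Finset.card_filter`, `Finset.mul_sum`). -/
theorem sum_cw_conj {G : Type*} [Group G] [Fintype G] [DecidableEq G] {D : Finset G} {n : ℕ}
    (h : IsD D n) (m : ℕ) (g : G) :
    ∑ x : G, cw D (2 * m + 1) (x⁻¹ * g * x) + n ^ (2 * m) * (n ^ 2 + 2) =
      n ^ (2 * m) * T D g + (n ^ 2 + 2) ^ (2 * m + 1) := by
  obtain ⟨e, he1, he2⟩ := cw_odd h m
  have h1 : ∑ x : G, cw D (2 * m + 1) (x⁻¹ * g * x)
      = n ^ (2 * m) * T D g + Fintype.card G * e := by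
    rw [Finset.sum_congr rfl (fun x _ => he1 (x⁻¹ * g * x)), Finset.sum_add_distrib,
      ← Finset.mul_sum, Finset.sum_const, Finset.card_univ, smul_eq_mul, T, Finset.card_filter]
  rw [h1, ← he2]
  ring

end SRC
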