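import Pool.Agent.SRC.Defs

set_option autoImplicit false

namespace SRC

/-- number of tuples with letters in `D` and product `h` (first letter first).
PROOF. Induction on `L`, `Fin.consEquiv`/`Fin.cons` splits a tuple `d : Fin (L+1) → G` into
`d 0 = a ∈ D` and the tail, whose product is `a⁻¹ h` (`List.ofFn_succ`, `List.prod_cons`).
(`Nat.card` of a sigma/product type; or work with `Fintype.card`/`Finset.card` of filters.) -/
theorem card_words {G : Type*} [Group G] [Fintype G] [DecidableEq G] (D : Finset G) (L : ℕ)
    (h : G) :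
    Nat.card {d : Fin L → G // (∀ i, d i ∈ D) ∧ (List.ofFn d).prod = h} = cw D L h := by
  induction L generalizing h with
  | zero =>
    by_cases hh : h = 1
    · subst hh
      have : Unique {d : Fin 0 → G // (∀ i, d i ∈ D) ∧ (List.ofFn d).prod = 1} :=
        { default := ⟨Fin.elim0, fun i => i.elim0, by simp⟩
          uniq := fun d => Subtype.ext (funext fun i => i.elim0) }
      rw [Nat.card_unique]
      simp [cw]
    · have : IsEmpty {d : Fin 0 → G // (∀ i, d i ∈ D) ∧ (List.ofFn d).prod = h} :=
        ⟨fun d => hh (by simpa using d.2.2.symm)⟩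
      rw [Nat.card_of_isEmpty]
      simp [cw, hh]
  | succ L ih =>
    let E : {d : Fin (L + 1) → G // (∀ i, d i ∈ D) ∧ (List.ofFn d).prod = h} ≃
        (Σ a : D, {d : Fin L → G // (∀ i, d i ∈ D) ∧ (List.ofFn d).prod = (a : G)⁻¹ * h}) :=
      { toFun := fun d => ⟨⟨d.1 0, d.2.1 0⟩, ⟨fun i => d.1 i.succ, fun i => d.2.1 i.succ, by
          have h1 := d.2.2
          rw [List.ofFn_succ, List.prod_cons] at h1
          exact eq_inv_mul_of_mul_eq h1⟩⟩
        invFun := fun x => ⟨Fin.cons (x.1 : G) x.2.1, by
          refine ⟨fun i => ?_, ?_⟩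
          · refine Fin.cases ?_ (fun j => ?_) i
            · rw [Fin.cons_zero]; exact x.1.2
            · rw [Fin.cons_succ]; exact x.2.2.1 j
          · rw [List.ofFn_succ, List.prod_cons, Fin.cons_zero]
            have h1 := x.2.2.2
            simp only [Fin.cons_succ]
            rw [h1, mul_inv_cancel_left]⟩
        left_inv := fun d => by
          apply Subtype.ext
          exact Fin.cons_self_tail d.1
        right_inv := fun x => by
          obtain ⟨a, d, hd⟩ := x
          rfl }
    rw [Nat.card_congr E, Nat.card_sigma]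
    rw [Finset.sum_congr rfl (fun a _ => ih _)]
    simp only [cw]
    exact Finset.sum_coe_sort D (fun a => cw D L (a⁻¹ * h))

end SRC
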