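import Pool.Agent.SRC.W2a

set_option autoImplicit false

namespace SRC

/-- partial products of a sequence -/
def w2_run {G : Type*} [Group G] (x : G) (e : ℕ → G) (m : ℕ) : G :=
  x * (List.ofFn (fun i : Fin m => e i)).prod

theorem w2_run_zero {G : Type*} [Group G] (x : G) (e : ℕ → G) : w2_run x e 0 = x := by
  simp [w2_run]

theorem w2_run_succ {G : Type*} [Group G] (x : G) (e : ℕ → G) (m : ℕ) :
    w2_run x e (m + 1) = w2_run x e m * e m := by
  unfold w2_run
  rw [List.ofFn_succ', List.concat_eq_append, List.prod_append]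
  simp [mul_assoc]

theorem w2_tele {G : Type*} [Group G] (y : ℕ → G) (m : ℕ) :
    w2_run (y 0) (fun i => (y i)⁻¹ * y (i + 1)) m = y m := by
  induction m with
  | zero => exact w2_run_zero _ _
  | succ m ih => rw [w2_run_succ, ih]; group

theorem w2_periodic {G : Type*} [Group G] {D : Finset G} {g : G} {L : ℕ} (y : TS D g L) :
    Function.Periodic (fun i => (y.1 i)⁻¹ * y.1 (i + 1)) L := by
  intro i
  change (y.1 (i + L))⁻¹ * y.1 (i + L + 1) = (y.1 i)⁻¹ * y.1 (i + 1)
  have h1 : y.1 (i + L + 1) = g * y.1 (i + 1) := by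
    rw [← y.2.2 (i + 1), show i + 1 + L = i + L + 1 by omega]
  rw [h1, y.2.2 i]
  group

/-- the finite data of a twisted walk -/
noncomputable def w2_equiv {G : Type*} [Group G] (D : Finset G) (g : G) (L : ℕ) (hL : 0 < L) :
    TS D g L ≃ {w : G × (Fin L → G) //
      (∀ i, w.2 i ∈ D) ∧ (List.ofFn w.2).prod = w.1⁻¹ * g * w.1} where
  toFun y := ⟨(y.1 0, fun i => (y.1 i)⁻¹ * y.1 (i + 1)), by
    refine ⟨fun i => y.2.1 i, ?_⟩
    have h1 := w2_tele y.1 L
    have h2 := y.2.2 0
    rw [zero_add] at h2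
    unfold w2_run at h1
    rw [h2] at h1
    change (List.ofFn (fun i : Fin L => (y.1 i)⁻¹ * y.1 (i + 1))).prod = (y.1 0)⁻¹ * g * y.1 0
    rw [mul_assoc, ← h1]
    group⟩
  invFun w := ⟨w2_run w.1.1 (fun i => w.1.2 ⟨i % L, Nat.mod_lt _ hL⟩), by
    obtain ⟨⟨x, d⟩, hd, hprod⟩ := w
    change (∀ i, (w2_run x (fun i => d ⟨i % L, Nat.mod_lt _ hL⟩) i)⁻¹ *
      w2_run x (fun i => d ⟨i % L, Nat.mod_lt _ hL⟩) (i + 1) ∈ D) ∧
      ∀ i, w2_run x (fun i => d ⟨i % L, Nat.mod_lt _ hL⟩) (i + L) =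
        g * w2_run x (fun i => d ⟨i % L, Nat.mod_lt _ hL⟩) i
    refine ⟨?_, ?_⟩
    · intro i
      rw [w2_run_succ]
      have := hd ⟨i % L, Nat.mod_lt _ hL⟩
      simpa using this
    · intro i
      induction i with
      | zero =>
        rw [zero_add, w2_run_zero]
        have h1 : (fun i : Fin L => d ⟨(i : ℕ) % L, Nat.mod_lt _ hL⟩) = d := by
          funext i
          congr 1
          apply Fin.ext
          exact Nat.mod_eq_of_lt i.2
        have h2 : w2_run x (fun i => d ⟨i % L, Nat.mod_lt _ hL⟩) L = x * (List.ofFn d).prod := by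
          unfold w2_run
          rw [h1]
        have hprod' : (List.ofFn d).prod = x⁻¹ * g * x := hprod
        rw [h2, hprod']
        group
      | succ i ih =>
        have e : i + 1 + L = i + L + 1 := by omega
        have h3 : (⟨(i + L) % L, Nat.mod_lt _ hL⟩ : Fin L) = ⟨i % L, Nat.mod_lt _ hL⟩ := by
          apply Fin.ext
          simp
        rw [e, w2_run_succ, ih, w2_run_succ, h3]
        group⟩
  left_inv y := by
    apply Subtype.ext
    funext m
    change w2_run (y.1 0) (fun i => (y.1 (i % L))⁻¹ * y.1 (i % L + 1)) m = y.1 m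
    have h1 : (fun i => (y.1 (i % L))⁻¹ * y.1 (i % L + 1)) =
        fun i => (y.1 i)⁻¹ * y.1 (i + 1) := by
      funext i
      exact (w2_periodic y).map_mod_nat i
    rw [h1, w2_tele]
  right_inv w := by
    obtain ⟨⟨x, d⟩, hd, hprod⟩ := w
    apply Subtype.ext
    apply Prod.ext
    · exact w2_run_zero x (fun i => d ⟨i % L, Nat.mod_lt _ hL⟩)
    · funext i
      change (w2_run x (fun i => d ⟨i % L, Nat.mod_lt _ hL⟩) i)⁻¹ *
        w2_run x (fun i => d ⟨i % L, Nat.mod_lt _ hL⟩) (i + 1) = d i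
      rw [w2_run_succ, inv_mul_cancel_left]
      congr 1
      apply Fin.ext
      exact Nat.mod_eq_of_lt i.2

theorem card_TS {G : Type*} [Group G] [Fintype G] [DecidableEq G] (D : Finset G) (g : G) (L : ℕ)
    (hL : 0 < L) :
    Nat.card (TS D g L) = ∑ x : G, cw D L (x⁻¹ * g * x) := by
  rw [Nat.card_congr (w2_equiv D g L hL),
    Nat.card_congr (Equiv.subtypeProdEquivSigmaSubtype
      (fun (x : G) (d : Fin L → G) => (∀ i, d i ∈ D) ∧ (List.ofFn d).prod = x⁻¹ * g * x)),
    Nat.card_sigma]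
  exact Finset.sum_congr rfl fun x _ => card_words D L _

theorem finite_TS {G : Type*} [Group G] [Finite G] (D : Finset G) (g : G) (L : ℕ) (hL : 0 < L) :
    Finite (TS D g L) :=
  Finite.of_equiv _ (w2_equiv D g L hL).symm

end SRC
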