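import Pool.Agent.SRC.Defs

set_option autoImplicit false

namespace SRC

/-- a free action: the order of the group divides the number of points -/
theorem w3_free_dvd {Y X : Type*} [Group Y] [MulAction Y X] [Finite Y] [Finite X]
    (h : ∀ x : X, MulAction.stabilizer Y x = ⊥) : Nat.card Y ∣ Nat.card X := by
  classical
  have := Fintype.ofFinite Y
  have := Fintype.ofFinite X
  have := Fintype.ofFinite (Quotient (MulAction.orbitRel Y X))
  rw [Nat.card_congr (MulAction.selfEquivSigmaOrbits Y X), Nat.card_sigma]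
  apply Finset.dvd_sum
  intro ω _
  have h1 := MulAction.card_orbit_mul_card_stabilizer_eq_card_group Y ω.out
  rw [← Nat.card_eq_fintype_card, ← Nat.card_eq_fintype_card, ← Nat.card_eq_fintype_card,
    h ω.out] at h1
  rw [← h1]
  simp

/-- A permutation `σ` with `σ ^ (p ^ (k+1)) = 1` such that `σ ^ (p ^ k)` has no fixed point: all its
cycles have length exactly `p ^ (k+1)`. -/
theorem dvd_card_of_perm {X : Type*} [Finite X] (σ : Equiv.Perm X) (p k : ℕ) (hp : p.Prime)
    (h1 : σ ^ (p ^ (k + 1)) = 1) (h2 : ∀ x, (σ ^ (p ^ k)) x ≠ x) :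
    p ^ (k + 1) ∣ Nat.card X := by
  classical
  rcases isEmpty_or_nonempty X with hX | ⟨⟨x₀⟩⟩
  · simp
  have ho : orderOf σ = p ^ (k + 1) := by
    have hfp : Fact p.Prime := ⟨hp⟩
    apply orderOf_eq_prime_pow
    · intro hcon
      apply h2 x₀
      rw [hcon]; rfl
    · exact h1
  have hcard : Nat.card (Subgroup.zpowers σ) = p ^ (k + 1) := by
    rw [Nat.card_zpowers, ho]
  rw [← hcard]
  apply w3_free_dvd
  intro x
  rw [Subgroup.eq_bot_iff_forall]
  rintro ⟨τ, hτ⟩ hx
  rw [MulAction.mem_stabilizer_iff] at hx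
  have hx' : τ x = x := hx
  by_contra hne
  have hτ1 : τ ≠ 1 := by
    intro h
    apply hne
    exact Subtype.ext h
  obtain ⟨l, hl⟩ := Subgroup.mem_zpowers_iff.1 hτ
  have hgd : Int.gcd l ((p ^ (k + 1) : ℕ) : ℤ) ∣ p ^ (k + 1) := by
    have := Int.gcd_dvd_right l ((p ^ (k + 1) : ℕ) : ℤ)
    exact_mod_cast this
  obtain ⟨a, ha, hga⟩ := (Nat.dvd_prime_pow hp).1 hgd
  have hak : a ≤ k := by
    by_contra hcon
    have hak1 : a = k + 1 := by omega
    apply hτ1
    have h3 : ((p ^ (k + 1) : ℕ) : ℤ) ∣ l := by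
      have := Int.gcd_dvd_left l ((p ^ (k + 1) : ℕ) : ℤ)
      rw [hga, hak1] at this
      exact this
    obtain ⟨w, hw⟩ := h3
    rw [← hl, hw, zpow_mul, zpow_natCast, h1, one_zpow]
  have hbez := Int.gcd_eq_gcd_ab l ((p ^ (k + 1) : ℕ) : ℤ)
  rw [hga] at hbez
  have h4 : σ ^ (p ^ a) = τ ^ (Int.gcdA l ((p ^ (k + 1) : ℕ) : ℤ)) := by
    rw [← zpow_natCast, hbez, zpow_add, zpow_mul, zpow_mul, hl, zpow_natCast, h1, one_zpow,
      mul_one]
  have h5 : (σ ^ (p ^ a)) x = x := by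
    rw [h4]
    exact Equiv.Perm.zpow_apply_eq_self_of_apply_eq_self hx' _
  apply h2 x
  have h6 : p ^ k = p ^ a * p ^ (k - a) := by
    rw [← pow_add]; congr 1; omega
  rw [h6, pow_mul]
  exact Equiv.Perm.pow_apply_eq_self_of_apply_eq_self h5 _

end SRC
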