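import Pool.Agent.SRC.W3a

set_option autoImplicit false

namespace SRC

theorem W3b_mul {G : Type*} [Group G] {D : Finset G} {g : G} {L : ℕ} (y : TS D g L) (m i : ℕ) :
    y.1 (i + m * L) = g ^ m * y.1 i := by
  induction m with
  | zero => rw [zero_mul, add_zero, pow_zero, one_mul]
  | succ m ih => rw [Nat.succ_mul, ← add_assoc, y.2.2, ih, pow_succ', mul_assoc]

/-- the shift by `s` -/
def W3b_sh {G : Type*} [Group G] {D : Finset G} {g : G} {L : ℕ} (s : ℕ) (y : TS D g L) : TS D g L :=
  ⟨fun i => y.1 (i + s), fun i => by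
    have h := y.2.1 (i + s)
    rwa [add_right_comm i s 1] at h, fun i => by
    have h := y.2.2 (i + s)
    rwa [add_right_comm i s L] at h⟩


/-- PROOF. The shift `σ : y ↦ (i ↦ y (i+1))` is a permutation of `TS D g (p^k)` (inverse: shift by
`p^(k+1) - 1`, because `y (i + p^(k+1)) = g^p * y i = y i`); `σ^m` is the shift by `m`;
`σ^(p^(k+1)) = 1`; and `σ^(p^k) y = g * y ≠ y`.  Apply `dvd_card_of_perm`. -/
theorem dvd_card_TS {G : Type*} [Group G] [Finite G] (D : Finset G) (g : G) (p k : ℕ)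
    (hp : p.Prime) (hg : g ^ p = 1) (hg1 : g ≠ 1) (hfin : Finite (TS D g (p ^ k))) :
    p ^ (k + 1) ∣ Nat.card (TS D g (p ^ k)) := by
  have hp0 : 0 < p ^ (k + 1) := pow_pos hp.pos _
  have hper : ∀ (y : TS D g (p ^ k)) (i : ℕ), y.1 (i + p ^ (k + 1)) = y.1 i := by
    intro y i
    rw [pow_succ', W3b_mul y p i, hg, one_mul]
  let σ : Equiv.Perm (TS D g (p ^ k)) :=
    { toFun := W3b_sh 1
      invFun := W3b_sh (p ^ (k + 1) - 1)
      left_inv := fun y => Subtype.ext (funext fun i => by
        show y.1 (i + (p ^ (k + 1) - 1) + 1) = y.1 i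
        rw [add_assoc, Nat.sub_add_cancel hp0]
        exact hper y i)
      right_inv := fun y => Subtype.ext (funext fun i => by
        show y.1 (i + 1 + (p ^ (k + 1) - 1)) = y.1 i
        rw [add_assoc, add_comm 1, Nat.sub_add_cancel hp0]
        exact hper y i) }
  have hσ : ∀ (m : ℕ) (y : TS D g (p ^ k)) (i : ℕ), ((σ ^ m) y).1 i = y.1 (i + m) := by
    intro m
    induction m with
    | zero => intro y i; rfl
    | succ m ih =>
      intro y i
      rw [pow_succ', Equiv.Perm.mul_apply]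
      show ((σ ^ m) y).1 (i + 1) = y.1 (i + (m + 1))
      rw [ih, add_assoc, add_comm 1 m]
  refine dvd_card_of_perm σ p k hp ?_ ?_
  · ext y
    refine Subtype.ext (funext fun i => ?_)
    rw [hσ, hper]
    rfl
  · intro y hy
    have h1 := congrArg (fun z : TS D g (p ^ k) => z.1 0) hy
    have h2 : y.1 (0 + p ^ k) = y.1 0 := by
      rw [← hσ]
      exact h1
    rw [y.2.2 0] at h2
    exact hg1 (mul_eq_right.1 h2)

end SRC
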