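import Pool.Agent.SRC.W1
import Pool.Agent.SRC.W2b
import Pool.Agent.SRC.W3b

set_option autoImplicit false

namespace SRC

open RectCay

/-- PROOF. Let `L = p ^ k = 2 m + 1`.  By `dvd_card_TS`, `card_TS`, `sum_cw_conj`:
`p^(k+1) ∣ W` with `W + n^(L-1) (n^2+2) = n^(L-1) T + (n^2+2)^L`.  In `ℤ`: if `ε = ±1` and
`p ∣ n^2 + 2 + ε n` then `(n^2+2)^L ≡ (-ε n)^L = - ε n^L (mod p^(k+1))`
(`dvd_sub_pow_of_dvd_sub : ↑p ∣ a - b → ↑(p^(k+1)) ∣ a^(p^k) - b^(p^k)`, `L` odd), so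
`p^(k+1) ∣ n^(L-1) (T - (n^2+2) - ε n)`, and `p ∤ n` gives `p^(k+1) ∣ T - (n^2+2+εn)`. -/
theorem pow_dvd_T_sub {G : Type*} [Group G] [Fintype G] [DecidableEq G] {D : Finset G} {n : ℕ}
    (h : IsD D n) (p : ℕ) (hp : p.Prime) (hp2 : p ≠ 2) (hpn : ¬ p ∣ n) (ε : ℤ)
    (hε : ε = 1 ∨ ε = -1) (hd : (p : ℤ) ∣ (n : ℤ) ^ 2 + 2 + ε * n) (g : G) (hg : orderOf g = p)
    (k : ℕ) :
    (p : ℤ) ^ (k + 1) ∣ (T D g : ℤ) - ((n : ℤ) ^ 2 + 2 + ε * n) := by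
  have hg1 : g ^ p = 1 := by rw [← hg]; exact pow_orderOf_eq_one g
  have hgne : g ≠ 1 := by
    rintro rfl
    rw [orderOf_one] at hg
    exact hp.one_lt.ne hg
  have hodd : Odd (p ^ k) := (hp.odd_of_ne_two hp2).pow
  obtain ⟨m, hm⟩ := hodd
  have hfin := finite_TS D g (p ^ k) (pow_pos hp.pos k)
  have h1 := dvd_card_TS D g p k hp hg1 hgne hfin
  rw [card_TS D g (p ^ k) (pow_pos hp.pos k), hm] at h1
  have h2 := sum_cw_conj h m g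
  have h3 : (p : ℤ) ^ (k + 1) ∣ ((∑ x : G, cw D (2 * m + 1) (x⁻¹ * g * x) : ℕ) : ℤ) := by
    have := Int.natCast_dvd_natCast.2 h1
    rwa [Nat.cast_pow] at this
  have h2' : ((∑ x : G, cw D (2 * m + 1) (x⁻¹ * g * x) : ℕ) : ℤ) + (n : ℤ) ^ (2 * m) * ((n : ℤ) ^ 2 + 2)
      = (n : ℤ) ^ (2 * m) * (T D g : ℤ) + ((n : ℤ) ^ 2 + 2) ^ (2 * m + 1) := by
    exact_mod_cast h2
  have h4 : (p : ℤ) ^ (k + 1) ∣ ((n : ℤ) ^ 2 + 2) ^ (2 * m + 1) - (-(ε * n)) ^ (2 * m + 1) := by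
    rw [← hm]
    have h5 := dvd_sub_pow_of_dvd_sub (R := ℤ) (p := p) (a := (n : ℤ) ^ 2 + 2) (b := -(ε * n))
      (by rw [sub_neg_eq_add]; exact hd) k
    exact h5
  have hε2 : ε ^ (2 * m + 1) = ε := by
    rcases hε with rfl | rfl
    · exact one_pow _
    · exact Odd.neg_one_pow ⟨m, rfl⟩
  have h6 : (-(ε * (n : ℤ))) ^ (2 * m + 1) = -(ε * n) * (n : ℤ) ^ (2 * m) := by
    rw [Odd.neg_pow ⟨m, rfl⟩, mul_pow, hε2, pow_succ]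
    ring
  rw [h6] at h4
  have h7 : (p : ℤ) ^ (k + 1) ∣ (n : ℤ) ^ (2 * m) * ((T D g : ℤ) - ((n : ℤ) ^ 2 + 2 + ε * n)) := by
    have h8 := dvd_sub h3 h4
    have h9 : ((∑ x : G, cw D (2 * m + 1) (x⁻¹ * g * x) : ℕ) : ℤ)
        - (((n : ℤ) ^ 2 + 2) ^ (2 * m + 1) - -(ε * n) * (n : ℤ) ^ (2 * m))
        = (n : ℤ) ^ (2 * m) * ((T D g : ℤ) - ((n : ℤ) ^ 2 + 2 + ε * n)) := by
      linear_combination h2'
    rwa [h9] at h8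
  have hcop : IsCoprime ((p : ℤ) ^ (k + 1)) ((n : ℤ) ^ (2 * m)) := by
    apply IsCoprime.pow
    exact Int.isCoprime_iff_gcd_eq_one.2 ((Nat.Prime.coprime_iff_not_dvd hp).2 hpn)
  exact hcop.dvd_of_dvd_mul_left h7

/-- the exact value.
PROOF. All powers of `p` divide the integer `T - (n^2+2+εn)`, so it is zero
(`Int.eq_zero_of_abs_lt_dvd`, take `k` with `p^(k+1) > |.|`, `Nat.lt_pow_self`/`Nat.lt_two_pow`). -/
theorem T_eq_of_dvd {G : Type*} [Group G] [Fintype G] [DecidableEq G] {D : Finset G} {n : ℕ}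
    (h : IsD D n) (p : ℕ) (hp : p.Prime) (hp2 : p ≠ 2) (hpn : ¬ p ∣ n) (ε : ℤ)
    (hε : ε = 1 ∨ ε = -1) (hd : (p : ℤ) ∣ (n : ℤ) ^ 2 + 2 + ε * n) (g : G) (hg : orderOf g = p) :
    (T D g : ℤ) = (n : ℤ) ^ 2 + 2 + ε * n := by
  have h1 := pow_dvd_T_sub h p hp hp2 hpn ε hε hd g hg
    ((T D g : ℤ) - ((n : ℤ) ^ 2 + 2 + ε * n)).natAbs
  have h2 := Int.eq_zero_of_abs_lt_dvd h1 (by
    rw [Int.abs_eq_natAbs]
    have h3 : ((T D g : ℤ) - ((n : ℤ) ^ 2 + 2 + ε * n)).natAbs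
        < p ^ (((T D g : ℤ) - ((n : ℤ) ^ 2 + 2 + ε * n)).natAbs + 1) :=
      (Nat.lt_pow_self hp.one_lt).trans_le (Nat.pow_le_pow_right hp.pos (Nat.le_succ _))
    exact_mod_cast h3)
  linarith

end SRC
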